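import Pool.Agent.H89.RS.Sup

/-!
# [H89 RS Thm] THEOREM R* (MP_e49dc9_ag)

`thmRS`: `p` nef, `l p > 0`.  Either `p` is an interior point of the nef cone of `Vp p`, or `p = q + s G` with `s > 0`, `q`, `G` nef,
`q . q = 0`, `G . G = 0`, `l q ≤ 0`, `G` the class of a surface.

* `T(p,p,p) > 0`: `vp_big`.
* `T(p,p,p) = 0`, `T(p,p,.) = 0` on `Vp p`: `part1z` (or `thmR` if `T(p,p,.) = 0`).
* else: `z_bc` gives the family, `sup`.
-/

set_option autoImplicit false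

namespace Pool.Agent.H89.RS

open Pool.Agent.H54.RV Pool.Agent.H83.TU Pool.Agent.H83.TK Pool.Agent.H20.TD Pool.Agent.H20.TP Pool.Agent.H20.RT
  Pool.Agent.H32.TN Pool.Agent.H39.TZ
open Pool.Agent.H24.VP (RR)

variable {k K : Type} [Field k] [Field K] [Algebra k K] {X : Mod k K} {r : ℕ}
  {ν : Cart X →* Multiplicative (Fin r → ℤ)} {T : Cart X → Cart X → Cart X → ℝ} {l₀ : Cart X → ℝ} {c : ℝ} {TR : Tri3 r}
  {p : Fin r → ℝ} {A : Cart X}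

/-- the exceptional classes: `p = q + s G`, `q`, `G` nef, `q . q = 0`, `G . G = 0`, `l q ≤ 0` -/
def Exc (ν : Cart X →* Multiplicative (Fin r → ℤ)) (TR : Tri3 r) (l : (Fin r → ℝ) →ₗ[ℝ] ℝ) (p : Fin r → ℝ) : Prop :=
  ∃ (s : ℝ) (q : Fin r → ℝ) (G : Cart X), 0 < s ∧ q ∈ closure (AmpR ν) ∧ q ≠ 0 ∧ cR ν G ∈ closure (AmpR ν) ∧
    cR ν G ≠ 0 ∧ p = q + s • cR ν G ∧ TR q q = 0 ∧ TR (cR ν G) (cR ν G) = 0 ∧ l q ≤ 0

/-- Part 1 of THEOREM R: `p ^ 2 ≠ 0` is zero on `Vp p` -/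
theorem part1z [CharZero k] [IsAlgClosed k] [T0Space X.P] (h : Hyp X) (hr : RR T l₀ c) (hν : NumR ν)
    (hT : ∀ U V W, TR (cR ν U) (cR ν V) (cR ν W) = T U V W) {l : (Fin r → ℝ) →ₗ[ℝ] ℝ} (hl : ∀ D, l (cR ν D) = l₀ D)
    (hp : p ∈ closure (AmpR ν)) (hlp : 0 < l p) (hpp : TR p p ≠ 0) (hz0 : ∀ w ∈ Vp p, TR p p w = 0) :
    ∃ e : ℝ, 0 < e ∧ ∀ y ∈ Vp p, ‖y - p‖ < e → y ∈ closure (AmpR ν) := by
  obtain ⟨A, hA⟩ := h.amp
  have hpC : p ∈ closure (CC ν) := by rwa [← cl_eq h.var hν]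
  have h1 : 0 < TR p p (cR ν A) := pp_pos h hr hν hT hA hpC hpp
  have h0 := Pool.Agent.H32.RT.t0 h hν hr hT hl hp hlp hpp hz0
  obtain ⟨m, W, e, he, hW, hcone⟩ := Pool.Agent.H41.RT.ww_cc h hr hν hT hl hA hpC hlp h1 h0
  choose Z hZ using fun j => hasX_of_pos (hW j).1
  rw [cl_eq h.var hν]
  refine Pool.Agent.H89.RT.end_ h hr hν hT hA hpC h1 hz0 h0 hZ (fun j z S hz _ hS => ?_) he hcone
  exact Pool.Agent.H32.RT.zs h hν hr hT hp hS (hZ j) hz (hz0 _ (hW j).2)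

theorem thmRS [CharZero k] [IsAlgClosed k] [T0Space X.P] (hSm : Pool.Agent.H20.TU.SmP X) (h : Hyp X) (hr : RR T l₀ c)
    (hν : NumR ν) (hT : ∀ U V W, TR (cR ν U) (cR ν V) (cR ν W) = T U V W)
    {l : (Fin r → ℝ) →ₗ[ℝ] ℝ} (hl : ∀ D, l (cR ν D) = l₀ D) (hp : p ∈ closure (AmpR ν)) (hlp : 0 < l p) :
    (∃ e : ℝ, 0 < e ∧ ∀ y ∈ Vp p, ‖y - p‖ < e → y ∈ closure (AmpR ν)) ∨ Exc ν TR l p := by
  have hpC : p ∈ closure (CC ν) := by rwa [← cl_eq h.var hν]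
  by_cases h3 : TR p p p = 0
  · by_cases hpp : TR p p = 0
    · rcases Pool.Agent.H89.RT.thmR h hr hν hT hl hp hlp with h1 | ⟨-, -, h1⟩
      · exact Or.inl h1
      · exact (h1 ⟨0, 0, fun D => ⟨0, by simp⟩, fun v => by rw [hpp]; simp⟩).elim
    · by_cases hz : ∃ w ∈ Vp p, TR p p w ≠ 0
      · right
        rcases z_bc h hν hr hT hl hp hlp with h4 | h4 | h4
        · exact (h4.ne' h3).elim
        · obtain ⟨F, ⟨P, hinj, hspr⟩, hnum, hppF, hpFF⟩ := h4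
          have hF : Fm ν TR p F P := ⟨hinj, hspr, hnum, hppF, hpFF⟩
          obtain ⟨h5, h6, -⟩ := mc hSm h hr hν hT hl hpC h3 hz hF
          obtain ⟨s, q, hs, hq, hq0, hpq, hqq, hlq⟩ := sup hSm h hr hν hT hl hpC h3 hz hF
          refine ⟨s, q, F 0, hs, by rwa [cl_eq h.var hν], hq0, by rwa [cl_eq h.var hν], fun h7 => ?_, hpq, hqq, ?_,
            hlq⟩
          · have h8 : ∀ u v, TR (cR ν (F 0)) u v = 0 := fun u v => by rw [h7, map_zero]; rfl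
            obtain ⟨A, hA⟩ := h.amp
            have h9 := Pool.Agent.H20.TP.pos_srf h hr (trdeg_pdiv h (P 0)) (hspr 0) hA hA
            rw [← hT, tr_s23 hr hν hT, tr_s12 hr hν hT, h8] at h9
            exact lt_irrefl _ h9
          · exact LinearMap.ext h5
        · exact (hpp h4.1).elim
      · push Not at hz
        exact Or.inl (part1z h hr hν hT hl hp hlp hpp hz)
  · rcases Pool.Agent.H89.RT.thmR h hr hν hT hl hp hlp with h1 | ⟨h1, -⟩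
    · exact Or.inl h1
    · exact (h3 h1).elim

end Pool.Agent.H89.RS
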