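import Pool.Agent.H89.RS.Def
import Pool.Agent.H39.TK.Pri

/-!
# [H89 RS Bnd] THEOREM R* (MP_e49dc9_ag): the poles of the derivations on a curve are bounded by a divisor

PROOF.  `A` ample.  For `x` on the curve (`y ⤳ x`): `n ≥ 1`, a section `s` of `n A` with `x ∈ U := nz A n s` affine; `y ∈ U`.  `sec U` is generated by
`b 1, .., b N` (`fg`); `d i (b j) ∈ X.O y`; by `frac` there is `σ ∈ sec U`, a unit at `y`, with `σ * d i (b j) ∈ sec U` for all `i j`, so
`σ * d i f ∈ sec U` for `f ∈ sec U`, and `σ * d i f ∈ X.O x'` for `f ∈ X.O x'`, `x' ∈ U` (`frac`, quotient rule).  For `m` large `σ s ^ m` is a section of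
`n m A` (or of a multiple: `σ ∈ sec (nz A n s)` extends); `E_x` := its divisor, i.e. `prin (σ s ^ m) * A ^ (n m)`.  It is a unit at `y`, and
`E_x.eq x' = σ` times a unit for `x' ∈ U`.  Finitely many `U` cover the curve (compactness of `X.P`, the closure of `y` is closed):
`E` = the product.
-/

set_option autoImplicit false

namespace Pool.Agent.H89.RS

open Pool.Agent.H54.RV Pool.Agent.H83.TU Pool.Agent.H83.TK Pool.Agent.H20.TD Pool.Agent.H20.TP Pool.Agent.H20.RT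
open Pool.Agent.H24.VP (RR)

variable {k K : Type} [Field k] [Field K] [Algebra k K] {X : Mod k K} {r : ℕ}
  {ν : Cart X →* Multiplicative (Fin r → ℤ)} {T : Cart X → Cart X → Cart X → ℝ} {l₀ : Cart X → ℝ} {c : ℝ} {TR : Tri3 r}
  {p : Fin r → ℝ} {A : Cart X}

/-- a common denominator -/
private theorem bnd_den (hX : IsVar X) {U : Set X.P} (hU : X.aff U) {y : X.P} (hy : y ∈ U) (F : Finset K)
    (hF : ∀ f ∈ F, f ∈ X.O y) : ∃ σ ∈ X.sec U, Un (X.O y) σ ∧ ∀ f ∈ F, σ * f ∈ X.sec U := by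
  classical
  induction F using Finset.induction_on with
  | empty => exact ⟨1, (X.sec U).one_mem, un_one _, fun f hf => absurd hf (Finset.notMem_empty f)⟩
  | insert a F _ ih =>
    obtain ⟨σ, h1, h2, h3⟩ := ih fun f hf => hF f (Finset.mem_insert_of_mem hf)
    obtain ⟨τ, h4, h5, h6⟩ := hX.frac U y hU hy a (hF a (Finset.mem_insert_self a F))
    refine ⟨σ * τ, (X.sec U).mul_mem h1 h4, un_mul h2 h5, fun f hf => ?_⟩
    rcases Finset.mem_insert.1 hf with rfl | hf
    · have e : σ * τ * f = σ * (f * τ) := by ring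
      rw [e]
      exact (X.sec U).mul_mem h1 h6
    · have e : σ * τ * f = τ * (σ * f) := by ring
      rw [e]
      exact (X.sec U).mul_mem h4 (h3 f hf)

/-- a divisor near the point `x` -/
private theorem bnd_loc (hX : IsVar X) (hA : Ample A) {y : X.P} {d : Fin 2 → Derivation k K K} {t : Fin 2 → K}
    (hJ : Jet X y d t) {x : X.P} (hx : y ⤳ x) : ∃ (V : Set X.P) (E : Cart X), IsOpen V ∧ x ∈ V ∧ Effective E ∧
      Un (X.O y) (E.eq y) ∧ ∀ x' ∈ V, ∀ i, ∀ f ∈ X.O x', E.eq x' * d i f ∈ X.O x' := by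
  classical
  obtain ⟨n, -, s, hs, hxU, hU⟩ := hA x
  have hop : IsOpen (nz A n s) := hX.op _ hU
  have hyU : y ∈ nz A n s := hx.mem_open hop hxU
  have hs0 : s ≠ 0 := left_ne_zero_of_mul (show Un (X.O x) (s * A.eq x ^ n) from hxU).1
  obtain ⟨S, hS⟩ := hX.fg _ hU ⟨x, hxU⟩
  have hSy : ∀ b ∈ S, b ∈ X.O y := by
    intro b hb
    have h1 : b ∈ X.sec (nz A n s) := by
      rw [← hS]
      exact Algebra.subset_adjoin (Finset.mem_coe.2 hb)
    exact (mem_sec _ _).1 h1 y hyU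
  obtain ⟨σ, h1, h2, h3⟩ := bnd_den hX hU hyU (S.image (d 0) ∪ S.image (d 1)) (by
    intro f hf
    rcases Finset.mem_union.1 hf with hf | hf
    · obtain ⟨b, hb, rfl⟩ := Finset.mem_image.1 hf
      exact hJ.st 0 b (hSy b hb)
    · obtain ⟨b, hb, rfl⟩ := Finset.mem_image.1 hf
      exact hJ.st 1 b (hSy b hb))
  have h4 : ∀ i, ∀ b ∈ S, σ * d i b ∈ X.sec (nz A n s) := by
    intro i b hb
    apply h3
    rw [Finset.mem_union]
    fin_cases i
    · exact Or.inl (Finset.mem_image_of_mem _ hb)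
    · exact Or.inr (Finset.mem_image_of_mem _ hb)
  have h5 : ∀ i, ∀ f ∈ X.sec (nz A n s), σ * d i f ∈ X.sec (nz A n s) := by
    intro i f hf
    rw [← hS] at hf
    have hsub : Algebra.adjoin k (S : Set K) = X.sec (nz A n s) := hS
    induction hf using Algebra.adjoin_induction with
    | mem b hb => exact h4 i b (Finset.mem_coe.1 hb)
    | algebraMap r =>
      rw [Derivation.map_algebraMap, mul_zero]
      exact (X.sec _).zero_mem
    | add f g _ _ hf hg =>
      rw [map_add, mul_add]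
      exact (X.sec _).add_mem hf hg
    | mul f g hf0 hg0 hf hg =>
      rw [hsub] at hf0 hg0
      rw [Derivation.leibniz]
      have e : σ * (f • d i g + g • d i f) = f * (σ * d i g) + g * (σ * d i f) := by
        rw [smul_eq_mul, smul_eq_mul]
        ring
      rw [e]
      exact (X.sec _).add_mem ((X.sec _).mul_mem hf0 hg) ((X.sec _).mul_mem hg0 hf)
  have h6 : ∀ x' ∈ nz A n s, ∀ i, ∀ f ∈ X.O x', σ * d i f ∈ X.O x' := by
    intro x' hx' i f hf
    obtain ⟨τ, ht1, ht2, ht3⟩ := hX.frac _ x' hU hx' f hf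
    have e1 := (mem_sec _ _).1 (h5 i _ ht3) x' hx'
    have e2 := (mem_sec _ _).1 (h5 i _ ht1) x' hx'
    rw [Derivation.leibniz, smul_eq_mul, smul_eq_mul] at e1
    have e3 : σ * d i f * τ ∈ X.O x' := by
      have e : σ * d i f * τ = σ * (f * d i τ + τ * d i f) - f * (σ * d i τ) := by ring
      rw [e]
      exact (X.O x').sub_mem e1 ((X.O x').mul_mem hf e2)
    exact (mem_mul_un ht2).1 e3
  obtain ⟨N, hN⟩ := Pool.Agent.H39.TK.ext_nz hX hs σ h1
  have hne : s ^ N * σ ≠ 0 := mul_ne_zero (pow_ne_zero _ hs0) h2.1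
  have heq : ∀ z, (prin X (s ^ N * σ) hne * A ^ (n * N)).eq z = (s * A.eq z ^ n) ^ N * σ := by
    intro z
    rw [mul_eq, pow_eq]
    change s ^ N * σ * A.eq z ^ (n * N) = _
    rw [mul_pow, ← pow_mul]
    ring
  refine ⟨nz A n s, prin X (s ^ N * σ) hne * A ^ (n * N), hop, hxU, fun z => ?_, ?_, ?_⟩
  · rw [mul_eq, pow_eq]
    exact hN z
  · rw [heq]
    exact un_mul (un_pow hyU N) h2
  · intro x' hx' i f hf
    rw [heq, mul_assoc]
    exact (X.O x').mul_mem (un_pow hx' N).2.1 (h6 x' hx' i f hf)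

theorem ex_bd [CharZero k] (h : Hyp X) {y : X.P} {d : Fin 2 → Derivation k K K} {t : Fin 2 → K} (hJ : Jet X y d t) :
    ∃ E : Cart X, Bd y d E := by
  classical
  obtain ⟨A, hA⟩ := h.amp
  have hcomp := h.var.comp
  have key : ∀ x : X.P, ∃ (V : Set X.P) (E : Cart X), IsOpen V ∧ x ∈ V ∧ (y ⤳ x → Effective E ∧
      Un (X.O y) (E.eq y) ∧ ∀ x' ∈ V, ∀ i, ∀ f ∈ X.O x', E.eq x' * d i f ∈ X.O x') := by
    intro x
    by_cases hx : y ⤳ x
    · obtain ⟨V, E, h1, h2, h3, h4, h5⟩ := bnd_loc h.var hA hJ hx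
      exact ⟨V, E, h1, h2, fun _ => ⟨h3, h4, h5⟩⟩
    · exact ⟨Set.univ, 1, isOpen_univ, Set.mem_univ x, fun h' => absurd h' hx⟩
  choose V E hV hxV hE using key
  have hcl : IsCompact (closure ({y} : Set X.P)) := isClosed_closure.isCompact
  obtain ⟨T, hT1, hT2⟩ := hcl.elim_nhds_subcover V fun x _ => (hV x).mem_nhds (hxV x)
  have hT3 : ∀ x ∈ T, y ⤳ x := fun x hx => specializes_iff_mem_closure.2 (hT1 x hx)
  have heff : ∀ T' : Finset X.P, (∀ x ∈ T', y ⤳ x) → Effective (∏ x ∈ T', E x) ∧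
      Un (X.O y) ((∏ x ∈ T', E x).eq y) := by
    intro T' hT'
    refine Finset.prod_induction E (fun E => Effective E ∧ Un (X.O y) (E.eq y)) ?_ ?_ ?_
    · rintro a b ⟨ha, ha'⟩ ⟨hb, hb'⟩
      exact ⟨fun z => (X.O z).mul_mem (ha z) (hb z), un_mul ha' hb'⟩
    · exact ⟨fun z => (X.O z).one_mem, un_one _⟩
    · intro x hx
      exact ⟨(hE x (hT' x hx)).1, (hE x (hT' x hx)).2.1⟩
  refine ⟨∏ x ∈ T, E x, (heff T hT3).1, (heff T hT3).2, ?_⟩
  intro x' hx' i f hf
  have h1 := hT2 (specializes_iff_mem_closure.1 hx')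
  rw [Set.mem_iUnion₂] at h1
  obtain ⟨x, hx, hxx⟩ := h1
  rw [← Finset.mul_prod_erase T E hx, mul_eq]
  have h2 := (heff (T.erase x) fun z hz => hT3 z (Finset.mem_of_mem_erase hz)).1 x'
  have h3 := (hE x (hT3 x hx)).2.2 x' hxx i f hf
  have e : (E x).eq x' * (∏ z ∈ T.erase x, E z).eq x' * d i f =
      (∏ z ∈ T.erase x, E z).eq x' * ((E x).eq x' * d i f) := by ring
  rw [e]
  exact (X.O x').mul_mem h2 h3

end Pool.Agent.H89.RS
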