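import Pool.Agent.H89.RS.Def

/-!
# [H89 RS Der] THEOREM R* (MP_e49dc9_ag): the derivations at a curve

PROOF.  `O` = the local ring at `y`, `m` its maximal ideal, `κ` = its residue field.  `Ω[O/k]` is generated by three elements (`SmP`), and
`Ω[K/k]` (the localization) has dimension `3` (transcendence degree, characteristic `0`; see H20/TU/SMA).  So (Nakayama)
`dim_κ (κ ⊗ Ω[O/k]) = 3`.  `κ ⊗ Ω[O/k] / (image of d m) = Ω[κ/k]` is generated by one element (`κ` is algebraic over `k(u)`,
characteristic `0`).  So there are `t 0, t 1 ∈ m` whose differentials are linearly independent in `κ ⊗ Ω[O/k]`; with one more `c ∈ O` they are a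
basis, so `dt 0, dt 1, dc` generate `Ω[O/k]` (Nakayama), and they are a basis of `Ω[K/k]`.  `d 0`, `d 1`: the first two derivations
of the dual basis; for `f ∈ O`: `df = a dt 0 + b dt 1 + e dc` with `a b e ∈ O`, so `d 0 f = a ∈ O`.  The commutator is a derivation which is zero on
`t 0, t 1, c`, so it is `0`.
-/

set_option autoImplicit false

namespace Pool.Agent.H89.RS

open Pool.Agent.H54.RV Pool.Agent.H83.TU Pool.Agent.H83.TK Pool.Agent.H20.TD Pool.Agent.H20.TP Pool.Agent.H20.RT
open Pool.Agent.H24.VP (RR)

section aux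

variable {k K : Type} [Field k] [Field K] [Algebra k K] {O : Subalgebra k K}

/-- a derivation which is zero at the coordinates is zero on the local ring -/
private theorem der_zeroO {M : Type*} [AddCommGroup M] [Module k M] [Module O M] [IsScalarTower k O M]
    (c : Fin 3 → O) (hc : Submodule.span O (Set.range fun i => KaehlerDifferential.D k O (c i)) = ⊤)
    (δ : Derivation k O M) (h : ∀ i, δ (c i) = 0) : δ = 0 := by
  have hl : δ.liftKaehlerDifferential = 0 := by
    refine LinearMap.ext_on_range (v := fun i => KaehlerDifferential.D k O (c i)) hc ?_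
    intro i
    rw [Derivation.liftKaehlerDifferential_comp_D, h, LinearMap.zero_apply]
  ext a
  rw [← Derivation.liftKaehlerDifferential_comp_D δ a, hl, LinearMap.zero_apply]
  rfl

/-- a derivation of the field which is zero at the coordinates is zero -/
private theorem der_zero {M : Type*} [AddCommGroup M] [Module k M] [Module K M] [IsScalarTower k K M]
    (hf : ∀ z : K, ∃ s ∈ O, s ≠ 0 ∧ z * s ∈ O) (c : Fin 3 → O)
    (hc : Submodule.span O (Set.range fun i => KaehlerDifferential.D k O (c i)) = ⊤)
    (δ : Derivation k K M) (h : ∀ i, δ (c i : K) = 0) : δ = 0 := by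
  have : IsScalarTower k O M := ⟨fun r a m => by
    change ((r • a : O) : K) • m = r • ((a : K) • m)
    rw [← smul_assoc]
    rfl⟩
  have h1 : δ.compAlgebraMap O = 0 := der_zeroO c hc _ h
  have h2 : ∀ a : O, δ (a : K) = 0 := fun a => congrArg (fun d : Derivation k O M => d a) h1
  ext z
  obtain ⟨s, hs, hs0, hzs⟩ := hf z
  have h3 := h2 ⟨_, hzs⟩
  change δ (z * s) = 0 at h3
  have h4 := h2 ⟨s, hs⟩
  change δ s = 0 at h4
  rw [Derivation.leibniz, h4, smul_zero, zero_add] at h3
  exact (smul_eq_zero.1 h3).resolve_left hs0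

/-- the dual derivations -/
private theorem der_dual [CharZero k] (htr : Algebra.trdeg k K = 3) (hf : ∀ z : K, ∃ s ∈ O, s ≠ 0 ∧ z * s ∈ O)
    (c : Fin 3 → O) (hc : Submodule.span O (Set.range fun i => KaehlerDifferential.D k O (c i)) = ⊤) :
    ∃ p : Fin 3 → Derivation k K K, (∀ i j, p i (c j : K) = if i = j then 1 else 0) ∧
      ∀ i, ∀ f ∈ O, p i f ∈ O := by
  classical
  obtain ⟨b, hb⟩ : ∃ b : Fin 3 → K, IsTranscendenceBasis k b := by
    obtain ⟨b, hb⟩ := Pool.Agent.H20.TU.exists_indep 3 (by exact_mod_cast htr.ge)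
    refine ⟨b, hb.isTranscendenceBasis_of_trdeg_le_of_finite ?_⟩
    rw [Cardinal.mk_fin, htr]
    norm_num
  obtain ⟨N, hN⟩ : ∃ N : Submodule K (Ω[K⁄k]),
      N = Submodule.span K (Set.range fun i => KaehlerDifferential.D k K (c i : K)) := ⟨_, rfl⟩
  have h1 : N = ⊤ := by
    let δ : Derivation k K ((Ω[K⁄k]) ⧸ N) := N.mkQ.compDer (KaehlerDifferential.D k K)
    have hδ : δ = 0 := by
      refine der_zero hf c hc δ fun i => ?_
      change N.mkQ (KaehlerDifferential.D k K (c i : K)) = 0
      rw [Submodule.mkQ_apply, Submodule.Quotient.mk_eq_zero, hN]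
      exact Submodule.subset_span ⟨i, rfl⟩
    rw [eq_top_iff, ← KaehlerDifferential.span_range_derivation, Submodule.span_le]
    rintro _ ⟨a, rfl⟩
    have h2 : δ a = 0 := by rw [hδ]; rfl
    change N.mkQ (KaehlerDifferential.D k K a) = 0 at h2
    rwa [Submodule.mkQ_apply, Submodule.Quotient.mk_eq_zero] at h2
  have hfin : Module.Finite K (Ω[K⁄k]) := by
    refine ⟨⟨Finset.univ.image fun i => KaehlerDifferential.D k K (c i : K), ?_⟩⟩
    rw [Finset.coe_image, Finset.coe_univ, Set.image_univ, ← hN, h1]
  have hle := Pool.Agent.H20.TU.finrank_omega htr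
  have hge : 3 ≤ Module.finrank K (Ω[K⁄k]) := by
    have hli : LinearIndependent K fun i => KaehlerDifferential.D k K (b i) := by
      rw [Fintype.linearIndependent_iff]
      intro g hg i
      obtain ⟨D, hD⟩ := Pool.Agent.H24.TU.exists_derivation hb (fun j => if j = i then (1 : K) else 0)
      have h2 := congrArg D.liftKaehlerDifferential hg
      rw [map_sum, map_zero] at h2
      simp only [map_smul, Derivation.liftKaehlerDifferential_comp_D, hD, smul_eq_mul, mul_ite, mul_one, mul_zero,
        Finset.sum_ite_eq', Finset.mem_univ, if_true] at h2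
      exact h2
    have := hli.fintype_card_le_finrank
    simpa using this
  have hli : LinearIndependent K fun i => KaehlerDifferential.D k K (c i : K) := by
    refine linearIndependent_of_top_le_span_of_card_eq_finrank (by rw [← hN, h1]) ?_
    rw [Fintype.card_fin]
    omega
  let B := Module.Basis.mk hli (by rw [← hN, h1])
  have hB : ∀ i, B i = KaehlerDifferential.D k K (c i : K) := fun i => Module.Basis.mk_apply _ _ i
  have hp : ∀ i j, ((B.coord i).compDer (KaehlerDifferential.D k K)) (c j : K) = if i = j then 1 else 0 := by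
    intro i j
    change B.coord i (KaehlerDifferential.D k K (c j : K)) = _
    rw [← hB, Module.Basis.coord_apply, Module.Basis.repr_self, Finsupp.single_apply]
    simp only [eq_comm]
  refine ⟨fun i => (B.coord i).compDer (KaehlerDifferential.D k K), hp, fun i f hfO => ?_⟩
  have h3 : KaehlerDifferential.D k O ⟨f, hfO⟩ ∈
      Submodule.span O (Set.range fun i => KaehlerDifferential.D k O (c i)) := by
    rw [hc]
    exact Submodule.mem_top
  obtain ⟨a, ha⟩ := (Submodule.mem_span_range_iff_exists_fun O).1 h3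
  have h4 := congrArg (((B.coord i).compDer (KaehlerDifferential.D k K)).compAlgebraMap O).liftKaehlerDifferential ha
  rw [map_sum, Derivation.liftKaehlerDifferential_comp_D] at h4
  have h5 : ∀ j, (((B.coord i).compDer (KaehlerDifferential.D k K)).compAlgebraMap O).liftKaehlerDifferential
      (a j • KaehlerDifferential.D k O (c j)) = if i = j then (a j : K) else 0 := by
    intro j
    rw [map_smul, Derivation.liftKaehlerDifferential_comp_D]
    change (a j : K) * ((B.coord i).compDer (KaehlerDifferential.D k K)) (c j : K) = _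
    rw [hp]
    simp
  simp only [h5, Finset.sum_ite_eq, Finset.mem_univ, if_true] at h4
  change (a i : K) = ((B.coord i).compDer (KaehlerDifferential.D k K)) f at h4
  rw [← h4]
  exact (a i).2

end aux

section aux2

variable {k K : Type} [Field k] [Field K] [Algebra k K] {O : Subalgebra k K}

/-- restriction of a derivation to the local ring -/
private def dres (p : Derivation k K K) (h : ∀ f ∈ O, p f ∈ O) : Derivation k O O :=
  Derivation.mk'
    { toFun := fun f => ⟨p f, h f f.2⟩
      map_add' := fun a b => Subtype.ext (map_add p (a : K) (b : K))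
      map_smul' := fun r a => Subtype.ext (p.map_smul r (a : K)) }
    (fun a b => Subtype.ext (p.leibniz (a : K) (b : K)))

private theorem dsum (v : Fin 3 → K) (p : Fin 3 → Derivation k K K) (a : K) :
    (∑ j, v j • p j) a = ∑ j, v j * p j a := by
  rw [Fin.sum_univ_three, Fin.sum_univ_three]
  rfl

private theorem dres_apply (p : Derivation k K K) (h : ∀ f ∈ O, p f ∈ O) (f : O) : ((dres p h f : O) : K) = p f := rfl

/-- the gradients modulo the maximal ideal -/
private theorem der_mem [CharZero k] [IsLocalRing O] (p : Fin 3 → Derivation k O O)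
    {u : Fin 1 → IsLocalRing.ResidueField O} (hu : IsTranscendenceBasis k u) (cc : O)
    (hcc : IsLocalRing.residue O cc = u 0) (N : Submodule (IsLocalRing.ResidueField O) (Fin 3 → IsLocalRing.ResidueField O))
    (hN : ∀ t ∈ IsLocalRing.maximalIdeal O, (fun i => IsLocalRing.residue O (p i t)) ∈ N)
    (hN2 : (fun i => IsLocalRing.residue O (p i cc)) ∈ N) (f : O) : (fun i => IsLocalRing.residue O (p i f)) ∈ N := by
  obtain ⟨g, hg⟩ : ∃ g : O → (Fin 3 → IsLocalRing.ResidueField O), g = fun f i => IsLocalRing.residue O (p i f) :=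
    ⟨_, rfl⟩
  have hgf : ∀ f, (fun i => IsLocalRing.residue O (p i f)) = g f := fun f => by rw [hg]
  rw [hgf] at hN2 ⊢
  simp only [hgf] at hN
  have hadd : ∀ a b, g (a + b) = g a + g b := by
    intro a b
    rw [hg]
    funext i
    simp only [map_add, Pi.add_apply]
  have hsub : ∀ a b, g (a - b) = g a - g b := by
    intro a b
    rw [hg]
    funext i
    simp only [map_sub, Pi.sub_apply]
  have hmul : ∀ a b, g (a * b) = IsLocalRing.residue O a • g b + IsLocalRing.residue O b • g a := by
    intro a b
    rw [hg]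
    funext i
    simp only [Derivation.leibniz, smul_eq_mul, map_add, map_mul, Pi.add_apply, Pi.smul_apply]
  have hsm : ∀ (r : k) a, g (r • a) = r • g a := by
    intro r a
    rw [hg]
    funext i
    simp only [Derivation.map_smul, Pi.smul_apply]
    rfl
  have hli : ∀ x : IsLocalRing.ResidueField O, ∃ a : O, IsLocalRing.residue O a = x := IsLocalRing.residue_surjective
  choose s hs using hli
  have hwd : ∀ a b : O, IsLocalRing.residue O a = IsLocalRing.residue O b → N.mkQ (g a) = N.mkQ (g b) := by
    intro a b hab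
    rw [← sub_eq_zero, ← map_sub, ← hsub, Submodule.mkQ_apply, Submodule.Quotient.mk_eq_zero]
    refine hN _ ?_
    rw [← IsLocalRing.residue_eq_zero_iff, map_sub, hab, sub_self]
  let δ : Derivation k (IsLocalRing.ResidueField O) ((Fin 3 → IsLocalRing.ResidueField O) ⧸ N) :=
    Derivation.mk'
      { toFun := fun x => N.mkQ (g (s x))
        map_add' := fun x y => by
          rw [← map_add, ← hadd]
          refine hwd _ _ ?_
          rw [map_add, hs, hs, hs]
        map_smul' := fun r x => by
          have h1 : N.mkQ (g (s (r • x))) = N.mkQ (g (r • s x)) := by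
            refine hwd _ _ ?_
            rw [hs]
            have h2 : IsLocalRing.residue O (r • s x) = r • IsLocalRing.residue O (s x) := rfl
            rw [h2, hs]
          rw [h1, hsm]
          rfl }
      (fun x y => by
        change N.mkQ (g (s (x * y))) = x • N.mkQ (g (s y)) + y • N.mkQ (g (s x))
        have h1 : N.mkQ (g (s (x * y))) = N.mkQ (g (s x * s y)) := by
          refine hwd _ _ ?_
          rw [map_mul, hs, hs, hs]
        rw [h1, hmul, hs, hs, map_add, map_smul, map_smul])
  have hδ : δ = 0 := by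
    refine Pool.Agent.H24.TU.derivation_eq_zero hu δ fun i => ?_
    have hi : i = 0 := Subsingleton.elim _ _
    rw [hi]
    change N.mkQ (g (s (u 0))) = 0
    rw [hwd (s (u 0)) cc (by rw [hs, hcc]), Submodule.mkQ_apply, Submodule.Quotient.mk_eq_zero]
    exact hN2
  have h1 : δ (IsLocalRing.residue O f) = 0 := by rw [hδ]; rfl
  change N.mkQ (g (s (IsLocalRing.residue O f))) = 0 at h1
  rwa [hwd _ f (hs _), Submodule.mkQ_apply, Submodule.Quotient.mk_eq_zero] at h1

/-- three functions with independent gradients -/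
private theorem der_grad [CharZero k] [IsLocalRing O] (htr : Algebra.trdeg k (IsLocalRing.ResidueField O) = 1)
    (c : Fin 3 → O) (p : Fin 3 → Derivation k O O) (hp : ∀ i j, p i (c j) = if i = j then 1 else 0) :
    ∃ f : Fin 3 → O, f 1 ∈ IsLocalRing.maximalIdeal O ∧ f 2 ∈ IsLocalRing.maximalIdeal O ∧
      IsUnit (Matrix.det (Matrix.of fun i j => p j (f i))) := by
  classical
  obtain ⟨u, hu⟩ : ∃ u : Fin 1 → IsLocalRing.ResidueField O, IsTranscendenceBasis k u := by
    obtain ⟨u, hu⟩ := Pool.Agent.H20.TU.exists_indep (k := k) (D := IsLocalRing.ResidueField O) 1 (by exact_mod_cast htr.ge)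
    refine ⟨u, hu.isTranscendenceBasis_of_trdeg_le_of_finite ?_⟩
    rw [Cardinal.mk_fin, htr]
    norm_num
  obtain ⟨cc, hcc⟩ := IsLocalRing.residue_surjective (R := O) (u 0)
  obtain ⟨g, hg⟩ : ∃ g : O → (Fin 3 → IsLocalRing.ResidueField O), g = fun f i => IsLocalRing.residue O (p i f) :=
    ⟨_, rfl⟩
  have hgc : ∀ j, g (c j) = Pi.single j 1 := by
    intro j
    rw [hg]
    funext i
    simp only [hp, Pi.single_apply]
    split_ifs with h1
    · exact map_one _
    · exact map_zero _
  have hspan : ∀ N : Submodule (IsLocalRing.ResidueField O) (Fin 3 → IsLocalRing.ResidueField O),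
      (∀ j, g (c j) ∈ N) → N = ⊤ := by
    intro N hN
    rw [eq_top_iff]
    intro v _
    have h1 : v = ∑ j, v j • g (c j) := by
      funext i
      simp only [hgc, Finset.sum_apply, Pi.smul_apply, Pi.single_apply, smul_eq_mul, mul_ite, mul_one, mul_zero,
        Finset.sum_ite_eq, Finset.mem_univ, if_true]
    rw [h1]
    exact Submodule.sum_mem _ fun j _ => Submodule.smul_mem _ _ (hN j)
  set W : Submodule (IsLocalRing.ResidueField O) (Fin 3 → IsLocalRing.ResidueField O) :=
    Submodule.span _ (g '' (IsLocalRing.maximalIdeal O : Set O)) with hW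
  have hV : Module.finrank (IsLocalRing.ResidueField O) (Fin 3 → IsLocalRing.ResidueField O) = 3 := by simp
  have h3 : W ⊔ Submodule.span _ {g cc} = ⊤ := by
    refine hspan _ fun j => ?_
    have h4 := der_mem p hu cc hcc (W ⊔ Submodule.span _ {g cc})
      (fun t ht => Submodule.mem_sup_left (Submodule.subset_span ⟨t, ht, by rw [hg]⟩))
      (by
        refine Submodule.mem_sup_right (Submodule.subset_span ?_)
        rw [hg]
        rfl) (c j)
    have h5 : g (c j) = fun i => IsLocalRing.residue O (p i (c j)) := by rw [hg]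
    rw [h5]
    exact h4
  have hW2 : 2 ≤ Module.finrank (IsLocalRing.ResidueField O) W := by
    have h5 := Submodule.finrank_add_le_finrank_add_finrank W (Submodule.span _ {g cc})
    rw [h3, finrank_top, hV] at h5
    have h6 : Module.finrank (IsLocalRing.ResidueField O)
        (Submodule.span (IsLocalRing.ResidueField O) {g cc}) ≤ 1 := by
      have := finrank_span_le_card (R := IsLocalRing.ResidueField O) ({g cc} : Set (Fin 3 → IsLocalRing.ResidueField O))
      simpa using this
    omega
  obtain ⟨b, hbs, hbspan, hbli⟩ := exists_linearIndependent (IsLocalRing.ResidueField O)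
    (g '' (IsLocalRing.maximalIdeal O : Set O))
  have hbfin : b.Finite := hbli.setFinite
  have hbF : Fintype b := hbfin.fintype
  have hb2 : 1 < b.toFinset.card := by
    have h7 := finrank_span_set_eq_card hbli
    rw [hbspan, ← hW] at h7
    omega
  obtain ⟨v0, hv0, v1, hv1, hne⟩ := Finset.one_lt_card.1 hb2
  rw [Set.mem_toFinset] at hv0 hv1
  obtain ⟨t0, ht0, rfl⟩ := hbs hv0
  obtain ⟨t1, ht1, rfl⟩ := hbs hv1
  have hli2 : LinearIndependent (IsLocalRing.ResidueField O) ![g t0, g t1] := by
    have h8 := hbli.comp ![(⟨g t0, hv0⟩ : b), ⟨g t1, hv1⟩] (by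
      intro i j hij
      fin_cases i <;> fin_cases j
      · rfl
      · exact absurd (congrArg Subtype.val hij) hne
      · exact absurd (congrArg Subtype.val hij).symm hne
      · rfl)
    have h9 : (![g t0, g t1] : Fin 2 → _) = Subtype.val ∘ ![(⟨g t0, hv0⟩ : b), ⟨g t1, hv1⟩] := by
      funext i
      fin_cases i <;> rfl
    rw [h9]
    exact h8
  obtain ⟨j, hj⟩ : ∃ j, g (c j) ∉ Submodule.span (IsLocalRing.ResidueField O) (Set.range ![g t0, g t1]) := by
    by_contra hcon
    push Not at hcon
    have h9 := hspan _ hcon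
    have h10 := finrank_range_le_card (R := IsLocalRing.ResidueField O) ![g t0, g t1]
    rw [Set.finrank, h9, finrank_top, hV] at h10
    simp at h10
  have hli3 : LinearIndependent (IsLocalRing.ResidueField O) (Fin.cons (g (c j)) ![g t0, g t1] : Fin 3 → _) :=
    linearIndependent_finCons.2 ⟨hli2, hj⟩
  refine ⟨![c j, t0, t1], ht0, ht1, ?_⟩
  rw [← IsLocalRing.residue_ne_zero_iff_isUnit, RingHom.map_det]
  have h11 : (IsLocalRing.residue O).mapMatrix (Matrix.of fun i j' => p j' (![c j, t0, t1] i)) =
      Matrix.of (Fin.cons (g (c j)) ![g t0, g t1] : Fin 3 → _) := by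
    ext i l
    rw [hg]
    fin_cases i <;> rfl
  rw [h11]
  have h12 : IsUnit (Matrix.of (Fin.cons (g (c j)) ![g t0, g t1] : Fin 3 → _)) :=
    Matrix.linearIndependent_rows_iff_isUnit.1 hli3
  exact ((Matrix.isUnit_iff_isUnit_det _).1 h12).ne_zero

end aux2

variable {k K : Type} [Field k] [Field K] [Algebra k K] {X : Mod k K} {r : ℕ}
  {ν : Cart X →* Multiplicative (Fin r → ℤ)} {T : Cart X → Cart X → Cart X → ℝ} {l₀ : Cart X → ℝ} {c : ℝ} {TR : Tri3 r}
  {p : Fin r → ℝ} {A : Cart X}

theorem ex_jet [CharZero k] [IsAlgClosed k] (hS : Pool.Agent.H20.TU.SmP X) (h : Hyp X) {y : X.P}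
    (hy : Algebra.trdeg k (X.kap y) = 1) : ∃ (d : Fin 2 → Derivation k K K) (t : Fin 2 → K), Jet X y d t := by
  classical
  have hf : ∀ z : K, ∃ s ∈ X.O y, s ≠ 0 ∧ z * s ∈ X.O y := by
    intro z
    obtain ⟨U, hU, hx⟩ := h.var.chart y
    obtain ⟨s, hs, hs0, hzs⟩ := Pool.Agent.H20.TU.sec_frac h.var h.gen U hU ⟨y, hx⟩ z
    exact ⟨s, Pool.Agent.H20.TU.sec_le U y hx hs, hs0, Pool.Agent.H20.TU.sec_le U y hx hzs⟩
  obtain ⟨c, hc⟩ := hS y
  obtain ⟨p, hp, hpO⟩ := der_dual h.tr hf c hc
  obtain ⟨f, hf1, hf2, hdet⟩ := der_grad (O := X.O y) hy c (fun i => dres (p i) (hpO i)) (fun i j => by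
    apply Subtype.ext
    rw [dres_apply, hp]
    split_ifs <;> rfl)
  obtain ⟨J, hJ⟩ : ∃ J : Matrix (Fin 3) (Fin 3) (X.O y), J = Matrix.of fun i j => dres (p j) (hpO j) (f i) := ⟨_, rfl⟩
  rw [← hJ] at hdet
  have hJa : ∀ i j, ((J i j : X.O y) : K) = p j (f i) := fun i j => by rw [hJ]; rfl
  obtain ⟨B, hB⟩ : ∃ B : Matrix (Fin 3) (Fin 3) (X.O y), B = J⁻¹ := ⟨_, rfl⟩
  have hJB : J * B = 1 := by rw [hB]; exact Matrix.mul_nonsing_inv J hdet
  have hBJ : B * J = 1 := by rw [hB]; exact Matrix.nonsing_inv_mul J hdet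
  have hJBa : ∀ l i, ∑ j, (J l j : K) * (B j i : K) = if l = i then 1 else 0 := by
    intro l i
    have h1 := congrFun (congrFun hJB l) i
    rw [Matrix.mul_apply, Matrix.one_apply] at h1
    have h2 := congrArg (algebraMap (X.O y) K) h1
    rw [map_sum] at h2
    refine Eq.trans ?_ (h2.trans ?_)
    · rfl
    · split_ifs <;> simp
  have hBJa : ∀ l i, ∑ j, (B l j : K) * (J j i : K) = if l = i then 1 else 0 := by
    intro l i
    have h1 := congrFun (congrFun hBJ l) i
    rw [Matrix.mul_apply, Matrix.one_apply] at h1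
    have h2 := congrArg (algebraMap (X.O y) K) h1
    rw [map_sum] at h2
    refine Eq.trans ?_ (h2.trans ?_)
    · rfl
    · split_ifs <;> simp
  obtain ⟨e, he⟩ : ∃ e : Fin 3 → Derivation k K K, e = fun i => ∑ j, (B j i : K) • p j := ⟨_, rfl⟩
  have hea : ∀ i a, e i a = ∑ j, (B j i : K) * p j a := by
    intro i a
    rw [he]
    exact dsum _ _ _
  have hef : ∀ i l, e i (f l : K) = if l = i then 1 else 0 := by
    intro i l
    rw [hea, ← hJBa l i]
    refine Finset.sum_congr rfl fun j _ => ?_
    rw [hJa, mul_comm]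
  have heO : ∀ i, ∀ a ∈ X.O y, e i a ∈ X.O y := by
    intro i a ha
    rw [hea]
    exact sum_mem fun j _ => mul_mem (B j i).2 (hpO j a ha)
  have hcm : ∀ E : Derivation k K K, (∀ l, E (f l : K) = 0) → E = 0 := by
    intro E hE
    have h1 : E - ∑ j, (E (c j : K)) • p j = 0 := by
      refine der_zero hf c hc _ fun i => ?_
      rw [Derivation.sub_apply, sub_eq_zero, dsum]
      simp only [hp, mul_ite, mul_one, mul_zero, Finset.sum_ite_eq', Finset.mem_univ, if_true]
    have h2 : ∀ l, ∑ j, (J l j : K) * E (c j : K) = 0 := by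
      intro l
      have h3 := congrArg (fun D : Derivation k K K => D (f l : K)) h1
      simp only [Derivation.sub_apply, dsum, Derivation.coe_zero, Pi.zero_apply, hE, zero_sub, neg_eq_zero] at h3
      rw [← h3]
      refine Finset.sum_congr rfl fun j _ => ?_
      rw [hJa, mul_comm]
    refine der_zero hf c hc _ fun i => ?_
    have h4 : E (c i : K) = ∑ l, (B i l : K) * ∑ j, (J l j : K) * E (c j : K) := by
      simp only [Finset.mul_sum]
      rw [Finset.sum_comm]
      have h5 : ∀ j, ∑ l, (B i l : K) * ((J l j : K) * E (c j : K)) = (if i = j then 1 else 0) * E (c j : K) := by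
        intro j
        rw [← hBJa i j, Finset.sum_mul]
        exact Finset.sum_congr rfl fun l _ => by ring
      simp only [h5, ite_mul, one_mul, zero_mul, Finset.sum_ite_eq, Finset.mem_univ, if_true]
    rw [h4]
    simp only [h2, mul_zero, Finset.sum_const_zero]
  refine ⟨fun i => e i.succ, fun i => (f i.succ : K), ?_, ?_, ?_, ?_, ?_⟩
  · exact fun i a ha => heO _ a ha
  · intro a
    have h1 : ⁅e (Fin.succ 0), e (Fin.succ 1)⁆ = 0 := by
      refine hcm _ fun l => ?_
      rw [Derivation.commutator_apply, hef, hef]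
      split_ifs <;> simp
    have h2 := congrArg (fun D : Derivation k K K => D a) h1
    simp only [Derivation.commutator_apply, Derivation.coe_zero, Pi.zero_apply] at h2
    exact sub_eq_zero.1 h2
  · exact fun i => (f i.succ).2
  · intro i
    have h1 : f i.succ ∈ IsLocalRing.maximalIdeal (X.O y) := by
      fin_cases i
      · exact hf1
      · exact hf2
    exact (dif_pos (f i.succ).2).trans ((IsLocalRing.residue_eq_zero_iff _).2 h1)
  · intro i j
    rw [hef]
    simp only [Fin.succ_inj, eq_comm]

end Pool.Agent.H89.RS
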