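import Pool.Agent.H89.RS.Wrd

/-!
# [H89 RS LowJ] THEOREM R* (MP_e49dc9_ag): the sections which vanish to order `n` along the curve: lower bound

PROOF.  `A` ample.  There is a multiple `G` of `A` with sections `g 0`, `g 1` such that `g i * G.eq y = t i * v` with `v` a unit at `y` (a section
`s` of a multiple of `A` with `y ∈ nz` affine, `t i = b i / σ` with `b i, σ ∈ sec (nz)`, `σ` a unit at `y`; `g i = b i s ^ m`).  By `wd_ul` and `dual`: for
`a + b = n = i + j`: `rs y (wd a b (t 0 ^ i t 1 ^ j τ)) = a! b! rs y τ` if `(i, j) = (a, b)`, else `0`.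
The map `(τ i)_(i ≤ n) ↦ ∑ g 0 ^ i g 1 ^ (n - i) τ i` from `(secL (N * (G ^ n)⁻¹) 1) ^ (n + 1)` to `secV hJ N n`: it is in `secV hJ N (n + 1)` iff all `τ i`
vanish at `y`, i.e. are in the kernel of `resS` (characteristic `0`).
-/

set_option autoImplicit false

namespace Pool.Agent.H89.RS

open Pool.Agent.H54.RV Pool.Agent.H83.TU Pool.Agent.H83.TK Pool.Agent.H20.TD Pool.Agent.H20.TP Pool.Agent.H20.RT
open Pool.Agent.H24.VP (RR)

variable {k K : Type} [Field k] [Field K] [Algebra k K] {X : Mod k K} {r : ℕ}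
  {ν : Cart X →* Multiplicative (Fin r → ℤ)} {T : Cart X → Cart X → Cart X → ℝ} {l₀ : Cart X → ℝ} {c : ℝ} {TR : Tri3 r}
  {p : Fin r → ℝ} {A : Cart X}

private theorem lj_iter (δ : Derivation k K K) {c t : K} (hc : δ c = 0) (ht : δ t = 1) (j b : ℕ) :
    (⇑δ)^[b] (c * t ^ j) = j.descFactorial b • (c * t ^ (j - b)) := by
  induction b with
  | zero => simp
  | succ b ih =>
    rw [Function.iterate_succ_apply', ih, map_nsmul, Derivation.leibniz, hc, smul_zero, add_zero, Derivation.leibniz_pow,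
      ht, Nat.descFactorial_succ, smul_eq_mul, smul_eq_mul, mul_one, mul_comm (j - b), mul_smul, nsmul_eq_mul (j - b),
      nsmul_eq_mul (j - b), Nat.sub_sub]
    congr 1
    ring

private theorem lj_wd {y : X.P} {d : Fin 2 → Derivation k K K} {t : Fin 2 → K} (hJ : Jet X y d t) (a b i j : ℕ) :
    wd d a b (t 0 ^ i * t 1 ^ j) = (i.descFactorial a * j.descFactorial b) • (t 0 ^ (i - a) * t 1 ^ (j - b)) := by
  have h00 : d 0 (t 0) = 1 := by rw [hJ.dual]; rfl
  have h01 : d 0 (t 1) = 0 := by rw [hJ.dual]; rfl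
  have h10 : d 1 (t 0) = 0 := by rw [hJ.dual]; rfl
  have h11 : d 1 (t 1) = 1 := by rw [hJ.dual]; rfl
  have e1 : d 1 (t 0 ^ i) = 0 := by
    rw [Derivation.leibniz_pow, h10, smul_zero, smul_zero]
  have e2 : d 0 (j.descFactorial b • t 1 ^ (j - b)) = 0 := by
    rw [map_nsmul, Derivation.leibniz_pow, h01, smul_zero, smul_zero, smul_zero]
  unfold wd
  rw [lj_iter (d 1) e1 h11, ← mul_smul_comm, mul_comm (t 0 ^ i), lj_iter (d 0) e2 h00, smul_mul_assoc, ← mul_smul,
    mul_comm (t 1 ^ (j - b))]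

private theorem lj_rs {y : X.P} {d : Fin 2 → Derivation k K K} {t : Fin 2 → K} (hJ : Jet X y d t) {a b i j : ℕ}
    (hij : i + j = a + b) :
    X.rs y (wd d a b (t 0 ^ i * t 1 ^ j)) = if i = a then ((a.factorial * b.factorial : ℕ) : X.kap y) else 0 := by
  rw [lj_wd hJ]
  split_ifs with h
  · subst h
    obtain rfl : j = b := by omega
    rw [Nat.sub_self, Nat.sub_self, pow_zero, pow_zero, mul_one, Nat.descFactorial_self, Nat.descFactorial_self,
      nsmul_eq_mul, mul_one]
    have h1 := rs_alg (X := X) y ((i.factorial * j.factorial : ℕ) : k)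
    rw [map_natCast, map_natCast] at h1
    exact h1
  · rcases lt_or_gt_of_ne h with h1 | h1
    · rw [Nat.descFactorial_of_lt h1, zero_mul, zero_smul, rs_zero]
    · rw [Nat.descFactorial_of_lt (show j < b by omega), mul_zero, zero_smul, rs_zero]

private theorem lj_zero (y : X.P) (d : Fin 2 → Derivation k K K) {f : K} (hf : f ∈ X.O y) : Vn X y d 0 f :=
  ⟨hf, fun _ _ hab => absurd hab (Nat.not_lt_zero _)⟩

private theorem lj_pow {y : X.P} {d : Fin 2 → Derivation k K K} {t : Fin 2 → K} (hJ : Jet X y d t) (i : Fin 2) (n : ℕ) :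
    Vn X y d n (t i ^ n) := by
  induction n with
  | zero =>
    rw [pow_zero]
    exact lj_zero y d (one_mem _)
  | succ n ih =>
    rw [pow_succ]
    refine vn_mul hJ ih ⟨hJ.mem i, fun a b hab => ?_⟩
    obtain rfl : a = 0 := by omega
    obtain rfl : b = 0 := by omega
    exact hJ.zero i

private theorem lj_vn {y : X.P} {d : Fin 2 → Derivation k K K} {t : Fin 2 → K} (hJ : Jet X y d t) {i j n : ℕ}
    (hij : i + j = n) : Vn X y d n (t 0 ^ i * t 1 ^ j) := by
  subst hij
  exact vn_mul hJ (lj_pow hJ 0 i) (lj_pow hJ 1 j)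

private theorem lj_wdz (d : Fin 2 → Derivation k K K) (a b : ℕ) : wd d a b 0 = 0 := by
  have h1 := wd_smul d a b (0 : k) (0 : K)
  rwa [zero_smul, zero_smul] at h1

private theorem lj_sum {y : X.P} {d : Fin 2 → Derivation k K K} {t : Fin 2 → K} (hJ : Jet X y d t) {ι : Type}
    (I : Finset ι) (f : ι → K) (hf : ∀ i ∈ I, f i ∈ X.O y) (a b : ℕ) :
    X.rs y (wd d a b (∑ i ∈ I, f i)) = ∑ i ∈ I, X.rs y (wd d a b (f i)) := by
  classical
  induction I using Finset.induction_on with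
  | empty => rw [Finset.sum_empty, Finset.sum_empty, lj_wdz, rs_zero]
  | insert i I hi ih =>
    have h1 : ∀ i ∈ I, f i ∈ X.O y := fun i hi => hf i (Finset.mem_insert_of_mem hi)
    rw [Finset.sum_insert hi, Finset.sum_insert hi, wd_add, rs_add y (wd_mem hJ a b (hf i (Finset.mem_insert_self _ _)))
      (wd_mem hJ a b (sum_mem h1)), ih h1]

/-- sections with the given leading terms -/
private theorem lj_sec (h : Hyp X) {y : X.P} {t : Fin 2 → K} (ht : ∀ i, t i ∈ X.O y) :
    ∃ (G : Cart X) (g : Fin 2 → K) (v : K), (∀ i, Sec G 1 (g i)) ∧ Un (X.O y) v ∧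
      ∀ i, g i * G.eq y = t i * v := by
  have hX := h.var
  obtain ⟨A, hA⟩ := h.amp
  obtain ⟨n, hn, s, hs, hy, haff⟩ := hA y
  choose σ h1 h2 h3 using fun i => hX.frac (nz A n s) y haff hy (t i) (ht i)
  have hb : ∀ i, t i * (σ 0 * σ 1) ∈ X.sec (nz A n s) := by
    intro i
    fin_cases i
    · have : t 0 * (σ 0 * σ 1) = t 0 * σ 0 * σ 1 := by ring
      change t 0 * (σ 0 * σ 1) ∈ _
      rw [this]
      exact mul_mem (h3 0) (h1 1)
    · have : t 1 * (σ 0 * σ 1) = t 1 * σ 1 * σ 0 := by ring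
      change t 1 * (σ 0 * σ 1) ∈ _
      rw [this]
      exact mul_mem (h3 1) (h1 0)
  have hN : ∀ i, ∃ N : ℕ, ∀ j ≥ N, ∀ x, s ^ j * (t i * (σ 0 * σ 1)) * ((A.eq x ^ n) ^ j * (1 : Cart X).eq x) ∈ X.O x :=
    fun i => ext_sec hX A 1 n s _ hs fun x hx => by
      rw [one_eq, mul_one]
      exact (mem_sec _ _).1 (hb i) x hx
  choose N hN using hN
  refine ⟨A ^ (n * max (N 0) (N 1)), fun i => s ^ max (N 0) (N 1) * (t i * (σ 0 * σ 1)),
    σ 0 * σ 1 * (s * A.eq y ^ n) ^ max (N 0) (N 1), fun i x => ?_,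
    un_mul (un_mul (h2 0) (h2 1)) (un_pow hy _), fun i => ?_⟩
  · have hle : N i ≤ max (N 0) (N 1) := by
      fin_cases i
      · exact le_max_left _ _
      · exact le_max_right _ _
    have h4 := hN i _ hle x
    rw [one_eq, mul_one] at h4
    rw [pow_one, pow_eq, pow_mul]
    exact h4
  · rw [pow_eq, pow_mul, mul_pow]
    ring

/-- a complement of the kernel of the restriction -/
private theorem lj_compl (hX : IsVar X) (y : X.P) (M : Cart X) [Module.Finite k (secL M 1)] :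
    ∃ C : Submodule k K, Module.finrank k C = Module.finrank k (LinearMap.range (resS hX y M 1)) ∧ C ≤ secL M 1 ∧
      ∀ τ ∈ C, X.rs y (τ * M.eq y) = 0 → τ = 0 := by
  obtain ⟨C, hC⟩ := Submodule.exists_isCompl (LinearMap.ker (resS hX y M 1))
  have hdim : Module.finrank k C = Module.finrank k (LinearMap.range (resS hX y M 1)) := by
    have h1 := LinearMap.finrank_range_add_finrank_ker (resS hX y M 1)
    have h2 := Submodule.finrank_add_eq_of_isCompl hC
    omega
  refine ⟨C.map (secL M 1).subtype, ?_, ?_, ?_⟩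
  · rw [← hdim]
    exact (Submodule.equivMapOfInjective _ (Submodule.injective_subtype _) C).finrank_eq.symm
  · exact Submodule.map_subtype_le _ _
  · rintro τ hτ h0
    obtain ⟨c, hc, rfl⟩ := hτ
    have h8 : resS hX y M 1 c = 0 := by
      apply Subtype.ext
      rw [resS_coe, pow_one]
      exact h0
    have h9 : c ∈ LinearMap.ker (resS hX y M 1) ⊓ C := ⟨LinearMap.mem_ker.2 h8, hc⟩
    rw [hC.inf_eq_bot, Submodule.mem_bot] at h9
    rw [h9, map_zero]

theorem lowj [CharZero k] (h : Hyp X) {y : X.P} {d : Fin 2 → Derivation k K K} {t : Fin 2 → K} (hJ : Jet X y d t) :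
    ∃ G : Cart X, ∀ (N : Cart X) (n : ℕ),
      Module.finrank k (secV hJ N (n + 1)) + (n + 1) * Module.finrank k (LinearMap.range (resS h.var y (N * (G ^ n)⁻¹) 1)) ≤
        Module.finrank k (secV hJ N n) := by
  obtain ⟨G, g, v, hg, hv, hgv⟩ := lj_sec h hJ.mem
  refine ⟨G, fun N n => ?_⟩
  obtain ⟨M, hM⟩ : ∃ M : Cart X, M = N * (G ^ n)⁻¹ := ⟨_, rfl⟩
  rw [← hM]
  have hNM : ∀ x, N.eq x = M.eq x * G.eq x ^ n := by
    intro x
    rw [hM, mul_eq, inv_eq, pow_eq, inv_mul_cancel_right₀ (pow_ne_zero n (G.ne x))]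
  have hfin : ∀ D : Cart X, Module.Finite k (secL D 1) := fun D =>
    (Pool.Agent.H20.TU.gf h.var h.gen h.tr).1 D 1
  have hfV : ∀ m, Module.Finite k (secV hJ N m) := by
    intro m
    have := hfin N
    have hle : secV hJ N m ≤ secL N 1 := fun s hs => hs.1
    exact Submodule.finiteDimensional_of_le hle
  have hf1 := hfV n
  have hf2 := hfV (n + 1)
  have hf3 := hfin M
  obtain ⟨C, hdim, hCM, hC0⟩ := lj_compl h.var y M
  rw [← hdim]
  have hf4 : Module.Finite k C := Submodule.finiteDimensional_of_le hCM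
  -- the terms
  have hterm : ∀ (i : Fin (n + 1)) (τ : C) (x : X.P), g 0 ^ (i : ℕ) * g 1 ^ (n - i) * τ.1 * N.eq x =
      (g 0 * G.eq x) ^ (i : ℕ) * (g 1 * G.eq x) ^ (n - i) * (τ.1 * M.eq x) := by
    intro i τ x
    have hi : (i : ℕ) + (n - i) = n := by
      have := i.2
      omega
    rw [hNM, mul_pow, mul_pow]
    conv_lhs => rw [show G.eq x ^ n = G.eq x ^ (i : ℕ) * G.eq x ^ (n - i) by rw [← pow_add, hi]]
    ring
  have htermy : ∀ (i : Fin (n + 1)) (τ : C), g 0 ^ (i : ℕ) * g 1 ^ (n - i) * τ.1 * N.eq y =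
      v ^ n * (τ.1 * M.eq y) * (t 0 ^ (i : ℕ) * t 1 ^ (n - i)) := by
    intro i τ
    have hi : (i : ℕ) + (n - i) = n := by
      have := i.2
      omega
    rw [hterm, hgv, hgv, mul_pow, mul_pow]
    conv_rhs => rw [show v ^ n = v ^ (i : ℕ) * v ^ (n - i) by rw [← pow_add, hi]]
    ring
  have hτ : ∀ (τ : C) (x : X.P), τ.1 * M.eq x ∈ X.O x := by
    intro τ x
    have h1 := hCM τ.2 x
    rwa [pow_one] at h1
  have hgO : ∀ i x, g i * G.eq x ∈ X.O x := by
    intro i x
    have h1 := hg i x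
    rwa [pow_one] at h1
  have htermO : ∀ (i : Fin (n + 1)) (τ : C) (x : X.P), g 0 ^ (i : ℕ) * g 1 ^ (n - i) * τ.1 * N.eq x ∈ X.O x := by
    intro i τ x
    rw [hterm]
    exact mul_mem (mul_mem (pow_mem (hgO 0 x) _) (pow_mem (hgO 1 x) _)) (hτ τ x)
  have htermV : ∀ (i : Fin (n + 1)) (τ : C), g 0 ^ (i : ℕ) * g 1 ^ (n - i) * τ.1 ∈ secV hJ N n := by
    intro i τ
    have hi : (i : ℕ) + (n - i) = n := by
      have := i.2
      omega
    rw [mem_secV]
    refine ⟨fun x => ?_, ?_⟩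
    · rw [pow_one]
      exact htermO i τ x
    · rw [htermy]
      have h1 := vn_mul hJ (lj_zero y d (mul_mem (pow_mem hv.2.1 n) (hτ τ y))) (lj_vn hJ hi)
      rwa [zero_add] at h1
  obtain ⟨f, hf⟩ : ∃ f : (secV hJ N (n + 1)) × (Fin (n + 1) → C) →ₗ[k] K,
      ∀ c, f c = c.1.1 + ∑ i : Fin (n + 1), g 0 ^ (i : ℕ) * g 1 ^ (n - i) * (c.2 i).1 := by
    refine ⟨(secV hJ N (n + 1)).subtype ∘ₗ LinearMap.fst k _ _ +
      (∑ i : Fin (n + 1), (LinearMap.mulLeft k (g 0 ^ (i : ℕ) * g 1 ^ (n - i))) ∘ₗ C.subtype ∘ₗ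
        (LinearMap.proj i)) ∘ₗ LinearMap.snd k _ _, fun c => ?_⟩
    rw [LinearMap.add_apply, LinearMap.comp_apply, LinearMap.comp_apply, LinearMap.sum_apply]
    rfl
  have hfm : ∀ c, f c ∈ secV hJ N n := by
    intro c
    rw [hf]
    refine add_mem ?_ (sum_mem fun i _ => htermV i _)
    have h1 := (mem_secV hJ N (n + 1) _).1 c.1.2
    exact (mem_secV hJ N n _).2 ⟨h1.1, h1.2.1, fun a b hab => h1.2.2 a b (by omega)⟩
  have hinj : Function.Injective (f.codRestrict (secV hJ N n) hfm) := by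
    rw [← LinearMap.ker_eq_bot, LinearMap.ker_eq_bot']
    intro c hc
    have hc0 : c.1.1 + ∑ i : Fin (n + 1), g 0 ^ (i : ℕ) * g 1 ^ (n - i) * (c.2 i).1 = 0 := by
      rw [← hf]
      exact congrArg Subtype.val hc
    have hv1 := ((mem_secV hJ N (n + 1) _).1 c.1.2).2
    have hcz : CharZero (X.kap y) := charZero_of_injective_algebraMap (algebraMap k (X.kap y)).injective
    have key : ∀ i : Fin (n + 1), c.2 i = 0 := by
      intro a
      have ha : (a : ℕ) + (n - a) = n := by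
        have := a.2
        omega
      have h1 : X.rs y (wd d a (n - a) (∑ i : Fin (n + 1), g 0 ^ (i : ℕ) * g 1 ^ (n - i) * (c.2 i).1 * N.eq y)) = 0 := by
        have h2 : ∑ i : Fin (n + 1), g 0 ^ (i : ℕ) * g 1 ^ (n - i) * (c.2 i).1 * N.eq y =
            (-1 : k) • (c.1.1 * N.eq y) := by
          rw [← Finset.sum_mul, neg_smul, one_smul, ← neg_mul, eq_neg_of_add_eq_zero_right hc0]
        rw [h2, wd_smul, Algebra.smul_def, rs_mul y ((X.O y).algebraMap_mem _) (wd_mem hJ _ _ hv1.1),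
          hv1.2 _ _ (by omega), mul_zero]
      rw [lj_sum hJ _ _ (fun i _ => htermO i _ y)] at h1
      have h3 : ∀ i : Fin (n + 1), X.rs y (wd d a (n - a) (g 0 ^ (i : ℕ) * g 1 ^ (n - i) * (c.2 i).1 * N.eq y)) =
          if i = a then X.rs y (v ^ n * ((c.2 a).1 * M.eq y)) *
            (((a : ℕ).factorial * (n - a).factorial : ℕ) : X.kap y) else 0 := by
        intro i
        have hi : (i : ℕ) + (n - i) = a + (n - a) := by
          have := i.2
          omega
        have hi2 : (i : ℕ) + (n - i) = n := by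
          have := i.2
          omega
        rw [htermy, wd_ul hJ (f := t 0 ^ (i : ℕ) * t 1 ^ (n - i)) (by rw [ha]; exact lj_vn hJ hi2)
          (mul_mem (pow_mem hv.2.1 n) (hτ _ y)), lj_rs hJ hi]
        by_cases hia : i = a
        · subst hia
          rw [if_pos rfl, if_pos rfl]
        · rw [if_neg (fun h => hia (Fin.ext h)), if_neg hia, mul_zero]
      rw [Finset.sum_congr rfl fun i _ => h3 i, Finset.sum_ite_eq', if_pos (Finset.mem_univ _)] at h1
      have h4 : (((a : ℕ).factorial * (n - a).factorial : ℕ) : X.kap y) ≠ 0 := by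
        rw [Nat.cast_ne_zero]
        positivity
      have h5 := (mul_eq_zero.1 h1).resolve_right h4
      rw [rs_mul y (pow_mem hv.2.1 n) (hτ _ y), rs_pow y hv.2.1] at h5
      have h6 := (mul_eq_zero.1 h5).resolve_left (pow_ne_zero n ((rs_ne y hv.2.1).2 hv))
      exact Subtype.ext (hC0 _ (c.2 a).2 h6)
    have h2 : c.2 = 0 := funext key
    have h3 : c.1 = 0 := by
      apply Subtype.ext
      rw [Finset.sum_eq_zero (fun i _ => by rw [key i]; exact mul_zero _), add_zero] at hc0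
      exact hc0
    exact Prod.ext h3 h2
  have h1 := LinearMap.finrank_le_finrank_of_injective hinj
  rw [Module.finrank_prod, Module.finrank_pi_fintype, Finset.sum_const, Finset.card_univ, Fintype.card_fin,
    smul_eq_mul] at h1
  exact h1

end Pool.Agent.H89.RS
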