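import Pool.Agent.H89.RS.Def

/-!
# [H89 RS Ufd] THEOREM R* (MP_e49dc9_ag): sections divisible by two divisors without common component

PROOF.  At `x`: `a = s * N.eq x ∈ X.O x` is divisible by `R.eq x` and by `R'.eq x` in the factorial ring `X.O x`.  They are coprime: a common prime
factor `π` gives a prime divisor `P` (the localization at `π` is a discrete valuation ring; see the construction of the prime divisors in
H24/VP/PosB, `fac_eff`, or H83/TU) with `P.η ⤳ x` where both are not units.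
-/

set_option autoImplicit false

namespace Pool.Agent.H89.RS

open Pool.Agent.H54.RV Pool.Agent.H83.TU Pool.Agent.H83.TK Pool.Agent.H20.TD Pool.Agent.H20.TP Pool.Agent.H20.RT
open Pool.Agent.H24.VP (RR)

variable {k K : Type} [Field k] [Field K] [Algebra k K] {X : Mod k K} {r : ℕ}
  {ν : Cart X →* Multiplicative (Fin r → ℤ)} {T : Cart X → Cart X → Cart X → ℝ} {l₀ : Cart X → ℝ} {c : ℝ} {TR : Tri3 r}
  {p : Fin r → ℝ} {A : Cart X}

private theorem ord_zero_of_un {P : PDiv X} {a : K} (h : Un (X.O P.η) a) : P.p.ord a = 0 :=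
  (Pool.Agent.H54.RV.ord_eq_zero P.p a h.1).2 ⟨(P.mem _).1 h.2.1, (P.mem _).1 h.2.2⟩

private theorem no_prime (h : Hyp X) {R R' : Cart X} (hc : Cop R R') (x : X.P) (hR : R.eq x ∈ X.O x)
    (hR' : R'.eq x ∈ X.O x) {d : X.O x} (h1 : d ∣ ⟨R.eq x, hR⟩) (h2 : d ∣ ⟨R'.eq x, hR'⟩) : ¬ Prime d := by
  intro hp
  obtain ⟨P, hPx, -, hP⟩ := Pool.Agent.H83.TU.pdiv_of_prime h x d.1 d.2 hp
  have hd0 : (d : K) ≠ 0 := fun h0 => hp.ne_zero (Subtype.ext h0)
  have key : ∀ (S : Cart X) (hS : S.eq x ∈ X.O x), d ∣ ⟨S.eq x, hS⟩ → 0 < P.p.ord (S.eq P.η) := by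
    rintro S hS ⟨e, he⟩
    have h3 : S.eq x = (d : K) * (e : K) := congrArg Subtype.val he
    have h4 : S.eq x / (d : K) ∈ X.O x := by
      rw [h3, mul_div_cancel_left₀ _ hd0]
      exact e.2
    have h5 : 0 < P.p.ord (S.eq x) := (hP (S.eq x) hS (S.ne x)).2 h4
    rwa [Pool.Agent.H83.TU.ord_eq_pt P S x hPx] at h5
  have k1 := key R hR h1
  have k2 := key R' hR' h2
  rcases hc P with h3 | h3
  · rw [ord_zero_of_un h3] at k1
    exact lt_irrefl _ k1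
  · rw [ord_zero_of_un h3] at k2
    exact lt_irrefl _ k2

theorem cop_inf [CharZero k] (h : Hyp X) {R R' : Cart X} (hR : Effective R) (hR' : Effective R') (hc : Cop R R')
    (N : Cart X) {s : K} (h1 : Sec (N * R⁻¹) 1 s) (h2 : Sec (N * R'⁻¹) 1 s) : Sec (N * R⁻¹ * R'⁻¹) 1 s := by
  intro x
  have hufd := h.ufd x
  have u1 := h1 x
  have u2 := h2 x
  rw [pow_one, Pool.Agent.H54.RV.mul_eq, Pool.Agent.H54.RV.inv_eq] at u1 u2
  rw [pow_one, Pool.Agent.H54.RV.mul_eq, Pool.Agent.H54.RV.mul_eq, Pool.Agent.H54.RV.inv_eq, Pool.Agent.H54.RV.inv_eq]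
  have hR0 := R.ne x
  have hR0' := R'.ne x
  have ne : (⟨R.eq x, hR x⟩ : X.O x) ≠ 0 := fun h0 => hR0 (congrArg Subtype.val h0)
  have hdvd : (⟨R.eq x, hR x⟩ : X.O x) ∣
      ⟨s * (N.eq x * (R'.eq x)⁻¹), u2⟩ * ⟨R'.eq x, hR' x⟩ := by
    refine ⟨⟨s * (N.eq x * (R.eq x)⁻¹), u1⟩, Subtype.ext ?_⟩
    change s * (N.eq x * (R'.eq x)⁻¹) * R'.eq x = R.eq x * (s * (N.eq x * (R.eq x)⁻¹))
    field_simp
  obtain ⟨w, hw⟩ := UniqueFactorizationMonoid.dvd_of_dvd_mul_left_of_no_prime_factors ne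
    (fun d hd1 hd2 => no_prime h hc x (hR x) (hR' x) hd1 hd2) hdvd
  have h3 : s * (N.eq x * (R'.eq x)⁻¹) = R.eq x * (w : K) := congrArg Subtype.val hw
  have h4 : s * (N.eq x * (R.eq x)⁻¹ * (R'.eq x)⁻¹) = (w : K) := by
    have h5 : s * (N.eq x * (R.eq x)⁻¹ * (R'.eq x)⁻¹) = (R.eq x)⁻¹ * (s * (N.eq x * (R'.eq x)⁻¹)) := by
      ring
    rw [h5, h3, inv_mul_cancel_left₀ hR0]
  rw [h4]
  exact w.2

end Pool.Agent.H89.RS
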