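import Pool.Agent.H89.RS.UpJ
import Pool.Agent.H89.RS.LowJ
import Pool.Agent.H89.RS.Ufd
import Pool.Agent.H89.RS.Der
import Pool.Agent.H89.RS.Bnd

/-!
# [H89 RS Cnt] THEOREM R* (MP_e49dc9_ag): the local intersection inequality along a curve

PROOF.  `N = U ^ m`, `m → ∞`, `n = μ + μ'`.  By the Hilbert polynomials (`hr.ev`)
`h0 N - h0 (N R⁻¹) - h0 (N R'⁻¹) + h0 (N R⁻¹ R'⁻¹) = T N R R' + const = m T U R R' + const` for `m` large.  `secL (N R⁻¹) 1 ⊓ secL (N R'⁻¹) 1 =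
secL (N R⁻¹ R'⁻¹) 1` (`cop_inf`), so this is the codimension of `secL (N R⁻¹) 1 ⊔ secL (N R'⁻¹) 1` in `secL N 1`, at least
`dim secL N / secV N n - dim secL (N R⁻¹) / secV (N R⁻¹) μ' - dim secL (N R'⁻¹) / secV (N R'⁻¹) μ`, since `secV (N R⁻¹) μ' ≤ secV N n` (`vn_mul`).
`lowj` (the restriction of sections of `N * (G ^ j)⁻¹` to the curve is onto for `m` large, `j < n`: ser_ample; `hz_cur`): the first is
`≥ ∑_(j < n) (j + 1) (m dz U) - const`; `upj` and `hz_cur`: the second is `≤ ∑_(j < μ') (j + 1) m dz U + const`, the third `≤ ∑_(j < μ) (j + 1) m dz U + const`.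
`n (n + 1) / 2 - μ (μ + 1) / 2 - μ' (μ' + 1) / 2 = μ μ'`.  Divide by `m → ∞`.
-/

set_option autoImplicit false

namespace Pool.Agent.H89.RS

open Pool.Agent.H54.RV Pool.Agent.H83.TU Pool.Agent.H83.TK Pool.Agent.H20.TD Pool.Agent.H20.TP Pool.Agent.H20.RT
open Pool.Agent.H24.VP (RR)

variable {k K : Type} [Field k] [Field K] [Algebra k K] {X : Mod k K} {r : ℕ}
  {ν : Cart X →* Multiplicative (Fin r → ℤ)} {T : Cart X → Cart X → Cart X → ℝ} {l₀ : Cart X → ℝ} {c : ℝ} {TR : Tri3 r}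
  {p : Fin r → ℝ} {A : Cart X}

private theorem secV_zero {y : X.P} {d : Fin 2 → Derivation k K K} {t : Fin 2 → K} (hJ : Jet X y d t) (N : Cart X) :
    secV hJ N 0 = secL N 1 := by
  ext s
  rw [mem_secV, mem_secL]
  constructor
  · exact fun h => h.1
  · intro h
    refine ⟨h, ?_, fun a b hab => absurd hab (Nat.not_lt_zero _)⟩
    have h1 := h y
    rwa [pow_one] at h1

private theorem up_sum [CharZero k] (h : Hyp X) {y : X.P} (hy : Algebra.trdeg k (X.kap y) = 1)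
    {d : Fin 2 → Derivation k K K} {t : Fin 2 → K} (hJ : Jet X y d t) {E : Cart X} (hE : Bd y d E) (N : Cart X)
    (n : ℕ) : Module.finrank k (secL N 1) ≤ Module.finrank k (secV hJ N n) +
      ∑ j ∈ Finset.range n, (j + 1) * hz h.var y (N * E ^ j) := by
  induction n with
  | zero => rw [Finset.sum_range_zero, add_zero, secV_zero]
  | succ n ih =>
    have h1 := upj h hy hJ hE N n
    rw [Finset.sum_range_succ]
    linarith

private theorem low_sum (h : Hyp X) {y : X.P} {d : Fin 2 → Derivation k K K} {t : Fin 2 → K} (hJ : Jet X y d t)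
    {G : Cart X} (hG : ∀ (N : Cart X) (n : ℕ), Module.finrank k (secV hJ N (n + 1)) +
      (n + 1) * Module.finrank k (LinearMap.range (resS h.var y (N * (G ^ n)⁻¹) 1)) ≤
        Module.finrank k (secV hJ N n)) (N : Cart X) (n : ℕ) :
    Module.finrank k (secV hJ N n) +
      ∑ j ∈ Finset.range n, (j + 1) * Module.finrank k (LinearMap.range (resS h.var y (N * (G ^ j)⁻¹) 1)) ≤
        Module.finrank k (secL N 1) := by
  induction n with
  | zero => rw [Finset.sum_range_zero, add_zero, secV_zero]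
  | succ n ih =>
    have h1 := hG N n
    rw [Finset.sum_range_succ]
    linarith

private theorem sum_ev {f : ℕ → ℕ → ℝ} {D : ℝ} {e : ℕ → ℝ} (hf : ∀ j, ∃ m₀ : ℕ, ∀ m ≥ m₀, f j m = m * D + e j)
    (n : ℕ) : ∃ (m₀ : ℕ) (C : ℝ), ∀ m ≥ m₀, ∑ j ∈ Finset.range n, ((j : ℝ) + 1) * f j m =
      m * D * (n * (n + 1) / 2) + C := by
  induction n with
  | zero => exact ⟨0, 0, fun m _ => by simp⟩
  | succ n ih =>
    obtain ⟨m1, C, h1⟩ := ih
    obtain ⟨m2, h2⟩ := hf n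
    refine ⟨m1 + m2, C + (n + 1) * e n, fun m hm => ?_⟩
    rw [Finset.sum_range_succ, h1 m (by omega), h2 m (by omega)]
    push_cast
    ring

/-- sections of `N * R⁻¹` as sections of `N` -/
private theorem sec_of {N R : Cart X} (hR : Effective R) {s : K} (hs : Sec (N * R⁻¹) 1 s) : Sec N 1 s := by
  intro x
  have h1 := mul_mem (hs x) (hR x)
  rw [pow_one, mul_eq, inv_eq] at h1
  rw [pow_one]
  have h2 := R.ne x
  have h3 : s * (N.eq x * (R.eq x)⁻¹) * R.eq x = s * N.eq x := by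
    field_simp
  rwa [h3] at h1

private theorem secV_of {y : X.P} {d : Fin 2 → Derivation k K K} {t : Fin 2 → K} (hJ : Jet X y d t) {N R : Cart X}
    (hR : Effective R) {μ μ' : ℕ} (hv : Vn X y d μ (R.eq y)) : secV hJ (N * R⁻¹) μ' ≤ secV hJ N (μ' + μ) := by
  intro s hs
  rw [mem_secV] at hs ⊢
  refine ⟨sec_of hR hs.1, ?_⟩
  have h1 := vn_mul hJ hs.2 hv
  rw [mul_eq, inv_eq] at h1
  have h2 := R.ne y
  have h3 : s * (N.eq y * (R.eq y)⁻¹) * R.eq y = s * N.eq y := by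
    field_simp
  rwa [h3] at h1

private theorem secV_le {y : X.P} {d : Fin 2 → Derivation k K K} {t : Fin 2 → K} (hJ : Jet X y d t) (N : Cart X)
    (n : ℕ) : secV hJ N n ≤ secL N 1 := fun _ hs => hs.1

/-- the count for one `N` -/
private theorem dims [CharZero k] (h : Hyp X) {y : X.P} {d : Fin 2 → Derivation k K K} {t : Fin 2 → K}
    (hJ : Jet X y d t) {R R' : Cart X} (hR : Effective R) (hR' : Effective R') (hc : Cop R R') {μ μ' : ℕ}
    (hv : Vn X y d μ (R.eq y)) (hv' : Vn X y d μ' (R'.eq y)) (N : Cart X) :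
    Module.finrank k (secV hJ (N * R⁻¹) μ') + Module.finrank k (secV hJ (N * R'⁻¹) μ) ≤
      Module.finrank k (secV hJ N (μ + μ')) + h0 (N * R⁻¹ * R'⁻¹) 1 := by
  obtain ⟨A, hA⟩ := h.amp
  have f1 : FiniteDimensional k (secL N 1) := Pool.Agent.H24.TK.fd h.var h.gen hA N
  have f2 : FiniteDimensional k (secL (N * R⁻¹ * R'⁻¹) 1) := Pool.Agent.H24.TK.fd h.var h.gen hA _
  have f3 : FiniteDimensional k (secV hJ N (μ + μ')) := Submodule.finiteDimensional_of_le (secV_le hJ N _)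
  have b1 : secV hJ (N * R⁻¹) μ' ≤ secV hJ N (μ + μ') := by
    have := secV_of hJ (N := N) (μ' := μ') hR hv
    rwa [add_comm μ' μ] at this
  have b2 : secV hJ (N * R'⁻¹) μ ≤ secV hJ N (μ + μ') := secV_of hJ (N := N) (μ' := μ) hR' hv'
  have f4 : FiniteDimensional k (secV hJ (N * R⁻¹) μ') := Submodule.finiteDimensional_of_le b1
  have f5 : FiniteDimensional k (secV hJ (N * R'⁻¹) μ) := Submodule.finiteDimensional_of_le b2
  have b3 : secV hJ (N * R⁻¹) μ' ⊓ secV hJ (N * R'⁻¹) μ ≤ secL (N * R⁻¹ * R'⁻¹) 1 := by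
    intro s hs
    exact cop_inf h hR hR' hc N hs.1.1 hs.2.1
  rw [← Submodule.finrank_sup_add_finrank_inf_eq]
  exact add_le_add (Submodule.finrank_mono (sup_le b1 b2)) (Submodule.finrank_mono b3)

/-- the Hilbert polynomials -/
private theorem chi4 (hr : RR T l₀ c) (U R R' : Cart X) (m : ℕ) :
    Pool.Agent.H24.VP.chi T l₀ c (1 * U ^ m) - Pool.Agent.H24.VP.chi T l₀ c (R⁻¹ * U ^ m) -
      Pool.Agent.H24.VP.chi T l₀ c (R'⁻¹ * U ^ m) + Pool.Agent.H24.VP.chi T l₀ c (R⁻¹ * R'⁻¹ * U ^ m) =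
      m * T U R R' - (T R' R' R + T R' R R) / 2 := by
  have h1 := hr.chi_sub R (U ^ m)
  have h2 := hr.chi_sub R (U ^ m * R'⁻¹)
  have h3 := hr.chS_sub R (U ^ m) R'
  have e1 : R⁻¹ * U ^ m = U ^ m * R⁻¹ := mul_comm _ _
  have e2 : R'⁻¹ * U ^ m = U ^ m * R'⁻¹ := mul_comm _ _
  have e3 : R⁻¹ * R'⁻¹ * U ^ m = U ^ m * R'⁻¹ * R⁻¹ := by
    rw [mul_comm R⁻¹ R'⁻¹, mul_right_comm, e2]
  have e4 : T (U ^ m) R' R = m * T U R R' := by
    rw [hr.tri.pow, hr.tri.s23]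
  rw [one_mul, e1, e2, e3]
  rw [e4] at h3
  linarith

theorem cnt [CharZero k] [IsAlgClosed k] (h : Hyp X) (hr : RR T l₀ c) {y : X.P}
    (hy : Algebra.trdeg k (X.kap y) = 1) {d : Fin 2 → Derivation k K K} {t : Fin 2 → K} (hJ : Jet X y d t) {E : Cart X}
    (hE : Bd y d E) {R R' : Cart X} (hR : Effective R) (hR' : Effective R') (hc : Cop R R') {μ μ' : ℕ}
    (hv : Vn X y d μ (R.eq y)) (hv' : Vn X y d μ' (R'.eq y)) {U : Cart X} (hU : Ample U) :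
    (μ : ℝ) * μ' * dz h.var y U ≤ T U R R' := by
  obtain ⟨G, hG⟩ := lowj h hJ
  have hD : 0 < dz h.var y U := dz_pos h.var h.amp hy (res_ample h.var y _ hU)
  obtain ⟨χ, hχ⟩ := hz_cur h.var h.amp hy
  have hev : ∀ W : Cart X, ∃ m₀ : ℕ, ∀ m ≥ m₀,
      (hz h.var y (W * U ^ m) : ℝ) = m * (dz h.var y U : ℝ) + ((dz h.var y W : ℝ) + χ) := by
    intro W
    refine ⟨(-2 * χ - dz h.var y W).toNat + 1, fun m hm => ?_⟩
    have h2 := hχ (W * U ^ m) (by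
      rw [dz_mul h.var h.amp hy, dz_pow h.var h.amp hy]
      have h3 : (m : ℤ) ≤ m * dz h.var y U := le_mul_of_one_le_right (by positivity) hD
      omega)
    have h3 : ((hz h.var y (W * U ^ m) : ℤ) : ℝ) = ((dz h.var y (W * U ^ m) + χ : ℤ) : ℝ) := by rw [h2]
    rw [dz_mul h.var h.amp hy, dz_pow h.var h.amp hy] at h3
    push_cast at h3
    rw [h3]
    ring
  -- the three sums
  have g1 : ∀ j : ℕ, ∃ m₀ : ℕ, ∀ m ≥ m₀,
      (Module.finrank k (LinearMap.range (resS h.var y (U ^ m * (G ^ j)⁻¹) 1)) : ℝ) =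
        m * (dz h.var y U : ℝ) + ((dz h.var y (G ^ j)⁻¹ : ℝ) + χ) := by
    intro j
    obtain ⟨m1, h1⟩ := Pool.Agent.H24.TK.ser_ample h.var hU y (G ^ j)⁻¹
    obtain ⟨m2, h2⟩ := hev (G ^ j)⁻¹
    refine ⟨m1 + m2, fun m hm => ?_⟩
    rw [← h2 m (by omega), mul_comm (U ^ m), LinearMap.range_eq_top.2 (h1 m (by omega)), finrank_top]
    rfl
  have g2 : ∀ j : ℕ, ∃ m₀ : ℕ, ∀ m ≥ m₀, (hz h.var y (U ^ m * R⁻¹ * E ^ j) : ℝ) =
        m * (dz h.var y U : ℝ) + ((dz h.var y (R⁻¹ * E ^ j) : ℝ) + χ) := by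
    intro j
    obtain ⟨m2, h2⟩ := hev (R⁻¹ * E ^ j)
    refine ⟨m2, fun m hm => ?_⟩
    rw [← h2 m hm, mul_assoc, mul_comm (U ^ m)]
  have g3 : ∀ j : ℕ, ∃ m₀ : ℕ, ∀ m ≥ m₀, (hz h.var y (U ^ m * R'⁻¹ * E ^ j) : ℝ) =
        m * (dz h.var y U : ℝ) + ((dz h.var y (R'⁻¹ * E ^ j) : ℝ) + χ) := by
    intro j
    obtain ⟨m2, h2⟩ := hev (R'⁻¹ * E ^ j)
    refine ⟨m2, fun m hm => ?_⟩
    rw [← h2 m hm, mul_assoc, mul_comm (U ^ m)]
  obtain ⟨m1, C1, s1⟩ := sum_ev g1 (μ + μ')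
  obtain ⟨m2, C2, s2⟩ := sum_ev g2 μ'
  obtain ⟨m3, C3, s3⟩ := sum_ev g3 μ
  obtain ⟨n1, c1⟩ := hr.ev 1 U hU
  obtain ⟨n2, c2⟩ := hr.ev R⁻¹ U hU
  obtain ⟨n3, c3⟩ := hr.ev R'⁻¹ U hU
  obtain ⟨n4, c4⟩ := hr.ev (R⁻¹ * R'⁻¹) U hU
  obtain ⟨M, hM⟩ : ∃ M, M = m1 + m2 + m3 + n1 + n2 + n3 + n4 := ⟨_, rfl⟩
  have key : ∀ m ≥ M, C1 - C2 - C3 + (T R' R' R + T R' R R) / 2 ≤
      (m : ℝ) * (T U R R' - μ * μ' * dz h.var y U) := by
    intro m hm
    have t1 := s1 m (by omega)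
    have t2 := s2 m (by omega)
    have t3 := s3 m (by omega)
    have u1 := c1 m (by omega)
    have u2 := c2 m (by omega)
    have u3 := c3 m (by omega)
    have u4 := c4 m (by omega)
    have v := chi4 hr U R R' m
    rw [← u1, ← u2, ← u3, ← u4] at v
    have w0 := dims h hJ hR hR' hc hv hv' (U ^ m)
    have w1 := low_sum h hJ hG (U ^ m) (μ + μ')
    have w2 := up_sum h hy hJ hE (U ^ m * R⁻¹) μ'
    have w3 := up_sum h hy hJ hE (U ^ m * R'⁻¹) μ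
    have x0 : (Module.finrank k (secV hJ (U ^ m * R⁻¹) μ') : ℝ) + Module.finrank k (secV hJ (U ^ m * R'⁻¹) μ) ≤
      Module.finrank k (secV hJ (U ^ m) (μ + μ')) + h0 (U ^ m * R⁻¹ * R'⁻¹) 1 := by exact_mod_cast w0
    have x1 : (Module.finrank k (secV hJ (U ^ m) (μ + μ')) : ℝ) +
      ∑ j ∈ Finset.range (μ + μ'), ((j : ℝ) + 1) *
        (Module.finrank k (LinearMap.range (resS h.var y (U ^ m * (G ^ j)⁻¹) 1)) : ℝ) ≤
        h0 (U ^ m) 1 := by
      have := w1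
      unfold h0
      exact_mod_cast this
    have x2 : (h0 (U ^ m * R⁻¹) 1 : ℝ) ≤ Module.finrank k (secV hJ (U ^ m * R⁻¹) μ') +
      ∑ j ∈ Finset.range μ', ((j : ℝ) + 1) * (hz h.var y (U ^ m * R⁻¹ * E ^ j) : ℝ) := by
      have := w2
      unfold h0
      exact_mod_cast this
    have x3 : (h0 (U ^ m * R'⁻¹) 1 : ℝ) ≤ Module.finrank k (secV hJ (U ^ m * R'⁻¹) μ) +
      ∑ j ∈ Finset.range μ, ((j : ℝ) + 1) * (hz h.var y (U ^ m * R'⁻¹ * E ^ j) : ℝ) := by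
      have := w3
      unfold h0
      exact_mod_cast this
    rw [t1] at x1
    rw [t2] at x2
    rw [t3] at x3
    have e0 : (h0 (1 * U ^ m) 1 : ℝ) = h0 (U ^ m) 1 := by rw [one_mul]
    have e1 : (h0 (R⁻¹ * U ^ m) 1 : ℝ) = h0 (U ^ m * R⁻¹) 1 := by rw [mul_comm]
    have e2 : (h0 (R'⁻¹ * U ^ m) 1 : ℝ) = h0 (U ^ m * R'⁻¹) 1 := by rw [mul_comm]
    have e3 : (h0 (R⁻¹ * R'⁻¹ * U ^ m) 1 : ℝ) = h0 (U ^ m * R⁻¹ * R'⁻¹) 1 := by
      rw [mul_comm (R⁻¹ * R'⁻¹), mul_assoc]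
    rw [e0, e1, e2, e3] at v
    push_cast at x1
    nlinarith [x0, x1, x2, x3, v]
  have hle : 0 ≤ T U R R' - μ * μ' * dz h.var y U := by
    by_contra hneg
    push Not at hneg
    obtain ⟨C, hC⟩ : ∃ C : ℝ, C = C1 - C2 - C3 + (T R' R' R + T R' R R) / 2 := ⟨_, rfl⟩
    rw [← hC] at key
    obtain ⟨N, hN⟩ := exists_nat_gt ((-C) / (-(T U R R' - μ * μ' * dz h.var y U)))
    rw [div_lt_iff₀ (by linarith)] at hN
    have h6 := key (M + N) (by omega)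
    push_cast at h6
    have h7 : (0 : ℝ) ≤ (M : ℝ) := Nat.cast_nonneg _
    nlinarith
  linarith

end Pool.Agent.H89.RS
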