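import Pool.Agent.H89.RS.Def

/-!
# [H89 RS Klm] THEOREM R* (MP_e49dc9_ag): classes of degree `≥ 0` on all curves are nef

PROOF.  `B` ample, `S` a surface (`z`): a power of `B` has a section on `z`, so `T(B,v,S) ≥ 0` (`T_dec`); a power of `B'` ample is a product of prime divisors up to units
(`fac_eff`), so `T(B,B',v) ≥ 0`.  So `T(q,v,S) ≥ 0`, `T(q,q,v) ≥ 0` for nef `q`.  Suppose `v` is not in the closure; `s > 0` minimal with `q = v + s A` in `closure (CC ν)`.
`dR y q = dR y v + s dR y A > 0`; `T(q,q,S) = T(q,v,S) + s T(q,A,S) > 0` (`T(q,A,S) = 0` gives `dR y q = 0` on `S`, `ms_zero`, `exists_cur`), `T(q,q,q) ≥ s T(q,q,A) > 0`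
(`fac_eff` for a power of `A`).  `good_cc` (H20/TP/Loc): `q ∈ CC ν`, which is open: a contradiction.
-/

set_option autoImplicit false

namespace Pool.Agent.H89.RS

open Pool.Agent.H54.RV Pool.Agent.H83.TU Pool.Agent.H83.TK Pool.Agent.H20.TD Pool.Agent.H20.TP Pool.Agent.H20.RT
open Pool.Agent.H24.VP (RR)

variable {k K : Type} [Field k] [Field K] [Algebra k K] {X : Mod k K} {r : ℕ}
  {ν : Cart X →* Multiplicative (Fin r → ℤ)} {T : Cart X → Cart X → Cart X → ℝ} {l₀ : Cart X → ℝ} {c : ℝ} {TR : Tri3 r}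
  {p : Fin r → ℝ} {A : Cart X} {F : ℕ → Cart X} {P : ℕ → PDiv X}

private theorem kl_pow (U : Cart X) (n : ℕ) : cR ν (U ^ n) = (n : ℝ) • cR ν U := by
  change rv (ci ν (U ^ n)) = _
  rw [ci_pow, rv_smul, Int.cast_natCast]

private theorem kl_cl (hX : IsVar X) (hν : NumR ν) (f : (Fin r → ℝ) →ₗ[ℝ] ℝ)
    (hf : ∀ B : Cart X, Ample B → 0 ≤ f (cR ν B)) {q : Fin r → ℝ} (hq : q ∈ closure (CC ν)) : 0 ≤ f q := by
  rw [← cl_eq hX hν] at hq
  have h1 : IsClosed {x | 0 ≤ f x} := isClosed_le continuous_const (LinearMap.continuous_of_finiteDimensional f)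
  refine closure_minimal ?_ h1 hq
  rintro v ⟨m, cc, D, hc, hD, rfl⟩
  show 0 ≤ f _
  rw [map_sum]
  refine Finset.sum_nonneg fun i _ => ?_
  rw [map_smul, smul_eq_mul]
  exact mul_nonneg (hc i).le (hf _ (hD i))

/-- on a surface -/
private theorem kl_srf [CharZero k] [IsAlgClosed k] [T0Space X.P] (h : Hyp X) (hr : RR T l₀ c) (hν : NumR ν)
    (hT : ∀ U V W, TR (cR ν U) (cR ν V) (cR ν W) = T U V W) {v q : Fin r → ℝ}
    (hv : ∀ y : X.P, Algebra.trdeg k (X.kap y) = 1 → 0 ≤ dR hν h.var y v) (hq : q ∈ closure (CC ν)) {z : X.P}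
    {S : Cart X} (htr : Algebra.trdeg k (X.kap z) = 2) (hS : SPr X z S) : 0 ≤ TR v q (cR ν S) := by
  have hamp : ∀ B : Cart X, Ample B → 0 ≤ TR v (cR ν B) (cR ν S) := by
    intro B hB
    obtain ⟨m, hm, hH, hb⟩ := exists_bpf h.var hB
    obtain ⟨Z, hZ⟩ := bpf_hasS h hb z
    obtain ⟨n, y, hy, hdec⟩ := Pool.Agent.H39.TZ.T_dec h hr htr hS hZ
    have h1 : (LinearMap.applyₗ (R := ℝ) (cR ν S)).comp (TR.flip (cR ν (B ^ m))) = ∑ i, dR hν h.var (y i) := by
      refine ext_uniq hν fun U => ?_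
      rw [LinearMap.sum_apply, LinearMap.comp_apply, LinearMap.applyₗ_apply_apply, LinearMap.flip_apply, hT, hdec]
      exact Finset.sum_congr rfl fun i _ => (dR_ci hν h.var h.amp (hy i).2 U).symm
    have h2 := congrArg (fun f => f v) h1
    change TR v (cR ν (B ^ m)) (cR ν S) = (∑ i, dR hν h.var (y i)) v at h2
    rw [LinearMap.sum_apply, kl_pow, map_smul, LinearMap.smul_apply, smul_eq_mul] at h2
    have h3 : 0 ≤ (m : ℝ) * TR v (cR ν B) (cR ν S) := by
      rw [h2]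
      exact Finset.sum_nonneg fun i _ => hv _ (hy i).2
    have h4 : (0 : ℝ) < m := by exact_mod_cast hm
    exact nonneg_of_mul_nonneg_right h3 h4
  exact kl_cl h.var hν ((TR v).flip (cR ν S)) (fun B hB => by rw [LinearMap.flip_apply]; exact hamp B hB) hq

/-- a multiple of an ample class is a sum of classes of prime divisors -/
private theorem kl_dec [CharZero k] [IsAlgClosed k] [T0Space X.P] (h : Hyp X) (hr : RR T l₀ c) (hν : NumR ν)
    (hT : ∀ U V W, TR (cR ν U) (cR ν V) (cR ν W) = T U V W) {B : Cart X} (hB : Ample B) :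
    ∃ (m : ℕ) (Ls : List (PDiv X × Cart X)), 1 ≤ m ∧ (∀ x ∈ Ls, SPr X x.1.η x.2) ∧
      ∀ u w : Fin r → ℝ, (m : ℝ) * TR u w (cR ν B) = (Ls.map fun x => TR u w (cR ν x.2)).sum := by
  obtain ⟨m, hm, hH, hb⟩ := exists_bpf h.var hB
  obtain ⟨s, hs0, hs⟩ := ex_sec (Pool.Agent.H20.TQ.bpf_pos h hb)
  have hE : Effective (prin X s hs0 * B ^ m) := by
    intro y
    have h4 := hs y
    rw [pow_one] at h4
    rw [mul_eq]
    exact h4
  obtain ⟨Ls, U, h1, h2, h3, h4⟩ := Pool.Agent.H24.VP.fac_eff h hr hE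
  refine ⟨m, Ls, hm, h1, fun u w => ?_⟩
  have h5 : cR ν (prin X s hs0 * B ^ m) = (m : ℝ) • cR ν B := by
    have e1 : ci ν (prin X s hs0) = 0 := by
      unfold ci
      rw [(hν.ker _).2 (numz_prin s hs0)]
      rfl
    change rv (ci ν (prin X s hs0 * B ^ m)) = _
    rw [ci_mul, e1, zero_add, ci_pow, rv_smul, Int.cast_natCast]
  have h6 : TR u w (cR ν (prin X s hs0 * B ^ m)) = (Ls.map fun x => TR u w (cR ν x.2)).sum := by
    rw [h4, cR_mul, map_add, list_tr, tr_triv h hr hν hT h2 h3, add_zero]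
  rw [← h6, h5, map_smul, smul_eq_mul]

/-- two nef classes -/
private theorem kl_nef [CharZero k] [IsAlgClosed k] [T0Space X.P] (h : Hyp X) (hr : RR T l₀ c) (hν : NumR ν)
    (hT : ∀ U V W, TR (cR ν U) (cR ν V) (cR ν W) = T U V W) {v q q' : Fin r → ℝ}
    (hv : ∀ y : X.P, Algebra.trdeg k (X.kap y) = 1 → 0 ≤ dR hν h.var y v) (hq : q ∈ closure (CC ν))
    (hq' : q' ∈ closure (CC ν)) : 0 ≤ TR v q q' := by
  refine kl_cl h.var hν (TR v q) (fun B hB => ?_) hq'
  obtain ⟨m, Ls, hm, h1, h2⟩ := kl_dec h hr hν hT hB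
  have h3 : 0 ≤ (m : ℝ) * TR v q (cR ν B) := by
    rw [h2]
    refine List.sum_nonneg fun x hx => ?_
    obtain ⟨y, hy, rfl⟩ := List.mem_map.1 hx
    exact kl_srf h hr hν hT hv hq (trdeg_pdiv h y.1) (h1 y hy)
  have h4 : (0 : ℝ) < m := by exact_mod_cast hm
  exact nonneg_of_mul_nonneg_right h3 h4

theorem klm [CharZero k] [IsAlgClosed k] [T0Space X.P] (h : Hyp X) (hr : RR T l₀ c) (hν : NumR ν)
    (hT : ∀ U V W, TR (cR ν U) (cR ν V) (cR ν W) = T U V W) {v : Fin r → ℝ}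
    (hv : ∀ y : X.P, Algebra.trdeg k (X.kap y) = 1 → 0 ≤ dR hν h.var y v) : v ∈ closure (CC ν) := by
  obtain ⟨A, hA⟩ := h.amp
  by_contra hcon
  obtain ⟨L, hL, hd⟩ := cc_dir h.var hν (l := fun W => T W A A) (fun U V => hr.tri.add U V A A)
    (fun B hB => Pool.Agent.H24.VP.pos_amp h hr hB hA hA) hA
  obtain ⟨s, hs⟩ : ∃ s, s = thf (CC ν) (rv (ci ν A)) v := ⟨_, rfl⟩
  obtain ⟨a, ha⟩ : ∃ a, a = cR ν A := ⟨_, rfl⟩
  have hs0 : 0 < s := by
    by_contra h1
    push Not at h1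
    have h2 := (hd.le_iff v 0).1 (by rw [← hs]; exact h1)
    rw [zero_smul, add_zero] at h2
    exact hcon h2
  have hq1 := (hd.le_iff v s).1 hs.ge
  have hq2 : v + s • rv (ci ν A) ∉ CC ν := fun h1 => by
    have h2 := (hd.lt_iff v s).2 h1
    rw [← hs] at h2
    exact lt_irrefl _ h2
  change v + s • cR ν A ∈ closure (CC ν) at hq1
  change v + s • cR ν A ∉ CC ν at hq2
  rw [← ha] at hq1 hq2
  obtain ⟨q, hq⟩ : ∃ q, q = v + s • a := ⟨_, rfl⟩
  rw [← hq] at hq1 hq2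
  apply hq2
  have haC : a ∈ CC ν := by
    rw [ha]
    exact cc_amp h.var hν hA
  have hs12 := tr_s12 hr hν hT
  have hs23 := tr_s23 hr hν hT
  have hdq : ∀ x : X.P, Algebra.trdeg k (X.kap x) = 1 → 0 < dR hν h.var x q := by
    intro x hx
    have h1 : 0 < dR hν h.var x a := dR_cc hν h.var hA hx haC
    rw [hq, map_add, map_smul, smul_eq_mul]
    have h2 := hv x hx
    positivity
  have hexp : ∀ x y : Fin r → ℝ, TR q x y = TR v x y + s * TR a x y := fun x y => by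
    rw [hq, map_add, map_smul, LinearMap.add_apply, LinearMap.smul_apply, LinearMap.add_apply, LinearMap.smul_apply,
      smul_eq_mul]
  have hsrf : ∀ (z : X.P) (S : Cart X), Algebra.trdeg k (X.kap z) = 2 → SPr X z S → 0 < TR q q (cR ν S) := by
    intro z S htr hS
    have hM := ms_nef h hr hν hT htr hS hq1
    have hMa := ms_nef h hr hν hT htr hS (subset_closure haC)
    have h1 : 0 < TR q a (cR ν S) := by
      rcases (ms_TT h hr hν hT htr hS hM hMa).lt_or_eq with h2 | h2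
      · exact h2
      · exfalso
        rw [ha] at h2
        have h3 := ms_zero h hr hν hT htr hS hA hM h2.symm
        obtain ⟨x, hx⟩ := exists_cur h hr htr hS
        exact (hdq x hx.2).ne' (h3.2 x hx)
    rw [hexp, hs12 a]
    have h2 := kl_srf h hr hν hT hv hq1 htr hS
    positivity
  refine good_cc h hr hν hT hq1 ?_ fun z S htr hS => ⟨hsrf z S htr hS, fun x hx => hdq x hx.2⟩
  obtain ⟨m, Ls, hm, h1, h2⟩ := kl_dec h hr hν hT hA
  have hm0 : (0 : ℝ) < m := by exact_mod_cast hm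
  have h3 : 0 < TR q q a := by
    have h4 := h2 a a
    have h5 := h2 q q
    rw [← ha] at h4 h5
    have h6 : 0 < TR a a a := by
      rw [ha, hT]
      exact Pool.Agent.H24.VP.pos_amp h hr hA hA hA
    have h7 : Ls ≠ [] := by
      rintro rfl
      rw [List.map_nil, List.sum_nil] at h4
      have := mul_pos hm0 h6
      linarith
    have h8 : 0 < (Ls.map fun x => TR q q (cR ν x.2)).sum := by
      refine List.sum_pos _ (fun x hx => ?_) (by simpa using h7)
      obtain ⟨y, hy, rfl⟩ := List.mem_map.1 hx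
      exact hsrf _ _ (trdeg_pdiv h y.1) (h1 y hy)
    rw [← h5] at h8
    exact (mul_pos_iff_of_pos_left hm0).1 h8
  rw [hexp, hs12 a, hs23 q a]
  have h4 := kl_nef h hr hν hT hv hq1 hq1
  positivity

end Pool.Agent.H89.RS
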