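import Pool.Agent.H89.RS.Def
import Pool.Agent.H89.RT.Hc

/-!
# [H89 RS QN] THEOREM R* (MP_e49dc9_ag): classes which are nef on a surface with `T(p,p,S) = 0`

PROOF of `qn`.  `0 < a' < a` with `T(a' A + w, p, S) > 0`.  `u = a' A + w + τ p`, `τ` large: `T(u,u,S) = T(a' A + w, a' A + w, S) + 2 τ T(a' A + w, p, S) > 0` and
`T(u,A,S) > 0` (`T(p,A,S) > 0`: else `T(p,.,S) = 0` by `ms_nef`, `ms_zero`, `ks_zero`).  `big_s` (H89/RT/Hc): for `t` large `W` with `‖W - t u‖ ≤ 1` has a section on `z`, zero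
set `Z`.  For `y ∉ Z`: `0 ≤ dR y W ≤ t dR y u + b dR y A` (`cc_ball`, `dR_cc`), so `dR y (a A + w + τ p) ≥ 0` for `t ≥ b / (a - a')`.  Finitely many curves `y ∈ Z`
(`zst_fin`): if `dR y p = 0` then `dR y w = 0` (`dR_int`, `Vp`) and the value is `a dR y A > 0`; if `dR y p > 0` take `C` large.
`qn_eff`: `T_dec` (H39/TZ/N2).
-/

set_option autoImplicit false

namespace Pool.Agent.H89.RS

open Pool.Agent.H54.RV Pool.Agent.H83.TU Pool.Agent.H83.TK Pool.Agent.H20.TD Pool.Agent.H20.TP Pool.Agent.H20.RT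
open Pool.Agent.H24.VP (RR)

variable {k K : Type} [Field k] [Field K] [Algebra k K] {X : Mod k K} {r : ℕ}
  {ν : Cart X →* Multiplicative (Fin r → ℤ)} {T : Cart X → Cart X → Cart X → ℝ} {l₀ : Cart X → ℝ} {c : ℝ} {TR : Tri3 r}
  {p : Fin r → ℝ} {A : Cart X} {F : ℕ → Cart X} {P : ℕ → PDiv X}

variable {z : X.P} {S : Cart X}

theorem qn [CharZero k] [IsAlgClosed k] [T0Space X.P] (h : Hyp X) (hr : RR T l₀ c) (hν : NumR ν)
    (hT : ∀ U V W, TR (cR ν U) (cR ν V) (cR ν W) = T U V W)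
    (htr : Algebra.trdeg k (X.kap z) = 2) (hS : SPr X z S) (hA : Ample A) (hp : p ∈ closure (CC ν))
    (h0 : TR p p (cR ν S) = 0) {a : ℝ} (ha : 0 < a) {w : Fin r → ℝ} (hw : w ∈ Vp p)
    (hpos : 0 < TR (a • cR ν A + w) p (cR ν S)) :
    ∃ C : ℝ, 0 ≤ C ∧ ∀ y, Cv z y → 0 ≤ dR hν h.var y (a • cR ν A + w + C • p) := by
  classical
  have s1 := tr_s12 hr hν hT
  have s2 := tr_s23 hr hν hT
  have hAC := subset_closure (cc_amp h.var hν hA)
  have hdA : ∀ y, Cv z y → 0 < dR hν h.var y (cR ν A) := fun y hy => dR_cc hν h.var hA hy.2 (cc_amp h.var hν hA)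
  have hdp : ∀ y, Cv z y → 0 ≤ dR hν h.var y p := fun y hy => dR_nef hν h.var hA hy.2 hp
  -- `T(p,A,S) > 0`
  have hpA0 : 0 ≤ TR p (cR ν A) (cR ν S) := tpa_nn h hr hν hT htr hS hA hp
  have hpA : 0 < TR p (cR ν A) (cR ν S) := by
    rcases hpA0.eq_or_lt with h1 | h1
    · have h2 := ms_zero h hr hν hT htr hS hA (ms_nef h hr hν hT htr hS hp) h1.symm
      have h3 := ks_zero (hp := h2) (hν := hν) (a • cR ν A + w)
      rw [s1] at h3
      rw [h3] at hpos
      exact (lt_irrefl _ hpos).elim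
    · exact h1
  obtain ⟨g, hg⟩ : ∃ g, g = TR (a • cR ν A + w) p (cR ν S) := ⟨_, rfl⟩
  rw [← hg] at hpos
  -- `a'`
  obtain ⟨δ, hδ0, hδa, hδg⟩ : ∃ δ : ℝ, 0 < δ ∧ δ < a ∧ δ * TR p (cR ν A) (cR ν S) < g := by
    refine ⟨min (a / 2) (g / (2 * TR p (cR ν A) (cR ν S))), lt_min (by positivity) (by positivity),
      (min_le_left _ _).trans_lt (by linarith), ?_⟩
    calc _ ≤ g / (2 * TR p (cR ν A) (cR ν S)) * TR p (cR ν A) (cR ν S) :=
          mul_le_mul_of_nonneg_right (min_le_right _ _) hpA0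
      _ = g / 2 := by field_simp
      _ < g := by linarith
  obtain ⟨v, hv⟩ : ∃ v, v = (a - δ) • cR ν A + w := ⟨_, rfl⟩
  have hvp : 0 < TR v p (cR ν S) := by
    have h1 : TR v p (cR ν S) = g - δ * TR p (cR ν A) (cR ν S) := by
      rw [hg, hv, s1 p]
      simp only [map_add, map_smul, LinearMap.add_apply, LinearMap.smul_apply, smul_eq_mul]
      ring
    rw [h1]
    linarith
  -- `τ`
  obtain ⟨τ1, hτ1⟩ := Pool.Agent.H24.ZL.lin_ev (show 0 < 2 * TR v p (cR ν S) by linarith) |TR v v (cR ν S)|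
  obtain ⟨τ2, hτ2⟩ := Pool.Agent.H24.ZL.lin_ev hpA |TR v (cR ν A) (cR ν S)|
  obtain ⟨τ, hτ⟩ : ∃ τ, τ = max 0 (max τ1 τ2) := ⟨_, rfl⟩
  have hτ0 : 0 ≤ τ := by rw [hτ]; exact le_max_left _ _
  have hτ3 := hτ1 τ (by rw [hτ]; exact (le_max_left _ _).trans (le_max_right _ _))
  have hτ4 := hτ2 τ (by rw [hτ]; exact (le_max_right _ _).trans (le_max_right _ _))
  obtain ⟨u, hu⟩ : ∃ u, u = v + τ • p := ⟨_, rfl⟩
  have huu : 0 < TR u u (cR ν S) := by
    have h1 : TR u u (cR ν S) = TR v v (cR ν S) + 2 * TR v p (cR ν S) * τ := by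
      rw [hu]
      simp only [map_add, map_smul, LinearMap.add_apply, LinearMap.smul_apply, smul_eq_mul]
      rw [h0, s1 p v]
      ring
    rw [h1]
    have := neg_abs_le (TR v v (cR ν S))
    linarith
  have huA : 0 < TR u (cR ν A) (cR ν S) := by
    have h1 : TR u (cR ν A) (cR ν S) = TR v (cR ν A) (cR ν S) + TR p (cR ν A) (cR ν S) * τ := by
      rw [hu]
      simp only [map_add, map_smul, LinearMap.add_apply, LinearMap.smul_apply, smul_eq_mul]
      ring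
    rw [h1]
    have := neg_abs_le (TR v (cR ν A) (cR ν S))
    linarith
  obtain ⟨t₀, ht₀⟩ := Pool.Agent.H89.RT.big_s h hr hν hT htr hS hA huA huu 1
  obtain ⟨b, hb, hball⟩ := cc_ball h.var hν hA
  obtain ⟨t, ht⟩ : ∃ t, t = max 1 (max t₀ (b / δ)) := ⟨_, rfl⟩
  have ht1 : 1 ≤ t := by rw [ht]; exact le_max_left _ _
  have ht2 : t₀ ≤ t := by rw [ht]; exact (le_max_left _ _).trans (le_max_right _ _)
  have ht3 : b / δ ≤ t := by rw [ht]; exact (le_max_right _ _).trans (le_max_right _ _)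
  have ht4 : b ≤ δ * t := by
    rw [div_le_iff₀ hδ0] at ht3
    linarith
  obtain ⟨W, hW⟩ := Pool.Agent.H89.RT.near_one hν (t • u)
  obtain ⟨Z, hZ⟩ := hasS_of_pos h.var (ht₀ t W ht2 hW)
  have hfin := zst_fin (n := 1) h.var (by rw [htr]; norm_num) hZ
  -- the curves which are not in `Z`
  have hout : ∀ y, Cv z y → y ∉ Z → 0 ≤ dR hν h.var y (a • cR ν A + w + τ • p) := by
    intro y hy hyZ
    have h1 := dz_out h.var hA hZ hy hyZ
    have h2 : (0 : ℝ) ≤ dR hν h.var y (cR ν W) := by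
      rw [dR_ci hν h.var h.amp hy.2]
      exact_mod_cast h1
    have h3 := dR_cc hν h.var hA hy.2 (hball _ hW)
    rw [map_sub, map_smul, map_sub, map_smul, smul_eq_mul, smul_eq_mul] at h3
    have h4 : a • cR ν A + w + τ • p = u + δ • cR ν A := by
      rw [hu, hv]
      module
    rw [h4, map_add, map_smul, smul_eq_mul]
    have h5 : b * dR hν h.var y (cR ν A) ≤ δ * t * dR hν h.var y (cR ν A) :=
      mul_le_mul_of_nonneg_right ht4 (hdA y hy).le
    have h6 : 0 < t * (dR hν h.var y u + δ * dR hν h.var y (cR ν A)) := by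
      nlinarith
    exact ((mul_pos_iff_of_pos_left (show 0 < t by linarith)).1 h6).le
  -- the curves in `Z`
  have hin : ∀ y, ∃ Cy : ℝ, 0 ≤ Cy ∧ ∀ C, Cy ≤ C → Cv z y → 0 ≤ dR hν h.var y (a • cR ν A + w + C • p) := by
    intro y
    by_cases hy : Cv z y
    · rcases (hdp y hy).eq_or_lt with h1 | h1
      · refine ⟨0, le_rfl, fun C hC _ => ?_⟩
        have h2 : dR hν h.var y w = 0 := by
          obtain ⟨φ, hφ⟩ := dR_int hν h.var y
          rw [hφ]
          exact hw φ (by rw [← hφ]; exact h1.symm)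
        rw [map_add, map_add, map_smul, map_smul, smul_eq_mul, smul_eq_mul, h2, ← h1, mul_zero, add_zero, add_zero]
        exact mul_nonneg ha.le (hdA y hy).le
      · obtain ⟨C1, hC1⟩ := Pool.Agent.H24.ZL.lin_ev h1 |dR hν h.var y w|
        refine ⟨max 0 C1, le_max_left _ _, fun C hC _ => ?_⟩
        have h2 := hC1 C ((le_max_right _ _).trans hC)
        rw [map_add, map_add, map_smul, map_smul, smul_eq_mul, smul_eq_mul]
        have h3 := neg_abs_le (dR hν h.var y w)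
        have h4 := mul_nonneg ha.le (hdA y hy).le
        linarith
    · exact ⟨0, le_rfl, fun C _ h' => (hy h').elim⟩
  choose Cy hCy0 hCy using hin
  obtain ⟨C, hC⟩ : ∃ C, C = τ + ∑ y ∈ hfin.toFinset, Cy y := ⟨_, rfl⟩
  have hsum : 0 ≤ ∑ y ∈ hfin.toFinset, Cy y := Finset.sum_nonneg fun y _ => hCy0 y
  refine ⟨C, by rw [hC]; positivity, fun y hy => ?_⟩
  by_cases hyZ : y ∈ Z
  · refine hCy y C ?_ hy
    have hym : y ∈ hfin.toFinset := by
      rw [Set.Finite.mem_toFinset]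
      refine ⟨hyZ, ?_⟩
      rw [hy.2]
      norm_num
    have h1 := Finset.single_le_sum (f := Cy) (fun y _ => hCy0 y) hym
    rw [hC]
    linarith
  · have h1 := hout y hy hyZ
    have h2 : a • cR ν A + w + C • p = a • cR ν A + w + τ • p + (∑ y ∈ hfin.toFinset, Cy y) • p := by
      rw [hC, add_smul]
      abel
    rw [h2, map_add, map_smul, smul_eq_mul]
    have := mul_nonneg hsum (hdp y hy)
    linarith

theorem qn_eff [CharZero k] [IsAlgClosed k] [T0Space X.P] (h : Hyp X) (hr : RR T l₀ c) (hν : NumR ν)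
    (hT : ∀ U V W, TR (cR ν U) (cR ν V) (cR ν W) = T U V W)
    (htr : Algebra.trdeg k (X.kap z) = 2) (hS : SPr X z S) {v : Fin r → ℝ}
    (hv : ∀ y, Cv z y → 0 ≤ dR hν h.var y v) {G : Cart X} (hG : 0 < hz h.var z G) :
    0 ≤ TR v (cR ν G) (cR ν S) := by
  obtain ⟨Z, hZ⟩ := hasS_of_pos h.var hG
  obtain ⟨m, y, hy, hdec⟩ := Pool.Agent.H39.TZ.T_dec h hr htr hS hZ
  have h1 : (LinearMap.applyₗ (R := ℝ) (cR ν S)).comp (TR.flip (cR ν G)) = ∑ i, dR hν h.var (y i) := by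
    refine ext_uniq hν fun U => ?_
    rw [LinearMap.sum_apply, LinearMap.comp_apply, LinearMap.applyₗ_apply_apply, LinearMap.flip_apply, hT, hdec]
    exact Finset.sum_congr rfl fun i _ => (dR_ci hν h.var h.amp (hy i).2 U).symm
  have h2 := congrArg (fun f => f v) h1
  change TR v (cR ν G) (cR ν S) = (∑ i, dR hν h.var (y i)) v at h2
  rw [h2, LinearMap.sum_apply]
  exact Finset.sum_nonneg fun i _ => hv _ ⟨(hasS_lt h.var hZ (hy i).1).1, (hy i).2⟩

end Pool.Agent.H89.RS
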