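import Pool.Agent.H89.RS.Fam0
import Pool.Agent.H89.RS.QN

/-!
# [H89 RS Q] THEOREM R* (MP_e49dc9_ag): `F . F = 0`, and the multiplicities of the surfaces `S` with `p . p . S = 0`

`q(u,v) = T(u,v,F 0)`; `q(p,u) = lam z(u)`, `z = T(p,p,.)` (`fam_lam`).  `w₀ ∈ Vp p` with `z(w₀) = z(A)`.  For `ε > 0`: `C_ε` from `qn` with `a = 1 + ε`, `w = - w₀`:
`v = (1 + ε) A - w₀ + C_ε p` satisfies `q(v,G) ≥ 0` for all `G` with a section on `F 0` (`qn_eff`), so for all effective `G` which do not contain `F 0`.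
`q_zero`: for `D` as in `Dx`: `q(A,D) = x q(A,p) - i q(A,F 0) + O(1)`, `q(w₀,D) = x q(w₀,p) + O(1) = x q(A,p) + O(1)` (`T(w₀,F 0,F 0) = 0`: `vp_tri`),
`q(p,D) = lam z(W) = O(1)`.  So `(1 + ε) i q(A,F 0) ≤ ε x q(A,p) + O_ε(1)`, `i ≥ η x`; `x → ∞`, `ε → 0`: `q(A,F 0) ≤ 0`.  So `T(A,F 0,F 0) = 0` for every ample `A`
(`ff_nn`), so `T(F 0,F 0,.) = 0`.
`q_crv`: `y` not on `F i`: `dz y (F i) ≥ 0`.  If `y` is on `F 0` and on `F 1`, `T(A,F 0,F 1) > 0` (`T_decy`): a contradiction.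
`q_mul`: `D = S ^ n * R`: `T(.,S,F 0)` is integral and zero at `p`, so at `w₀` (`vp_tri`); `0 ≤ q(v,R) = q(v,D) - n q(v,S)` and `q(v,S) = (1 + ε) q(A,S)`, so
`n (1 + ε) q(A,S) ≤ q(v,D) ≤ ε x q(A,p) + O_ε(1)`.
-/

set_option autoImplicit false

namespace Pool.Agent.H89.RS

open Pool.Agent.H54.RV Pool.Agent.H83.TU Pool.Agent.H83.TK Pool.Agent.H20.TD Pool.Agent.H20.TP Pool.Agent.H20.RT
open Pool.Agent.H24.VP (RR)

variable {k K : Type} [Field k] [Field K] [Algebra k K] {X : Mod k K} {r : ℕ}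
  {ν : Cart X →* Multiplicative (Fin r → ℤ)} {T : Cart X → Cart X → Cart X → ℝ} {l₀ : Cart X → ℝ} {c : ℝ} {TR : Tri3 r}
  {p : Fin r → ℝ} {A : Cart X} {F : ℕ → Cart X} {P : ℕ → PDiv X}

/-- the canonical section of an effective divisor -/
theorem hasX_eff {D : Cart X} (hD : Effective D) : HasX D {x | ¬ Un (X.O x) (D.eq x)} := by
  refine ⟨1, one_ne_zero, fun x => ?_, ?_⟩
  · rw [one_mul, pow_one]
    exact hD x
  · simp only [one_mul]

theorem hz_eff [CharZero k] (h : Hyp X) {D : Cart X} (hD : Effective D) {z : X.P} (hu : Un (X.O z) (D.eq z)) :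
    0 < hz h.var z D := by
  obtain ⟨A, hA⟩ := h.amp
  exact hasS_pos h.var hA (hasX_res h.var (hasX_eff hD) (z := z) fun h1 => h1 hu)

/-- the classes of the family are equal -/
theorem fm_eq [CharZero k] [IsAlgClosed k] [T0Space X.P] (h : Hyp X) (hr : RR T l₀ c) (hν : NumR ν)
    (hT : ∀ U V W, TR (cR ν U) (cR ν V) (cR ν W) = T U V W) (hF : Fm ν TR p F P) (i : ℕ) :
    cR ν (F i) = cR ν (F 0) := by
  obtain ⟨A, hA⟩ := h.amp
  have h1 : ∀ u v, TR (cR ν (F i) - cR ν (F 0)) u v = 0 := fun u v => by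
    rw [map_sub, LinearMap.sub_apply, LinearMap.sub_apply, hF.num i, sub_self]
  exact sub_eq_zero.1 (Pool.Agent.H83.RT.num_zero h hr hν hT fun x hx =>
    curves_zero h hr hν hT hA (fun u => h1 _ u) (h1 _ _) hx)

/-- the other members of the family do not contain `(P 0).η` -/
theorem fm_un [CharZero k] [T0Space X.P] (h : Hyp X) (hF : Fm ν TR p F P) {i j : ℕ} (hij : i ≠ j) :
    Un (X.O (P j).η) ((F i).eq (P j).η) := by
  refine (hF.spr i).un _ fun h1 => hij ?_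
  exact hF.inj _ _ (Pool.Agent.H89.RT.eq_of_sp h.var h1 (by rw [trdeg_pdiv h, trdeg_pdiv h]))

/-- the bound -/
private theorem key [CharZero k] [IsAlgClosed k] [T0Space X.P] (h : Hyp X) (hr : RR T l₀ c) (hν : NumR ν)
    (hT : ∀ U V W, TR (cR ν U) (cR ν V) (cR ν W) = T U V W) (hA : Ample A)
    (hp : p ∈ closure (CC ν)) (h3 : TR p p p = 0) (hz : ∃ w ∈ Vp p, TR p p w ≠ 0) (hF : Fm ν TR p F P)
    (C₁ : ℝ) {ε : ℝ} (hε : 0 < ε) :
    ∃ (w₀ : Fin r → ℝ) (C K : ℝ), w₀ ∈ Vp p ∧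
      (∀ G, 0 < Pool.Agent.H20.TP.hz h.var (P 0).η G →
        0 ≤ TR ((1 + ε) • cR ν A + -w₀ + C • p) (cR ν G) (cR ν (F 0))) ∧
      ∀ (x : ℝ) (D W : Cart X) (i : ℕ), cR ν W ∈ Vp p → ‖cR ν W - x • p‖ ≤ C₁ → cR ν D = cR ν W - (i : ℝ) • cR ν (F 0) →
        TR ((1 + ε) • cR ν A + -w₀ + C • p) (cR ν D) (cR ν (F 0)) ≤
          ε * (x * TR (cR ν A) p (cR ν (F 0))) + K - (1 + ε) * (i * TR (cR ν A) (cR ν (F 0)) (cR ν (F 0))) := by
  have s1 := tr_s12 hr hν hT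
  have s2 := tr_s23 hr hν hT
  obtain ⟨w, hw, hzw⟩ := hz
  have hpp : TR p p ≠ 0 := fun h1 => hzw (by rw [h1, LinearMap.zero_apply])
  have hzA : 0 < TR p p (cR ν A) := pp_pos h hr hν hT hA hp hpp
  obtain ⟨lam, hlam0, hlam⟩ := fam_lam h hr hν hT hp h3 hpp hF
  obtain ⟨w₀, hw₀⟩ : ∃ w₀, w₀ = (TR p p (cR ν A) / TR p p w) • w := ⟨_, rfl⟩
  have hw₀V : w₀ ∈ Vp p := by rw [hw₀]; exact (Vp p).smul_mem _ hw
  have hzw₀ : TR p p w₀ = TR p p (cR ν A) := by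
    rw [hw₀, map_smul, smul_eq_mul]
    field_simp
  obtain ⟨f, hf⟩ : ∃ f, f = cR ν (F 0) := ⟨_, rfl⟩
  obtain ⟨a, ha⟩ : ∃ a, a = cR ν A := ⟨_, rfl⟩
  have eA : TR a p f = lam * TR p p a := by rw [s1, s2, hf, hlam]
  have ew : TR w₀ p f = lam * TR p p a := by rw [s1, s2, hf, hlam, hzw₀, ha]
  have ewf : TR w₀ f f = 0 := by
    rw [hf]
    exact vp_tri hr hν hT h.amp hF.pFF hw₀V
  have hpf : TR p f f = 0 := by rw [hf]; exact hF.pFF
  have hppf : TR p p f = 0 := by rw [hf]; exact hF.ppF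
  obtain ⟨C, hC0, hC⟩ := qn h hr hν hT (trdeg_pdiv h (P 0)) (hF.spr 0) hA hp hF.ppF (a := 1 + ε) (by linarith)
    ((Vp p).neg_mem hw₀V) (by
      rw [← hf, ← ha, map_add, map_smul, map_neg, LinearMap.add_apply, LinearMap.smul_apply, LinearMap.neg_apply,
        LinearMap.add_apply, LinearMap.smul_apply, LinearMap.neg_apply, eA, ew, smul_eq_mul]
      have h1 : 0 < TR p p a := by rw [ha]; exact hzA
      have h2 : 0 < ε * (lam * TR p p a) := by positivity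
      linarith)
  obtain ⟨M, hM0, hM⟩ := Pool.Agent.H89.RT.bil_bd TR f
  refine ⟨w₀, C, M * ‖(1 + ε) • a + -w₀ + C • p‖ * C₁, hw₀V, fun G hG =>
    qn_eff h hr hν hT (trdeg_pdiv h (P 0)) (hF.spr 0) hC hG, fun x D W i hW hWx hD => ?_⟩
  rw [← hf, ← ha]
  obtain ⟨e, he⟩ : ∃ e, e = cR ν W - x • p := ⟨_, rfl⟩
  have hWe : cR ν W = x • p + e := by rw [he]; abel
  rw [← he] at hWx
  obtain ⟨v, hv⟩ : ∃ v, v = (1 + ε) • a + -w₀ + C • p := ⟨_, rfl⟩
  have h1 : TR v e f ≤ M * ‖v‖ * C₁ := by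
    refine (le_abs_self _).trans ((hM v e).trans ?_)
    gcongr
  have h2 : TR v p f = ε * TR a p f := by
    rw [hv]
    simp only [map_add, map_smul, map_neg, LinearMap.add_apply, LinearMap.smul_apply, LinearMap.neg_apply, smul_eq_mul]
    rw [ew, eA, hppf]
    ring
  have h4 : TR v f f = (1 + ε) * TR a f f := by
    rw [hv]
    simp only [map_add, map_smul, map_neg, LinearMap.add_apply, LinearMap.smul_apply, LinearMap.neg_apply, smul_eq_mul]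
    rw [ewf, hpf]
    ring
  rw [← hv, hD, hWe, ← hf, map_sub, map_add, map_smul, map_smul, LinearMap.sub_apply, LinearMap.add_apply,
    LinearMap.smul_apply, LinearMap.smul_apply, smul_eq_mul, smul_eq_mul, h2, h4]
  linarith

theorem q_zero [CharZero k] [IsAlgClosed k] [T0Space X.P] (h : Hyp X) (hr : RR T l₀ c) (hν : NumR ν)
    (hT : ∀ U V W, TR (cR ν U) (cR ν V) (cR ν W) = T U V W)
    (hp : p ∈ closure (CC ν)) (h3 : TR p p p = 0) (hz : ∃ w ∈ Vp p, TR p p w ≠ 0) (hF : Fm ν TR p F P)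
    {η C x₀ : ℝ} (hη : 0 < η)
    (hD : ∀ x, x₀ ≤ x → ∃ D, Dx ν p (F 0) η C x D ∧ Un (X.O (P 0).η) (D.eq (P 0).η)) :
    ∀ u, TR (cR ν (F 0)) (cR ν (F 0)) u = 0 := by
  have s1 := tr_s12 hr hν hT
  have s2 := tr_s23 hr hν hT
  -- for ample `A`
  have hall : ∀ A : Cart X, Ample A → TR (cR ν A) (cR ν (F 0)) (cR ν (F 0)) = 0 := by
    intro A hA
    by_contra hne
    have hff : 0 < TR (cR ν A) (cR ν (F 0)) (cR ν (F 0)) :=
      lt_of_le_of_ne (ff_nn h hr hν hT hF hA) (Ne.symm hne)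
    have hL0 : 0 ≤ TR (cR ν A) p (cR ν (F 0)) := by
      rw [s1]
      exact tpa_nn h hr hν hT (trdeg_pdiv h (P 0)) (hF.spr 0) hA hp
    obtain ⟨L, hL⟩ : ∃ L, L = TR (cR ν A) p (cR ν (F 0)) := ⟨_, rfl⟩
    obtain ⟨g, hg⟩ : ∃ g, g = TR (cR ν A) (cR ν (F 0)) (cR ν (F 0)) := ⟨_, rfl⟩
    rw [← hg] at hff
    rw [← hL] at hL0
    obtain ⟨ε, hε0, hε⟩ : ∃ ε : ℝ, 0 < ε ∧ ε * L < η * g := by
      refine ⟨η * g / (2 * (L + 1)), by positivity, ?_⟩
      rw [div_mul_eq_mul_div, div_lt_iff₀ (by positivity)]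
      have : 0 < η * g := by positivity
      nlinarith
    obtain ⟨w₀, C', K, -, h1, h2⟩ := key h hr hν hT hA hp h3 hz hF C hε0
    obtain ⟨x₁, hx₁⟩ := Pool.Agent.H24.ZL.lin_ev (show 0 < η * g - ε * L by linarith) K
    obtain ⟨x, hx⟩ : ∃ x, x = max 0 (max x₀ x₁) := ⟨_, rfl⟩
    have hx0 : 0 ≤ x := by rw [hx]; exact le_max_left _ _
    obtain ⟨D, hDx, hun⟩ := hD x (by rw [hx]; exact (le_max_left _ _).trans (le_max_right _ _))
    have h4 := hx₁ x (by rw [hx]; exact (le_max_right _ _).trans (le_max_right _ _))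
    obtain ⟨W, i, hW, hWx, hi, hDW⟩ := hDx.cls
    have h5 := h1 D (hz_eff h hDx.eff hun)
    have h6 := h2 x D W i hW hWx hDW
    rw [← hL, ← hg] at h6
    have h7 : η * x * g ≤ i * g := mul_le_mul_of_nonneg_right hi hff.le
    have h8 : 0 ≤ ε * (i * g) := by positivity
    nlinarith
  obtain ⟨A, hA⟩ := h.amp
  have h5 : TR (cR ν (F 0)) (cR ν (F 0)) = 0 := ext_uniq hν fun W => by
    obtain ⟨n, hn⟩ := Pool.Agent.H24.VP.exists_amp h.var hA W
    rw [LinearMap.zero_apply]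
    have h6 : ∀ B : Cart X, Ample B → TR (cR ν (F 0)) (cR ν (F 0)) (cR ν B) = 0 := fun B hB => by
      rw [s2, s1]
      exact hall B hB
    have h7 := h6 _ (hn n le_rfl)
    have h8 := h6 A hA
    have h9 : cR ν (A ^ n * W) = (n : ℝ) • cR ν A + cR ν W := by
      change rv (ci ν (A ^ n * W)) = _
      rw [ci_mul, rv_add, ci_pow, rv_smul, Int.cast_natCast]
    rw [h9, map_add, map_smul, h8, smul_zero, zero_add] at h7
    exact h7
  intro u
  rw [h5, LinearMap.zero_apply]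

theorem q_crv [CharZero k] [IsAlgClosed k] [T0Space X.P] (h : Hyp X) (hr : RR T l₀ c) (hν : NumR ν)
    (hT : ∀ U V W, TR (cR ν U) (cR ν V) (cR ν W) = T U V W) (hF : Fm ν TR p F P)
    (h0 : ∀ u, TR (cR ν (F 0)) (cR ν (F 0)) u = 0) {y : X.P} (hy : Algebra.trdeg k (X.kap y) = 1) :
    0 ≤ dR hν h.var y (cR ν (F 0)) := by
  obtain ⟨A, hA⟩ := h.amp
  have s1 := tr_s12 hr hν hT
  have s2 := tr_s23 hr hν hT
  -- a member which does not contain the curve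
  have h1 : ∃ i, Un (X.O y) ((F i).eq y) := by
    by_contra hcon
    push Not at hcon
    have hsp : ∀ i, (P i).η ⤳ y := fun i => by
      by_contra h2
      exact hcon i ((hF.spr i).un y h2)
    have hu := fm_un h hF (i := 1) (j := 0) one_ne_zero
    have hZ := hasX_res h.var (hasX_eff (hF.spr 1).eff) (z := (P 0).η) fun h1 => h1 hu
    obtain ⟨m, x, hx, hdec⟩ := Pool.Agent.H89.RT.T_decy h hr (trdeg_pdiv h (P 0)) (hF.spr 0) hZ (y := y)
      ⟨hsp 0, hcon 1⟩ hy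
    have h2 := hdec A
    have h4 : T A (F 1) (F 0) = 0 := by
      rw [← hT, s1, hF.num 1, s1, s2, s1, s2, h0]
    have h5 : 0 < (dz h.var y A : ℝ) := by
      have := dz_pos h.var h.amp hy (res_ample h.var y A hA)
      exact_mod_cast this
    have h6 : 0 ≤ ∑ i, (dz h.var (x i) A : ℝ) := Finset.sum_nonneg fun i _ => by
      have := dz_pos h.var h.amp (hx i).2 (res_ample h.var (x i) A hA)
      exact_mod_cast this.le
    rw [h4] at h2
    linarith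
  obtain ⟨i, hi⟩ := h1
  rw [← fm_eq h hr hν hT hF i, dR_ci hν h.var h.amp hy]
  obtain ⟨s, hs0, hs1, -⟩ := hasX_res h.var (hasX_eff (hF.spr i).eff) (z := y) fun h1 => h1 hi
  exact_mod_cast dz_nn h.var h.amp hy hs1 hs0

theorem q_mul [CharZero k] [IsAlgClosed k] [T0Space X.P] (h : Hyp X) (hr : RR T l₀ c) (hν : NumR ν)
    (hT : ∀ U V W, TR (cR ν U) (cR ν V) (cR ν W) = T U V W) (hA : Ample A)
    (hp : p ∈ closure (CC ν)) (h3 : TR p p p = 0) (hz : ∃ w ∈ Vp p, TR p p w ≠ 0) (hF : Fm ν TR p F P)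
    (h0 : ∀ u, TR (cR ν (F 0)) (cR ν (F 0)) u = 0) {η C : ℝ} (hη : 0 < η) {z : X.P} {S : Cart X}
    (htr : Algebra.trdeg k (X.kap z) = 2) (hS : SPr X z S) (hzS : TR p p (cR ν S) = 0) {ε : ℝ} (hε : 0 < ε) :
    ∃ C' : ℝ, ∀ (x : ℝ) (D R : Cart X) (n : ℕ), 1 ≤ x → Dx ν p (F 0) η C x D → Un (X.O (P 0).η) (D.eq (P 0).η) →
      D = S ^ n * R → Effective R → (n : ℝ) * TR (cR ν A) (cR ν S) (cR ν (F 0)) ≤ ε * x + C' := by
  have s1 := tr_s12 hr hν hT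
  have s2 := tr_s23 hr hν hT
  have hL0 : 0 ≤ TR (cR ν A) p (cR ν (F 0)) := by
    rw [s1]
    exact tpa_nn h hr hν hT (trdeg_pdiv h (P 0)) (hF.spr 0) hA hp
  obtain ⟨L, hL⟩ : ∃ L, L = TR (cR ν A) p (cR ν (F 0)) := ⟨_, rfl⟩
  rw [← hL] at hL0
  obtain ⟨ε', hε'0, hε'⟩ : ∃ ε' : ℝ, 0 < ε' ∧ ε' * L ≤ ε := by
    refine ⟨ε / (L + 1), by positivity, ?_⟩
    rw [div_mul_eq_mul_div, div_le_iff₀ (by positivity)]
    nlinarith
  obtain ⟨w₀, C', K, hw₀, h1, h2⟩ := key h hr hν hT hA hp h3 hz hF C hε'0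
  obtain ⟨w, hw, hzw⟩ := hz
  have hpp : TR p p ≠ 0 := fun h1 => hzw (by rw [h1, LinearMap.zero_apply])
  obtain ⟨lam, hlam0, hlam⟩ := fam_lam h hr hν hT hp h3 hpp hF
  have hpS : TR p (cR ν S) (cR ν (F 0)) = 0 := by rw [s2, hlam, hzS, mul_zero]
  have hwS : TR w₀ (cR ν S) (cR ν (F 0)) = 0 := vp_tri hr hν hT h.amp hpS hw₀
  refine ⟨|K|, fun x D R n hx hDx hun hDS hR => ?_⟩
  obtain ⟨W, i, hW, hWx, hi, hDW⟩ := hDx.cls
  have hunR : Un (X.O (P 0).η) (R.eq (P 0).η) := by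
    have h4 : D.eq (P 0).η = (S ^ n).eq (P 0).η * R.eq (P 0).η := by rw [hDS]; rfl
    rw [h4] at hun
    refine ((un_mul_iff ?_ (hR _)).1 hun).2
    have : (S ^ n).eq (P 0).η = S.eq (P 0).η ^ n := by
      exact Pool.Agent.H54.RV.pow_eq S n _
    rw [this]
    exact pow_mem (hS.eff _) n
  have h5 := h1 R (hz_eff h hR hunR)
  have h6 := h2 x D W i hW hWx hDW
  have h7 : cR ν D = (n : ℝ) • cR ν S + cR ν R := by
    rw [hDS]
    change rv (ci ν (S ^ n * R)) = _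
    rw [ci_mul, rv_add, ci_pow, rv_smul, Int.cast_natCast]
  have hAff : TR (cR ν A) (cR ν (F 0)) (cR ν (F 0)) = 0 := by
    rw [s1, s2]
    exact h0 _
  rw [hAff, mul_zero, mul_zero, sub_zero, ← hL] at h6
  rcases le_or_gt (TR (cR ν A) (cR ν S) (cR ν (F 0))) 0 with h8 | h8
  · have h9 : (n : ℝ) * TR (cR ν A) (cR ν S) (cR ν (F 0)) ≤ 0 := mul_nonpos_of_nonneg_of_nonpos (Nat.cast_nonneg n) h8
    have h10 : 0 ≤ ε * x := by positivity
    have := abs_nonneg K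
    linarith
  · have h9 : TR ((1 + ε') • cR ν A + -w₀ + C' • p) (cR ν S) (cR ν (F 0)) =
        (1 + ε') * TR (cR ν A) (cR ν S) (cR ν (F 0)) := by
      simp only [map_add, map_smul, map_neg, LinearMap.add_apply, LinearMap.smul_apply, LinearMap.neg_apply,
        smul_eq_mul]
      rw [hwS, hpS]
      ring
    rw [h7, map_add, map_smul, LinearMap.add_apply, LinearMap.smul_apply, smul_eq_mul, h9] at h6
    have h10 := le_abs_self K
    have h11 : ε' * (x * L) ≤ ε * x := by nlinarith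
    have h12 : 0 ≤ (n : ℝ) * (ε' * TR (cR ν A) (cR ν S) (cR ν (F 0))) := by positivity
    nlinarith

end Pool.Agent.H89.RS
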