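import Pool.Agent.H89.RS.Def

/-!
# [H89 RS Fam0] THEOREM R* (MP_e49dc9_ag): the surfaces of the family and `p`

`ff_nn`: `F 0`, `F 1` are distinct prime divisors, so `T(U,F 0,F 1) ≥ 0` for `U` ample (`F 1` has a section on `F 0`; `t_eff_nn` of H89/RT/Mub).
`fam_lam`: for the form `T(p,.,.)` (`hi_real`, `hd_eq` of H20/RT/Hdr) `p` and `F 0` are isotropic and orthogonal and `T(p,p,A) > 0`:
`v = F 0 - lam p`, `lam = T(p,F 0,A) / T(p,p,A)`: `T(p,v,A) = 0 = T(p,v,v)`, so `T(p,v,.) = 0`.  If `T(p,F 0,A) = 0`, then `T(p,F 0,.) = 0`; for the form `T(A,.,.)`: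
`F 0` is orthogonal to `p` with `T(A,p,p) > 0` and `T(A,F 0,F 0) ≥ 0`, so `T(A,F 0,.) = 0` (`hi_real` with `p := A`, `L := p`; `hd_eq`), but `T(A,A,F 0) > 0`.
-/

set_option autoImplicit false

namespace Pool.Agent.H89.RS

open Pool.Agent.H54.RV Pool.Agent.H83.TU Pool.Agent.H83.TK Pool.Agent.H20.TD Pool.Agent.H20.TP Pool.Agent.H20.RT
open Pool.Agent.H24.VP (RR)

variable {k K : Type} [Field k] [Field K] [Algebra k K] {X : Mod k K} {r : ℕ}
  {ν : Cart X →* Multiplicative (Fin r → ℤ)} {T : Cart X → Cart X → Cart X → ℝ} {l₀ : Cart X → ℝ} {c : ℝ} {TR : Tri3 r}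
  {p : Fin r → ℝ} {A : Cart X} {F : ℕ → Cart X} {P : ℕ → PDiv X}

theorem ff_nn [CharZero k] [IsAlgClosed k] [T0Space X.P] (h : Hyp X) (hr : RR T l₀ c) (hν : NumR ν)
    (hT : ∀ U V W, TR (cR ν U) (cR ν V) (cR ν W) = T U V W) (hF : Fm ν TR p F P) (hA : Ample A) :
    0 ≤ TR (cR ν A) (cR ν (F 0)) (cR ν (F 0)) := by
  have htr := trdeg_pdiv h (P 0)
  have htr1 := trdeg_pdiv h (P 1)
  have hne : ¬ (P 1).η ⤳ (P 0).η := by
    intro h1
    have h2 := Pool.Agent.H89.RT.eq_of_sp h.var h1 (htr1.trans htr.symm)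
    exact absurd (hF.inj 0 1 h2.symm) (by norm_num)
  have hX1 : HasX (F 1) {x | ¬ Un (X.O x) (1 * (F 1).eq x)} := by
    refine ⟨1, one_ne_zero, fun x => ?_, rfl⟩
    rw [one_mul, pow_one]
    exact (hF.spr 1).eff x
  have hz0 : (P 0).η ∉ {x | ¬ Un (X.O x) (1 * (F 1).eq x)} := by
    intro h1
    apply h1
    rw [one_mul]
    exact (hF.spr 1).un _ hne
  have hpos : 0 < hz h.var (P 0).η (F 1) := hasS_pos h.var hA (hasX_res h.var hX1 hz0)
  have h1 := Pool.Agent.H89.RT.t_eff_nn h hr htr (hF.spr 0) hA hpos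
  rw [← hT, tr_s12 hr hν hT, hF.num 1, tr_s12 hr hν hT] at h1
  exact h1

theorem fam_lam [CharZero k] [IsAlgClosed k] [T0Space X.P] (h : Hyp X) (hr : RR T l₀ c) (hν : NumR ν)
    (hT : ∀ U V W, TR (cR ν U) (cR ν V) (cR ν W) = T U V W) (hp : p ∈ closure (CC ν)) (h3 : TR p p p = 0)
    (hpp : TR p p ≠ 0) (hF : Fm ν TR p F P) : ∃ lam : ℝ, 0 < lam ∧ ∀ u, TR p (cR ν (F 0)) u = lam * TR p p u := by
  obtain ⟨A₀, hA₀⟩ := h.amp
  obtain ⟨m, -, hA, hb⟩ := exists_bpf h.var hA₀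
  obtain ⟨A, hAdef⟩ : ∃ A, A = A₀ ^ m := ⟨_, rfl⟩
  rw [← hAdef] at hA hb
  have htr := trdeg_pdiv h (P 0)
  have hS := hF.spr 0
  have hAC : cR ν A ∈ CC ν := cc_amp h.var hν hA
  have a1 : 0 < TR p p (cR ν A) := pp_pos h hr hν hT hA hp hpp
  have a2 : 0 ≤ TR p (cR ν A) (cR ν (F 0)) :=
    (ms_nef h hr hν hT htr hS hp).eff A (Pool.Agent.H20.TQ.bpf_res h hb _)
  have a3 : 0 < TR (cR ν A) (cR ν A) (cR ν (F 0)) := by
    rw [hT]
    exact pos_srf h hr htr hS hA hA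
  have a4 := ff_nn h hr hν hT hF hA
  have a5 : 0 < TR p (cR ν A) (cR ν A) := paa_pos h hr hν hT hA hp a1
  have a6 : 0 < TR p (cR ν (F 0)) (cR ν A) := by
    rw [tr_s23 hr hν hT]
    refine lt_of_le_of_ne a2 (fun h0 => ?_)
    have b1 : TR p (cR ν (F 0)) (cR ν A) = 0 := by
      rw [tr_s23 hr hν hT]
      exact h0.symm
    have b2 := hd_eq h hr hν hT hp a5 b1 hF.pFF
    have b3 : 0 < TR (cR ν A) p p := by
      rw [tr_s12 hr hν hT, tr_s23 hr hν hT]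
      exact a1
    have b4 : TR (cR ν A) p (cR ν (F 0)) = 0 := by
      rw [tr_s12 hr hν hT, tr_s23 hr hν hT]
      exact b1
    have b5 := hi_real h hr hν hT (subset_closure hAC) (v := cR ν (F 0)) b3
    rw [b4] at b5
    have b6 : TR (cR ν A) (cR ν (F 0)) (cR ν (F 0)) = 0 := by
      refine le_antisymm ?_ a4
      by_contra h7
      push Not at h7
      have := mul_pos b3 h7
      linarith
    have b7 := hd_eq h hr hν hT (subset_closure hAC) (L := p) (v := cR ν (F 0)) b3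
      (by rw [tr_s23 hr hν hT]; exact b4) b6 (cR ν A)
    rw [tr_s23 hr hν hT] at b7
    exact a3.ne' b7
  refine ⟨TR p (cR ν (F 0)) (cR ν A) / TR p p (cR ν A), div_pos a6 a1, fun u => ?_⟩
  obtain ⟨lam, hl⟩ : ∃ lam, lam = TR p (cR ν (F 0)) (cR ν A) / TR p p (cR ν A) := ⟨_, rfl⟩
  rw [← hl]
  have c1 : TR p (cR ν (F 0) - lam • p) (cR ν A) = 0 := by
    simp only [map_sub, map_smul, LinearMap.sub_apply, LinearMap.smul_apply, smul_eq_mul]
    rw [hl, div_mul_cancel₀ _ a1.ne', sub_self]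
  have c2 : TR p (cR ν (F 0) - lam • p) (cR ν (F 0) - lam • p) = 0 := by
    simp only [map_sub, map_smul, LinearMap.sub_apply, LinearMap.smul_apply, smul_eq_mul]
    rw [hF.pFF, hF.ppF, h3, tr_s23 hr hν hT p (cR ν (F 0)) p, hF.ppF]
    ring
  have c3 := hd_eq h hr hν hT hp a5 c1 c2 u
  simp only [map_sub, map_smul, LinearMap.sub_apply, LinearMap.smul_apply, smul_eq_mul] at c3
  linarith

end Pool.Agent.H89.RS
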