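import Pool.Agent.H89.RS.Def

/-!
# [H89 RS Wrd] THEOREM R* (MP_e49dc9_ag): the leading derivatives of a section are sections on the curve

PROOF.  `f x = s * N.eq x ∈ X.O x`, `f x = u f y`, `u = N.eq x / N.eq y` a unit at `y`.  Leibniz and `Vn` of `f y`: `Vn` of `f x`, and
`rs y (wd a b (f x)) = rs y u * rs y (wd a b (f y))` for `a + b = n` (the other terms have derivatives of `f y` of order `< n`, which vanish at `y`).
`E.eq x ^ n * wd a b (f x)` is, modulo derivatives of `f x` of order `< n` with coefficients in `X.O y`, equal to the word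
`(E.eq x * d 0) ^ a (E.eq x * d 1) ^ b (f x) ∈ X.O x`.
(Induction: if `g = w (f x) + (terms of lower order)`...; a clean way: the set `M j` of the `X.O y`-combinations of the `wd a b (f x)` with `a + b < j`, the
derivations map `M j` to `M (j + 1)`.)  So `rs y (E.eq x ^ n * wd a b (f x))` is in `subO X y x`.
-/

set_option autoImplicit false

namespace Pool.Agent.H89.RS

open Pool.Agent.H54.RV Pool.Agent.H83.TU Pool.Agent.H83.TK Pool.Agent.H20.TD Pool.Agent.H20.TP Pool.Agent.H20.RT
open Pool.Agent.H24.VP (RR)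

variable {k K : Type} [Field k] [Field K] [Algebra k K] {X : Mod k K} {r : ℕ}
  {ν : Cart X →* Multiplicative (Fin r → ℤ)} {T : Cart X → Cart X → Cart X → ℝ} {l₀ : Cart X → ℝ} {c : ℝ} {TR : Tri3 r}
  {p : Fin r → ℝ} {A : Cart X}

private theorem wd_s1 (d : Fin 2 → Derivation k K K) (a b : ℕ) (f : K) :
    wd d a (b + 1) f = wd d a b (d 1 f) := by
  unfold wd
  rw [Function.iterate_succ_apply]

private theorem wd_s0' (d : Fin 2 → Derivation k K K) (a : ℕ) (f : K) :
    wd d (a + 1) 0 f = wd d a 0 (d 0 f) := by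
  unfold wd
  rw [Function.iterate_succ_apply, Function.iterate_zero_apply, Function.iterate_zero_apply]

private theorem wd_s0 {y : X.P} {d : Fin 2 → Derivation k K K} {t : Fin 2 → K} (hJ : Jet X y d t) (a b : ℕ) (f : K) :
    wd d (a + 1) b f = wd d a b (d 0 f) := by
  have h : Function.Commute (⇑(d 0)) (⇑(d 1)) := hJ.cm
  have h1 : d 0 ((⇑(d 1))^[b] f) = (⇑(d 1))^[b] (d 0 f) := h.iterate_right b f
  unfold wd
  rw [Function.iterate_succ_apply, h1]

private theorem vn_d {y : X.P} {d : Fin 2 → Derivation k K K} {t : Fin 2 → K} (hJ : Jet X y d t) {n : ℕ} {f : K}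
    (hf : Vn X y d (n + 1) f) (i : Fin 2) : Vn X y d n (d i f) := by
  refine ⟨hJ.st i f hf.1, fun a b hab => ?_⟩
  have h : i = 0 ∨ i = 1 := by omega
  rcases h with h | h
  · subst h
    rw [← wd_s0 hJ]
    exact hf.2 _ _ (by omega)
  · subst h
    rw [← wd_s1]
    exact hf.2 _ _ (by omega)

private theorem vn_anti {y : X.P} {d : Fin 2 → Derivation k K K} {m n : ℕ} (h : m ≤ n) {f : K}
    (hf : Vn X y d n f) : Vn X y d m f := ⟨hf.1, fun a b hab => hf.2 a b (by omega)⟩

private theorem vn_add {y : X.P} {d : Fin 2 → Derivation k K K} {t : Fin 2 → K} (hJ : Jet X y d t) {n : ℕ} {f g : K}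
    (hf : Vn X y d n f) (hg : Vn X y d n g) : Vn X y d n (f + g) := by
  refine ⟨add_mem hf.1 hg.1, fun a b hab => ?_⟩
  rw [wd_add, rs_add y (wd_mem hJ a b hf.1) (wd_mem hJ a b hg.1), hf.2 a b hab, hg.2 a b hab, add_zero]

private theorem vn_of {y : X.P} {d : Fin 2 → Derivation k K K} {t : Fin 2 → K} (hJ : Jet X y d t) {n : ℕ} {f : K}
    (hf : f ∈ X.O y) (h0 : X.rs y f = 0) (h : ∀ i, Vn X y d n (d i f)) : Vn X y d (n + 1) f := by
  refine ⟨hf, fun a b hab => ?_⟩
  cases b with
  | succ b =>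
    rw [wd_s1]
    exact (h 1).2 a b (by omega)
  | zero =>
    cases a with
    | succ a =>
      rw [wd_s0 hJ]
      exact (h 0).2 a 0 (by omega)
    | zero => exact h0

private theorem vn_mul_aux {y : X.P} {d : Fin 2 → Derivation k K K} {t : Fin 2 → K} (hJ : Jet X y d t) (M : ℕ) :
    ∀ (m n : ℕ) (f g : K), m + n = M → Vn X y d m f → Vn X y d n g → Vn X y d M (f * g) := by
  induction M with
  | zero =>
    intro m n f g _ hf hg
    exact ⟨mul_mem hf.1 hg.1, fun a b hab => absurd hab (Nat.not_lt_zero _)⟩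
  | succ M ih =>
    intro m n f g hM hf hg
    have side : ∀ (m n : ℕ) (f g : K), m + n = M + 1 → Vn X y d m f → Vn X y d n g → ∀ i,
        Vn X y d M (f * d i g) := by
      intro m n f g hM hf hg i
      cases n with
      | zero =>
        have h1 : Vn X y d M f := vn_anti (by omega) hf
        have h2 : Vn X y d 0 (d i g) := ⟨hJ.st i g hg.1, fun a b hab => absurd hab (Nat.not_lt_zero _)⟩
        exact ih M 0 f (d i g) (by omega) h1 h2
      | succ n => exact ih m n f (d i g) (by omega) hf (vn_d hJ hg i)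
    refine vn_of hJ (mul_mem hf.1 hg.1) ?_ fun i => ?_
    · rw [rs_mul y hf.1 hg.1]
      rcases Nat.eq_zero_or_pos m with h | h
      · have h1 : X.rs y g = 0 := hg.2 0 0 (by omega)
        rw [h1, mul_zero]
      · have h1 : X.rs y f = 0 := hf.2 0 0 (by omega)
        rw [h1, zero_mul]
    · rw [Derivation.leibniz, smul_eq_mul, smul_eq_mul]
      exact vn_add hJ (side m n f g hM hf hg i) (side n m g f (by omega) hg hf i)

theorem vn_mul {y : X.P} {d : Fin 2 → Derivation k K K} {t : Fin 2 → K} (hJ : Jet X y d t) {m n : ℕ} {f g : K}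
    (hf : Vn X y d m f) (hg : Vn X y d n g) : Vn X y d (m + n) (f * g) :=
  vn_mul_aux hJ (m + n) m n f g rfl hf hg

private theorem vn_ul {y : X.P} {d : Fin 2 → Derivation k K K} {t : Fin 2 → K} (hJ : Jet X y d t) {n : ℕ} {f u : K}
    (hf : Vn X y d n f) (hu : u ∈ X.O y) : Vn X y d n (u * f) := by
  have h : Vn X y d 0 u := ⟨hu, fun a b hab => absurd hab (Nat.not_lt_zero _)⟩
  have h1 := vn_mul hJ h hf
  rwa [Nat.zero_add] at h1

private theorem ul_aux {y : X.P} {d : Fin 2 → Derivation k K K} {t : Fin 2 → K} (hJ : Jet X y d t) (n : ℕ) :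
    ∀ (a b : ℕ) (f u : K), a + b = n → Vn X y d n f → u ∈ X.O y →
      X.rs y (wd d a b (u * f)) = X.rs y u * X.rs y (wd d a b f) := by
  induction n with
  | zero =>
    intro a b f u hab hf hu
    have ha : a = 0 := by omega
    have hb : b = 0 := by omega
    subst ha hb
    exact rs_mul y hu hf.1
  | succ n ih =>
    intro a b f u hab hf hu
    have key : ∀ (i : Fin 2) (a b : ℕ), a + b = n →
        X.rs y (wd d a b (d i (u * f))) = X.rs y u * X.rs y (wd d a b (d i f)) := by
      intro i a b hab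
      rw [Derivation.leibniz, smul_eq_mul, smul_eq_mul, wd_add,
        rs_add y (wd_mem hJ a b (mul_mem hu (hJ.st i f hf.1))) (wd_mem hJ a b (mul_mem hf.1 (hJ.st i u hu))),
        ih a b (d i f) u hab (vn_d hJ hf i) hu, mul_comm f (d i u),
        (vn_ul hJ hf (hJ.st i u hu)).2 a b (by omega), add_zero]
    cases b with
    | succ b =>
      rw [wd_s1, wd_s1]
      exact key 1 a b (by omega)
    | zero =>
      cases a with
      | succ a =>
        rw [wd_s0', wd_s0']
        exact key 0 a 0 (by omega)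
      | zero => omega

/-- the leading derivatives of a product, `u` a function at `y` -/
theorem wd_ul {y : X.P} {d : Fin 2 → Derivation k K K} {t : Fin 2 → K} (hJ : Jet X y d t) {a b : ℕ} {f u : K}
    (hf : Vn X y d (a + b) f) (hu : u ∈ X.O y) : X.rs y (wd d a b (u * f)) = X.rs y u * X.rs y (wd d a b f) :=
  ul_aux hJ (a + b) a b f u rfl hf hu

/-- the leading derivatives are words in the derivations `e * d i` -/
private theorem word_eq {y : X.P} {d : Fin 2 → Derivation k K K} {t : Fin 2 → K} (hJ : Jet X y d t) {e : K}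
    (he : e ∈ X.O y) (n : ℕ) : ∀ (a b : ℕ) (f : K), a + b = n → Vn X y d n f →
      X.rs y ((fun g => e * d 0 g)^[a] ((fun g => e * d 1 g)^[b] f)) = X.rs y e ^ n * X.rs y (wd d a b f) := by
  induction n with
  | zero =>
    intro a b f hab hf
    have ha : a = 0 := by omega
    have hb : b = 0 := by omega
    subst ha hb
    rw [pow_zero, one_mul]
    rfl
  | succ n ih =>
    intro a b f hab hf
    have key : ∀ (i : Fin 2) (a b : ℕ), a + b = n →
        X.rs y ((fun g => e * d 0 g)^[a] ((fun g => e * d 1 g)^[b] (e * d i f))) =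
          X.rs y e ^ (n + 1) * X.rs y (wd d a b (d i f)) := by
      intro i a b hab
      have h1 := vn_d hJ hf i
      rw [ih a b (e * d i f) hab (vn_ul hJ h1 he), ul_aux hJ n a b (d i f) e hab h1 he, pow_succ, mul_assoc]
    cases b with
    | succ b =>
      rw [wd_s1, Function.iterate_succ_apply]
      exact key 1 a b (by omega)
    | zero =>
      cases a with
      | succ a =>
        rw [wd_s0', Function.iterate_succ_apply, Function.iterate_zero_apply]
        exact key 0 a 0 (by omega)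
      | zero => omega

theorem wrd_sec (hX : IsVar X) {y : X.P} {d : Fin 2 → Derivation k K K} {t : Fin 2 → K} (hJ : Jet X y d t) {E : Cart X}
    (hE : Bd y d E) {N : Cart X} {s : K} (hs : Sec N 1 s) {a b : ℕ} (hv : Vn X y d (a + b) (s * N.eq y)) :
    Sec (resD hX y (N * E ^ (a + b))) 1 (X.rs y (E.eq y ^ (a + b) * wd d a b (s * N.eq y))) := by
  intro x
  have hyx : y ⤳ x.1 := x.2
  have hle := hX.spec y x.1 hyx
  -- the quotients of the local equations
  have hu : N.eq x.1 / N.eq y ∈ X.O y := (quo_un N y x.1 hyx).2.1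
  have hq : (E.eq x.1 / E.eq y) ∈ X.O y := (quo_un E y x.1 hyx).2.1
  have hex : E.eq x.1 ∈ X.O x.1 := hE.eff x.1
  have hey : E.eq y ∈ X.O y := hE.eff y
  have hfx : s * N.eq x.1 ∈ X.O x.1 := by
    have := hs x.1
    rwa [pow_one] at this
  have e1 : s * N.eq x.1 = N.eq x.1 / N.eq y * (s * N.eq y) := by
    have := N.ne y
    field_simp
  have hvx : Vn X y d (a + b) (s * N.eq x.1) := by
    rw [e1]
    exact vn_ul hJ hv hu
  have hw : wd d a b (s * N.eq y) ∈ X.O y := wd_mem hJ a b hv.1
  have h1 : (resD hX y (N * E ^ (a + b))).eq x =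
      X.rs y (N.eq x.1 / N.eq y * (E.eq x.1 / E.eq y) ^ (a + b)) := by
    rw [resD_eq]
    congr 1
    have e2 : (E ^ (a + b)).eq x.1 = E.eq x.1 ^ (a + b) := pow_eq E _ _
    have e3 : (E ^ (a + b)).eq y = E.eq y ^ (a + b) := pow_eq E _ _
    have e4 : (N * E ^ (a + b)).eq x.1 = N.eq x.1 * (E ^ (a + b)).eq x.1 := rfl
    have e5 : (N * E ^ (a + b)).eq y = N.eq y * (E ^ (a + b)).eq y := rfl
    rw [e4, e5, e2, e3, div_pow, mul_div_mul_comm]
  have h2 : X.rs y (E.eq y ^ (a + b) * wd d a b (s * N.eq y)) * (resD hX y (N * E ^ (a + b))).eq x ^ 1 =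
      X.rs y ((fun g => E.eq x.1 * d 0 g)^[a] ((fun g => E.eq x.1 * d 1 g)^[b] (s * N.eq x.1))) := by
    rw [word_eq hJ (hle hex) (a + b) a b _ rfl hvx, e1, wd_ul hJ hv hu, h1, pow_one,
      ← rs_pow y (hle hex), ← rs_mul y hu hw, ← rs_mul y (pow_mem (hle hex) _) (mul_mem hu hw),
      ← rs_mul y (mul_mem (pow_mem hey _) hw) (mul_mem hu (pow_mem hq _))]
    congr 1
    have := E.ne y
    rw [div_pow]
    field_simp
  rw [h2]
  have st : ∀ (i : Fin 2) (n : ℕ) (f : K), f ∈ X.O x.1 → (fun g => E.eq x.1 * d i g)^[n] f ∈ X.O x.1 := by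
    intro i n
    induction n with
    | zero => intro f hf; exact hf
    | succ n ih =>
      intro f hf
      rw [Function.iterate_succ_apply]
      exact ih _ (hE.st x.1 hyx i f hf)
  exact rs_mem_subO hX hyx (st 0 a _ (st 1 b _ hfx))

end Pool.Agent.H89.RS
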