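import Pool.Agent.H89.RS.Q
import Pool.Agent.H89.RS.Klm

/-!
# [H89 RS CaseA] THEOREM R* (MP_e49dc9_ag): the curves on the surfaces `S` with `p . p . S = 0`

PROOF.  `T(F 0,A,S) > 0`: else `F 0` (nef on curves, so in `closure (CC ν)` by `klm`; or directly by `ms_zero`) has degree `0` on `y`.  `a = T(p,A,S) / T(F 0,A,S)`,
`v = p - a F 0`: `T(v,A,S) = 0`, `T(v,v,S) = 0` (`T(p,F 0,S) = lam z(S) = 0`, `T(F 0,F 0,S) = 0`), so `dR y v = 0` (`hc` of H89/RT/Hc).  `a ≥ η`: `D` from `hD`,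
`D = S ^ n * R` with `R` effective, not containing `S` (`n` maximal): `0 ≤ T(R,A,S) = x T(p,A,S) - i T(F 0,A,S) + O(1) - n T(S,A,S)` and `n = o(x)` (`q_mul`),
`i ≥ η x`.
-/

set_option autoImplicit false

namespace Pool.Agent.H89.RS

open Pool.Agent.H54.RV Pool.Agent.H83.TU Pool.Agent.H83.TK Pool.Agent.H20.TD Pool.Agent.H20.TP Pool.Agent.H20.RT
open Pool.Agent.H24.VP (RR)

variable {k K : Type} [Field k] [Field K] [Algebra k K] {X : Mod k K} {r : ℕ}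
  {ν : Cart X →* Multiplicative (Fin r → ℤ)} {T : Cart X → Cart X → Cart X → ℝ} {l₀ : Cart X → ℝ} {c : ℝ} {TR : Tri3 r}
  {p : Fin r → ℝ} {A : Cart X} {F : ℕ → Cart X} {P : ℕ → PDiv X}

private theorem ca_pow (U : Cart X) (n : ℕ) : cR ν (U ^ n) = (n : ℝ) • cR ν U := by
  change rv (ci ν (U ^ n)) = _
  rw [ci_pow, rv_smul, Int.cast_natCast]

private theorem ca_nn [CharZero k] [T0Space X.P] (h : Hyp X) (hν : NumR ν) {z : X.P} {S A : Cart X}
    {e : Fin r → ℝ} (hA : Ample A) (he : MS hν h.var TR z S e) : 0 ≤ TR e (cR ν A) (cR ν S) := by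
  obtain ⟨m, hm, hH, hb⟩ := exists_bpf h.var hA
  have h1 := he.eff _ (Pool.Agent.H20.TQ.bpf_res h hb z)
  rw [ca_pow, map_smul, LinearMap.smul_apply, smul_eq_mul] at h1
  have h3 : (0 : ℝ) < m := by exact_mod_cast hm
  exact nonneg_of_mul_nonneg_right h1 h3

/-- effective divisors which are a power of `S` times one not containing `S` -/
private theorem ca_split [CharZero k] (h : Hyp X) (Q : PDiv X) {S : Cart X} (hS : SPr X Q.η S) {D : Cart X} (hD : Effective D) :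
    ∃ (n : ℕ) (R : Cart X), D = S ^ n * R ∧ Effective R ∧ 0 < hz h.var Q.η R := by
  have h1 : 0 ≤ Q.p.ord (D.eq Q.η) := (ord_nonneg Q.p _ (D.ne _)).2 ((Q.mem _).1 (hD Q.η))
  obtain ⟨R, h2, h3, h4⟩ := Pool.Agent.H32.TK.pow_split h.var Q hS (Q.p.ord (D.eq Q.η)).toNat D hD
    (Int.toNat_of_nonneg h1).symm
  obtain ⟨B, hB⟩ := h.amp
  have hfd := Pool.Agent.H24.TK.fd (isVar_sub h.var Q.η) ⟨_, gen_sub h.var Q.η⟩
    (res_ample h.var Q.η _ hB) (resD h.var Q.η R)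
  exact ⟨_, R, h4, h2, Pool.Agent.H32.TK.res_pos h.var Q.η R h2 h3 hfd⟩

theorem case_a [CharZero k] [IsAlgClosed k] [T0Space X.P] (h : Hyp X) (hr : RR T l₀ c) (hν : NumR ν)
    (hT : ∀ U V W, TR (cR ν U) (cR ν V) (cR ν W) = T U V W)
    (hp : p ∈ closure (CC ν)) (h3 : TR p p p = 0) (hz : ∃ w ∈ Vp p, TR p p w ≠ 0) (hF : Fm ν TR p F P)
    (h0 : ∀ u, TR (cR ν (F 0)) (cR ν (F 0)) u = 0) {η C x₀ : ℝ} (hη : 0 < η)
    (hD : ∀ x, x₀ ≤ x → ∃ D, Dx ν p (F 0) η C x D ∧ Un (X.O (P 0).η) (D.eq (P 0).η))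
    (Q : PDiv X) {S : Cart X} (hS : SPr X Q.η S) (hzS : TR p p (cR ν S) = 0) {y : X.P} (hy : Cv Q.η y)
    (he : 0 < dR hν h.var y (cR ν (F 0))) : η * dR hν h.var y (cR ν (F 0)) ≤ dR hν h.var y p := by
  obtain ⟨A, hA⟩ := h.amp
  have htr := trdeg_pdiv h Q
  have hpp : TR p p ≠ 0 := by
    obtain ⟨w, -, hw⟩ := hz
    intro h1
    exact hw (by rw [h1, LinearMap.zero_apply])
  have s12 := tr_s12 hr hν hT
  have s23 := tr_s23 hr hν hT
  obtain ⟨lam, hlam, hl⟩ := fam_lam h hr hν hT hp h3 hpp hF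
  -- `F 0` is nef
  have hFn : cR ν (F 0) ∈ closure (CC ν) := klm h hr hν hT fun y hy => q_crv h hr hν hT hF h0 hy
  have hMF := ms_nef h hr hν hT htr hS hFn
  have hf : 0 < TR (cR ν (F 0)) (cR ν A) (cR ν S) := by
    rcases (ca_nn h hν hA hMF).eq_or_lt with h1 | h1
    · have h2 := ms_zero h hr hν hT htr hS hA hMF h1.symm
      rw [h2.2 y hy] at he
      exact absurd he (lt_irrefl _)
    · exact h1
  obtain ⟨f, hfd⟩ : ∃ f, f = TR (cR ν (F 0)) (cR ν A) (cR ν S) := ⟨_, rfl⟩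
  rw [← hfd] at hf
  -- the class `v`
  obtain ⟨a, ha⟩ : ∃ a, a = TR p (cR ν A) (cR ν S) / f := ⟨_, rfl⟩
  have haf : a * f = TR p (cR ν A) (cR ν S) := by rw [ha, div_mul_cancel₀ _ hf.ne']
  have hv := Pool.Agent.H89.RT.hc h hr hν hT htr hS hA (v := p - a • cR ν (F 0)) (by
      simp only [map_sub, map_smul, LinearMap.sub_apply, LinearMap.smul_apply, smul_eq_mul]
      rw [← hfd, haf, sub_self]) (by
      simp only [map_sub, map_smul, LinearMap.sub_apply, LinearMap.smul_apply, smul_eq_mul]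
      rw [hzS, s12 (cR ν (F 0)) p, hl, hzS, h0]
      ring) hy
  rw [map_sub, map_smul, smul_eq_mul, sub_eq_zero] at hv
  rw [hv]
  refine mul_le_mul_of_nonneg_right ?_ he.le
  -- `η ≤ a`
  by_contra hcon
  push Not at hcon
  obtain ⟨δ, hδ⟩ : ∃ δ, δ = (η - a) * f := ⟨_, rfl⟩
  have hδ0 : 0 < δ := by
    rw [hδ]
    exact mul_pos (by linarith) hf
  obtain ⟨M, hM0, hM⟩ := Pool.Agent.H89.RT.bil_bd TR (cR ν S)
  obtain ⟨b, hb⟩ : ∃ b, b = |TR (cR ν A) (cR ν S) (cR ν S)| / f := ⟨_, rfl⟩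
  have hb0 : 0 ≤ b := by
    rw [hb]
    positivity
  have hbf : b * f = |TR (cR ν A) (cR ν S) (cR ν S)| := by rw [hb, div_mul_cancel₀ _ hf.ne']
  obtain ⟨ε, hε⟩ : ∃ ε, ε = δ / (2 * (b + 1)) := ⟨_, rfl⟩
  have hε0 : 0 < ε := by
    rw [hε]
    positivity
  have hεb : ε * b ≤ δ / 2 := by
    have h1 : ε * (b + 1) = δ / 2 := by
      rw [hε]
      field_simp
    nlinarith
  obtain ⟨C', hC'⟩ := q_mul h hr hν hT hA hp h3 hz hF h0 (C := C) hη htr hS hzS hε0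
  obtain ⟨x₁, hx₁⟩ := Pool.Agent.H24.ZL.lin_ev (half_pos hδ0) (M * ‖cR ν A‖ * C + C' * b)
  obtain ⟨x, hx⟩ : ∃ x, x = max 1 (max x₀ x₁) := ⟨_, rfl⟩
  have hx1 : 1 ≤ x := by rw [hx]; exact le_max_left _ _
  have hx2 : x₀ ≤ x := by rw [hx]; exact (le_max_left _ _).trans (le_max_right _ _)
  have hx3 := hx₁ x (by rw [hx]; exact (le_max_right _ _).trans (le_max_right _ _))
  obtain ⟨D, hDx, hDu⟩ := hD x hx2
  obtain ⟨n, R, hDR, hR, hzR⟩ := ca_split h Q hS hDx.eff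
  have hn := hC' x D R n hx1 hDx hDu hDR hR
  obtain ⟨W, i, -, hW, hi, hcl⟩ := hDx.cls
  obtain ⟨w, hw⟩ : ∃ w : Fin r → ℝ, w = cR ν W - x • p := ⟨_, rfl⟩
  have hWw : cR ν W = x • p + w := by rw [hw]; abel
  rw [← hw] at hW
  have e1 : cR ν R = x • p + w - (i : ℝ) • cR ν (F 0) - (n : ℝ) • cR ν S := by
    have e2 : cR ν D = (n : ℝ) • cR ν S + cR ν R := by rw [hDR, cR_mul, ca_pow]
    rw [← hWw, ← hcl, e2]
    abel
  have h5 := Pool.Agent.H89.RT.t_eff_nn h hr htr hS hA hzR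
  rw [← hT, e1] at h5
  simp only [map_sub, map_add, map_smul, LinearMap.sub_apply, LinearMap.add_apply, LinearMap.smul_apply, smul_eq_mul]
    at h5
  rw [s12 (cR ν A) p, s12 (cR ν A) (cR ν (F 0)), ← hfd, ← haf] at h5
  rw [s23 (cR ν A) (cR ν S), s12 (cR ν A) (cR ν (F 0)), ← hfd] at hn
  have h6 : TR (cR ν A) w (cR ν S) ≤ M * ‖cR ν A‖ * C := by
    refine (le_abs_self _).trans ((hM _ _).trans ?_)
    exact mul_le_mul_of_nonneg_left hW (by positivity)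
  have h7 : - ((n : ℝ) * TR (cR ν A) (cR ν S) (cR ν S)) ≤ (ε * x + C') * b := by
    calc - ((n : ℝ) * TR (cR ν A) (cR ν S) (cR ν S)) = n * (- TR (cR ν A) (cR ν S) (cR ν S)) := by ring
      _ ≤ n * |TR (cR ν A) (cR ν S) (cR ν S)| :=
        mul_le_mul_of_nonneg_left (neg_le_abs _) (Nat.cast_nonneg n)
      _ = n * f * b := by rw [← hbf]; ring
      _ ≤ (ε * x + C') * b := mul_le_mul_of_nonneg_right hn hb0
  have h8 : η * x * f ≤ i * f := mul_le_mul_of_nonneg_right hi hf.le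
  have h9 : ε * b * x ≤ δ / 2 * x := mul_le_mul_of_nonneg_right hεb (by linarith)
  have h10 : δ * x = (η - a) * f * x := by rw [hδ]
  nlinarith

end Pool.Agent.H89.RS
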