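import Pool.Agent.H89.RS.Q
import Pool.Agent.H89.RS.Klm
import Pool.Agent.H89.RS.Cnt

/-!
# [H89 RS CaseB] THEOREM R* (MP_e49dc9_ag): the other curves

PROOF.  Suppose `dR y p < η e`, `e = dR y (F 0) > 0`.  For `D` as in `Dx` at `x`: `dR y D ≤ - c x + K₁`, `c = η e - dR y p > 0`.  `a` from `ord_a`.
`z = T(p,p,.)`; `z(D) = z(W) ≤ Z₀` for all `D` as in `Dx` (`z(F 0) = 0`, `‖W - x p‖ ≤ C`).
(1) `D'` as in `Dx` at `x'`; `fac_eff`: `D' = (list) * U`; `R'` = the product of the `S` in the list with `z(S) > 0`; the other `S` have `z(S) = 0`, so `y` is not on them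
(`hB`), their degree on `y` is `≥ 0`, so `dR y R' ≤ dR y D'` and `Vn X y d μ' (R'.eq y)` with `μ' ≥ c x' / a - K₂`; `z(R') ≤ Z₀`.
(2) `D` as in `Dx` at `x`: `D = A₁ * R`, `A₁` = the product of the `S` in the list of `D` whose point is one of the points of the components of `R'`, `R` = the rest.
`Cop R R'`.  For each linear functional `φ` there is `K_φ` (depending on `R'`) with `|φ(S)| ≤ K_φ z(S)` for these `S` (finitely many points, `z(S) > 0`; `φ(S)` only depends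
on the point: `spr_R`), so `|φ(A₁)| ≤ K_φ z(A₁) ≤ K_φ Z₀`.  So `dR y R ≤ - c x + K₃`, `Vn X y d μ (R.eq y)` with `μ ≥ c x / a - K₄`, and
`T(F 0,R,R') ≤ T(F 0,D,R') + K₅ = T(F 0,W,R') + K₅ ≤ x lam z(R') + K₆ ≤ x lam Z₀ + K₆` (`T(F 0,F 0,.) = 0`).
(3) `cnt` for ample `U`, so for the nef class `F 0` (`klm`, `q_crv`; closure of the ample cone): `μ μ' e ≤ T(F 0,R,R')`.
So `(c x / a - K₄) (c x' / a - K₂) e ≤ x lam Z₀ + K₆` for all large `x`: `(c / a) (c x' / a - K₂) e ≤ lam Z₀` for all large `x'`: a contradiction.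
-/

set_option autoImplicit false

namespace Pool.Agent.H89.RS

open Pool.Agent.H54.RV Pool.Agent.H83.TU Pool.Agent.H83.TK Pool.Agent.H20.TD Pool.Agent.H20.TP Pool.Agent.H20.RT
open Pool.Agent.H24.VP (RR)

variable {k K : Type} [Field k] [Field K] [Algebra k K] {X : Mod k K} {r : ℕ}
  {ν : Cart X →* Multiplicative (Fin r → ℤ)} {T : Cart X → Cart X → Cart X → ℝ} {l₀ : Cart X → ℝ} {c : ℝ} {TR : Tri3 r}
  {p : Fin r → ℝ} {A : Cart X} {F : ℕ → Cart X} {P : ℕ → PDiv X}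

private theorem cb_unit (hν : NumR ν) {D : Cart X} (hD : Effective D) (hD' : Effective D⁻¹) : cR ν D = 0 := by
  have h1 : NumZ D := fun A hA => ⟨Pool.Agent.H32.TK.ample_unit hA hD hD',
    Pool.Agent.H32.TK.ample_unit hA hD' (by rw [inv_inv]; exact hD)⟩
  have h2 : ν D = 1 := (hν.ker D).2 h1
  show rv (ci ν D) = 0
  have h3 : ci ν D = 0 := by
    unfold ci
    rw [h2]
    rfl
  rw [h3]
  funext i
  simp [rv]

/-- the class of a prime divisor depends on its point only -/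
private theorem cb_spr (hX : IsVar X) (hν : NumR ν) {z : X.P} {S S' : Cart X} (hS : SPr X z S) (hS' : SPr X z S') :
    cR ν S = cR ν S' := by
  have key : ∀ {S S' : Cart X}, SPr X z S → SPr X z S' → Effective (S * S'⁻¹) := by
    intro S S' hS hS' x
    have h1 : (S * S'⁻¹).eq x = S.eq x / S'.eq x := by
      rw [mul_eq, inv_eq, div_eq_mul_inv]
    rw [h1, hS'.mem_iff hX x (hS.eff x)]
    intro hx
    exact hS.nun x hx
  have h1 := cb_unit hν (key hS hS') (by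
    rw [mul_inv, inv_inv, mul_comm]
    exact key hS' hS)
  have h2 : S = S * S'⁻¹ * S' := by rw [inv_mul_cancel_right]
  rw [h2, cR_mul, h1, zero_add]

private theorem cb_lin (φ : (Fin r → ℝ) →ₗ[ℝ] ℝ) (L : List (PDiv X × Cart X)) :
    φ (cR ν (L.map Prod.snd).prod) = (L.map fun x => φ (cR ν x.2)).sum := by
  induction L with
  | nil => rw [List.map_nil, List.prod_nil, List.map_nil, List.sum_nil, cR_one, map_zero]
  | cons S L ih => rw [List.map_cons, List.prod_cons, List.map_cons, List.sum_cons, cR_mul, map_add, ih]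

private theorem cb_split (q : PDiv X × Cart X → Prop) (L : List (PDiv X × Cart X)) :
    ∃ L₁ L₂ : List (PDiv X × Cart X), (∀ x ∈ L₁, x ∈ L ∧ q x) ∧ (∀ x ∈ L₂, x ∈ L ∧ ¬ q x) ∧
      (L.map Prod.snd).prod = (L₁.map Prod.snd).prod * (L₂.map Prod.snd).prod := by
  induction L with
  | nil => exact ⟨[], [], by simp, by simp, by simp⟩
  | cons S L ih =>
    obtain ⟨L₁, L₂, h1, h2, h3⟩ := ih
    by_cases hq : q S
    · refine ⟨S :: L₁, L₂, ?_, fun x hx => ⟨List.mem_cons_of_mem _ (h2 x hx).1, (h2 x hx).2⟩, ?_⟩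
      · intro x hx
        rcases List.mem_cons.1 hx with rfl | hx
        · exact ⟨List.mem_cons_self, hq⟩
        · exact ⟨List.mem_cons_of_mem _ (h1 x hx).1, (h1 x hx).2⟩
      · rw [List.map_cons, List.prod_cons, h3, List.map_cons, List.prod_cons, mul_assoc]
    · refine ⟨L₁, S :: L₂, fun x hx => ⟨List.mem_cons_of_mem _ (h1 x hx).1, (h1 x hx).2⟩, ?_, ?_⟩
      · intro x hx
        rcases List.mem_cons.1 hx with rfl | hx
        · exact ⟨List.mem_cons_self, hq⟩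
        · exact ⟨List.mem_cons_of_mem _ (h2 x hx).1, (h2 x hx).2⟩
      · rw [List.map_cons, List.prod_cons, h3, List.map_cons, List.prod_cons, mul_left_comm]

private theorem cb_eff {L : List (PDiv X × Cart X)} (h : ∀ x ∈ L, SPr X x.1.η x.2) :
    Effective (L.map Prod.snd).prod := Pool.Agent.H32.RT.eff_lprod h

/-- the degree of a divisor which does not contain the curve -/
private theorem cb_un [CharZero k] (h : Hyp X) (hν : NumR ν) {E : Cart X} (hE : Effective E) {y : X.P}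
    (hy : Algebra.trdeg k (X.kap y) = 1) (hu : Un (X.O y) (E.eq y)) : 0 ≤ dR hν h.var y (cR ν E) := by
  have hW : HasX E {x | ¬ Un (X.O x) (1 * E.eq x)} :=
    ⟨1, one_ne_zero, fun x => by
      rw [pow_one, one_mul]
      exact hE x, rfl⟩
  obtain ⟨s, hs0, hs1, -⟩ := hasX_res h.var hW (z := y) (fun h1 => h1 (by
    rw [one_mul]
    exact hu))
  rw [dR_ci hν h.var h.amp hy]
  exact_mod_cast dz_nn h.var h.amp hy hs1 hs0

/-- the order along the curve -/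
private theorem cb_mu [CharZero k] (h : Hyp X) (hν : NumR ν) {y : X.P} (hy : Algebra.trdeg k (X.kap y) = 1)
    {d : Fin 2 → Derivation k K K} {a : ℕ} (ha : 1 ≤ a)
    (hoa : ∀ (N : Cart X) (s : K) (n : ℕ), Sec N 1 s → dz h.var y N + n * a < 0 → Vn X y d (n + 1) (s * N.eq y))
    {R : Cart X} (hR : Effective R) {M : ℝ} (hM : dR hν h.var y (cR ν R) ≤ - M) :
    ∃ μ : ℕ, M / a - 1 ≤ μ ∧ Vn X y d μ (R.eq y) := by
  have ha0 : (0 : ℝ) < a := by exact_mod_cast ha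
  rw [dR_ci hν h.var h.amp hy] at hM
  rcases lt_or_ge (M / a) 1 with h1 | h1
  · exact ⟨0, by push_cast; linarith, hR y, fun a b hab => absurd hab (Nat.not_lt_zero _)⟩
  · have hf1 : 1 ≤ ⌊M / a⌋₊ := Nat.le_floor (by rwa [Nat.cast_one])
    obtain ⟨n, hn⟩ : ∃ n : ℕ, ⌊M / a⌋₊ = n + 1 := ⟨⌊M / a⌋₊ - 1, by omega⟩
    have hf2 := Nat.lt_floor_add_one (M / a)
    have hf3 : (⌊M / a⌋₊ : ℝ) ≤ M / a := Nat.floor_le (by linarith)
    rw [hn] at hf2 hf3
    push_cast at hf2 hf3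
    refine ⟨n + 1, by push_cast; linarith, ?_⟩
    have h2 := hoa R 1 n (fun x => by
      rw [pow_one, one_mul]
      exact hR x) (by
      rw [le_div_iff₀ ha0] at hf3
      have h3 : (dz h.var y R : ℝ) + n * a < 0 := by nlinarith
      exact_mod_cast h3)
    rwa [one_mul] at h2

/-- the intersection inequality for the closure of the ample cone -/
private theorem cb_cnt [CharZero k] [IsAlgClosed k] (h : Hyp X) (hr : RR T l₀ c) (hν : NumR ν)
    (hT : ∀ U V W, TR (cR ν U) (cR ν V) (cR ν W) = T U V W) {y : X.P}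
    (hy : Algebra.trdeg k (X.kap y) = 1) {d : Fin 2 → Derivation k K K} {t : Fin 2 → K} (hJ : Jet X y d t) {E : Cart X}
    (hE : Bd y d E) {R R' : Cart X} (hR : Effective R) (hR' : Effective R') (hc : Cop R R') {μ μ' : ℕ}
    (hv : Vn X y d μ (R.eq y)) (hv' : Vn X y d μ' (R'.eq y)) {v : Fin r → ℝ} (hvc : v ∈ closure (CC ν)) :
    (μ : ℝ) * μ' * dR hν h.var y v ≤ TR v (cR ν R) (cR ν R') := by
  rw [← cl_eq h.var hν] at hvc
  have h1 : IsClosed {v | (μ : ℝ) * μ' * dR hν h.var y v ≤ TR v (cR ν R) (cR ν R')} :=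
    isClosed_le (continuous_const.mul (LinearMap.continuous_of_finiteDimensional _))
      (cont3' TR continuous_id continuous_const continuous_const)
  refine closure_minimal ?_ h1 hvc
  rintro v ⟨m, c', D, hc', hD, rfl⟩
  show (μ : ℝ) * μ' * dR hν h.var y _ ≤ TR _ (cR ν R) (cR ν R')
  simp only [map_sum, map_smul, LinearMap.sum_apply, LinearMap.smul_apply, smul_eq_mul, Finset.mul_sum]
  refine Finset.sum_le_sum fun i _ => ?_
  have h2 := cnt h hr hy hJ hE hR hR' hc hv hv' (hD i)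
  rw [← dR_ci hν h.var h.amp hy, ← hT] at h2
  have h3 := mul_le_mul_of_nonneg_left h2 (hc' i).le
  calc (μ : ℝ) * μ' * (c' i * dR hν h.var y (rv (ci ν (D i)))) =
      c' i * (μ * μ' * dR hν h.var y (cR ν (D i))) := by ring
    _ ≤ _ := h3

/-- the part of an effective divisor with `T(p,p,.) > 0` -/
private theorem cb_part [CharZero k] [IsAlgClosed k] [T0Space X.P] (h : Hyp X) (hr : RR T l₀ c) (hν : NumR ν)
    (hT : ∀ U V W, TR (cR ν U) (cR ν V) (cR ν W) = T U V W) (hp : p ∈ closure (CC ν))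
    {y : X.P} (hy : Algebra.trdeg k (X.kap y) = 1)
    (hB : ∀ (Q : PDiv X) (S : Cart X), SPr X Q.η S → Q.η ⤳ y → TR p p (cR ν S) ≠ 0)
    {D : Cart X} (hD : Effective D) :
    ∃ L : List (PDiv X × Cart X), (∀ x ∈ L, SPr X x.1.η x.2 ∧ 0 < TR p p (cR ν x.2)) ∧
      dR hν h.var y (cR ν (L.map Prod.snd).prod) ≤ dR hν h.var y (cR ν D) ∧
      TR p p (cR ν (L.map Prod.snd).prod) ≤ TR p p (cR ν D) := by
  obtain ⟨Ls, U, h1, h2, h3, h4⟩ := Pool.Agent.H24.VP.fac_eff h hr hD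
  obtain ⟨L₁, L₂, h5, h6, h7⟩ := cb_split (fun x => 0 < TR p p (cR ν x.2)) Ls
  have hU : cR ν U = 0 := cb_unit hν h2 h3
  have e : cR ν D = cR ν (L₁.map Prod.snd).prod + cR ν (L₂.map Prod.snd).prod := by
    rw [h4, h7, cR_mul, cR_mul, hU, add_zero]
  refine ⟨L₁, fun x hx => ⟨h1 x (h5 x hx).1, (h5 x hx).2⟩, ?_, ?_⟩
  · have h8 : 0 ≤ dR hν h.var y (cR ν (L₂.map Prod.snd).prod) := by
      rw [cb_lin]
      refine List.sum_nonneg fun s hs => ?_
      obtain ⟨x, hx, rfl⟩ := List.mem_map.1 hs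
      have h9 := h1 x (h6 x hx).1
      have h10 : TR p p (cR ν x.2) = 0 :=
        le_antisymm (not_lt.1 (h6 x hx).2) (tr_srf h hr hν hT hp x.1 h9)
      exact cb_un h hν h9.eff hy (h9.un y fun h11 => hB x.1 x.2 h9 h11 h10)
    rw [e, map_add]
    linarith
  · have h8 : 0 ≤ TR p p (cR ν (L₂.map Prod.snd).prod) :=
      tr_eff h hr hν hT hp (cb_eff fun x hx => h1 x (h6 x hx).1)
    rw [e, map_add]
    linarith

/-- bounds on the finitely many components -/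
private theorem cb_K (hX : IsVar X) (hν : NumR ν) (φ : (Fin r → ℝ) →ₗ[ℝ] ℝ) (L : List (PDiv X × Cart X))
    (hL : ∀ x ∈ L, SPr X x.1.η x.2 ∧ 0 < TR p p (cR ν x.2)) :
    ∃ M : ℝ, 0 ≤ M ∧ ∀ Q : PDiv X × Cart X, SPr X Q.1.η Q.2 → (∃ S ∈ L, S.1.η = Q.1.η) →
      |φ (cR ν Q.2)| ≤ M * TR p p (cR ν Q.2) := by
  obtain ⟨f, hf⟩ : ∃ f : PDiv X × Cart X → ℝ, ∀ x, f x = |φ (cR ν x.2)| / TR p p (cR ν x.2) := ⟨_, fun _ => rfl⟩
  have h1 : ∀ s ∈ L.map f, 0 ≤ s := by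
    intro s hs
    obtain ⟨x, hx, rfl⟩ := List.mem_map.1 hs
    rw [hf]
    exact div_nonneg (abs_nonneg _) (hL x hx).2.le
  refine ⟨(L.map f).sum, List.sum_nonneg h1, ?_⟩
  rintro Q hQ ⟨S, hS, hSQ⟩
  obtain ⟨h2, h3⟩ := hL S hS
  rw [hSQ] at h2
  have h4 := List.single_le_sum h1 (f S) (List.mem_map.2 ⟨S, hS, rfl⟩)
  rw [hf, div_le_iff₀ h3] at h4
  have h5 : cR ν Q.2 = cR ν S.2 := cb_spr hX hν hQ h2
  rw [h5]
  exact h4

private theorem cb_nun {L : List (PDiv X × Cart X)} {x : X.P}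
    (h : ∀ y ∈ L, Un (X.O x) (y.2.eq x)) : Un (X.O x) ((L.map Prod.snd).prod.eq x) := by
  induction L with
  | nil =>
    rw [List.map_nil, List.prod_nil, one_eq]
    exact ⟨one_ne_zero, (X.O x).one_mem, by rw [inv_one]; exact (X.O x).one_mem⟩
  | cons S L ih =>
    rw [List.map_cons, List.prod_cons, mul_eq]
    exact un_mul (h S List.mem_cons_self) (ih fun y hy => h y (List.mem_cons_of_mem _ hy))

/-- take out the components of `R'` -/
private theorem cb_dec [CharZero k] [IsAlgClosed k] [T0Space X.P] (h : Hyp X) (hr : RR T l₀ c) (hν : NumR ν)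
    (hT : ∀ U V W, TR (cR ν U) (cR ν V) (cR ν W) = T U V W) (hp : p ∈ closure (CC ν))
    {D : Cart X} (hD : Effective D) (L : List (PDiv X × Cart X))
    (hL : ∀ x ∈ L, SPr X x.1.η x.2 ∧ 0 < TR p p (cR ν x.2)) :
    ∃ A₁ R : Cart X, cR ν D = cR ν A₁ + cR ν R ∧ Effective R ∧ Cop R (L.map Prod.snd).prod ∧
      TR p p (cR ν A₁) ≤ TR p p (cR ν D) ∧
      ∀ (φ : (Fin r → ℝ) →ₗ[ℝ] ℝ) (M : ℝ), 0 ≤ M → (∀ Q : PDiv X × Cart X, SPr X Q.1.η Q.2 →
        (∃ S ∈ L, S.1.η = Q.1.η) → |φ (cR ν Q.2)| ≤ M * TR p p (cR ν Q.2)) →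
        |φ (cR ν A₁)| ≤ M * TR p p (cR ν A₁) := by
  obtain ⟨Ls, U, h1, h2, h3, h4⟩ := Pool.Agent.H24.VP.fac_eff h hr hD
  obtain ⟨L₁, L₂, h5, h6, h7⟩ := cb_split (fun x => ∃ S ∈ L, S.1.η = x.1.η) Ls
  have hU : cR ν U = 0 := cb_unit hν h2 h3
  have e : cR ν D = cR ν (L₁.map Prod.snd).prod + cR ν (L₂.map Prod.snd).prod := by
    rw [h4, h7, cR_mul, cR_mul, hU, add_zero]
  have hE : Effective (L₂.map Prod.snd).prod := cb_eff fun x hx => h1 x (h6 x hx).1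
  refine ⟨(L₁.map Prod.snd).prod, (L₂.map Prod.snd).prod, e, hE, ?_, ?_, ?_⟩
  · intro P
    by_contra hcon
    rw [not_or] at hcon
    obtain ⟨hc1, hc2⟩ := hcon
    have h8 : ∃ x ∈ L₂, ¬ Un (X.O P.η) (x.2.eq P.η) := by
      by_contra h9
      push Not at h9
      exact hc1 (cb_nun h9)
    have h9 : ∃ x ∈ L, ¬ Un (X.O P.η) (x.2.eq P.η) := by
      by_contra h9
      push Not at h9
      exact hc2 (cb_nun h9)
    obtain ⟨x, hx, hx1⟩ := h8
    obtain ⟨x', hx', hx1'⟩ := h9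
    have h10 : x.1.η ⤳ P.η := by
      by_contra h11
      exact hx1 ((h1 x (h6 x hx).1).un _ h11)
    have h11 : x'.1.η ⤳ P.η := by
      by_contra h12
      exact hx1' ((hL x' hx').1.un _ h12)
    have h12 := Pool.Agent.H89.RT.eq_of_sp h.var h10 (by rw [trdeg_pdiv h, trdeg_pdiv h])
    have h13 := Pool.Agent.H89.RT.eq_of_sp h.var h11 (by rw [trdeg_pdiv h, trdeg_pdiv h])
    exact (h6 x hx).2 ⟨x', hx', h13.trans h12.symm⟩
  · have h8 : 0 ≤ TR p p (cR ν (L₂.map Prod.snd).prod) := tr_eff h hr hν hT hp hE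
    rw [e, map_add]
    linarith
  · intro φ M hM hφ
    have h8 : ∀ L₁ : List (PDiv X × Cart X), (∀ x ∈ L₁, x ∈ Ls ∧ ∃ S ∈ L, S.1.η = x.1.η) →
        |φ (cR ν (L₁.map Prod.snd).prod)| ≤ M * TR p p (cR ν (L₁.map Prod.snd).prod) := by
      intro L₁
      induction L₁ with
      | nil =>
        intro _
        rw [List.map_nil, List.prod_nil, cR_one, map_zero, map_zero, abs_zero, mul_zero]
      | cons S L₁ ih =>
        intro h9
        rw [List.map_cons, List.prod_cons, cR_mul, map_add, map_add, mul_add]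
        have h10 := ih fun x hx => h9 x (List.mem_cons_of_mem _ hx)
        have h11 := h9 S List.mem_cons_self
        have h12 := hφ S (h1 S h11.1) h11.2
        exact (abs_add_le _ _).trans (add_le_add h12 h10)
    exact h8 L₁ h5

theorem case_b [CharZero k] [IsAlgClosed k] [T0Space X.P] (hSm : Pool.Agent.H20.TU.SmP X) (h : Hyp X) (hr : RR T l₀ c)
    (hν : NumR ν) (hT : ∀ U V W, TR (cR ν U) (cR ν V) (cR ν W) = T U V W)
    (hp : p ∈ closure (CC ν)) (h3 : TR p p p = 0) (hz : ∃ w ∈ Vp p, TR p p w ≠ 0) (hF : Fm ν TR p F P)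
    (h0 : ∀ u, TR (cR ν (F 0)) (cR ν (F 0)) u = 0) {η C x₀ : ℝ} (hη : 0 < η)
    (hD : ∀ x, x₀ ≤ x → ∃ D, Dx ν p (F 0) η C x D ∧ Un (X.O (P 0).η) (D.eq (P 0).η))
    {y : X.P} (hy : Algebra.trdeg k (X.kap y) = 1)
    (hB : ∀ (Q : PDiv X) (S : Cart X), SPr X Q.η S → Q.η ⤳ y → TR p p (cR ν S) ≠ 0)
    (he : 0 < dR hν h.var y (cR ν (F 0))) : η * dR hν h.var y (cR ν (F 0)) ≤ dR hν h.var y p := by
  by_contra hcon
  push Not at hcon
  obtain ⟨e, hee⟩ : ∃ e, e = dR hν h.var y (cR ν (F 0)) := ⟨_, rfl⟩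
  rw [← hee] at he hcon
  obtain ⟨c₁, hc₁⟩ : ∃ c₁, c₁ = η * e - dR hν h.var y p := ⟨_, rfl⟩
  have hc₁0 : 0 < c₁ := by rw [hc₁]; linarith
  have hs12 := tr_s12 hr hν hT
  have hpp : TR p p ≠ 0 := by
    obtain ⟨w, -, hw⟩ := hz
    intro h1
    exact hw (by rw [h1, LinearMap.zero_apply])
  obtain ⟨lam, hlam, hlm⟩ := fam_lam h hr hν hT hp h3 hpp hF
  obtain ⟨d, t, hJ⟩ := ex_jet hSm h hy
  obtain ⟨E, hE⟩ := ex_bd h hJ
  obtain ⟨a, ha, hoa⟩ := ord_a h hy hJ hE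
  have ha0 : (0 : ℝ) < a := by exact_mod_cast ha
  obtain ⟨N₁, hN₁0, hN₁⟩ := lin_bd (dR hν h.var y)
  obtain ⟨N₂, hN₂0, hN₂⟩ := lin_bd (TR p p)
  obtain ⟨K₁, hK₁⟩ : ∃ K₁, K₁ = N₁ * |C| := ⟨_, rfl⟩
  obtain ⟨Z₀, hZ₀⟩ : ∃ Z₀, Z₀ = N₂ * |C| := ⟨_, rfl⟩
  have hZ0 : 0 ≤ Z₀ := by rw [hZ₀]; positivity
  have hFC : cR ν (F 0) ∈ closure (CC ν) := klm h hr hν hT fun y' hy' => q_crv h hr hν hT hF h0 hy'
  -- the degree on the curve
  have kA : ∀ x D, Dx ν p (F 0) η C x D → dR hν h.var y (cR ν D) ≤ -(c₁ * x - K₁) := by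
    rintro x D ⟨-, W, i, -, hW, hi, hDW⟩
    have h1 : cR ν D = (cR ν W - x • p) + x • p - (i : ℝ) • cR ν (F 0) := by rw [hDW]; abel
    rw [h1, map_sub, map_add, map_smul, map_smul, smul_eq_mul, smul_eq_mul, ← hee]
    have h2 := (le_abs_self _).trans (hN₁ (cR ν W - x • p))
    have h4 : N₁ * ‖cR ν W - x • p‖ ≤ K₁ := by
      rw [hK₁]
      exact mul_le_mul_of_nonneg_left (hW.trans (le_abs_self C)) hN₁0
    have h5 : η * x * e ≤ i * e := mul_le_mul_of_nonneg_right hi he.le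
    rw [hc₁]
    linarith
  have kB : ∀ x D, Dx ν p (F 0) η C x D → TR p p (cR ν D) ≤ Z₀ := by
    rintro x D ⟨-, W, i, -, hW, hi, hDW⟩
    have h1 : cR ν D = (cR ν W - x • p) + x • p - (i : ℝ) • cR ν (F 0) := by rw [hDW]; abel
    rw [h1, map_sub, map_add, map_smul, map_smul, smul_eq_mul, smul_eq_mul, h3, hF.ppF]
    have h2 := (le_abs_self _).trans (hN₂ (cR ν W - x • p))
    have h4 : N₂ * ‖cR ν W - x • p‖ ≤ Z₀ := by
      rw [hZ₀]
      exact mul_le_mul_of_nonneg_left (hW.trans (le_abs_self C)) hN₂0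
    linarith
  -- the choice of `x'`
  obtain ⟨G, hG⟩ : ∃ G, G = c₁ / a := ⟨_, rfl⟩
  have hG0 : 0 < G := by rw [hG]; positivity
  obtain ⟨x₁, hx₁⟩ := Pool.Agent.H24.ZL.lin_ev (show 0 < G * G * e by positivity)
    (lam * Z₀ + G * (K₁ / a + 1) * e)
  obtain ⟨x', hx'⟩ : ∃ x', x' = max x₀ x₁ := ⟨_, rfl⟩
  have hx'0 : x₀ ≤ x' := by rw [hx']; exact le_max_left _ _
  have hx'1 := hx₁ x' (by rw [hx']; exact le_max_right _ _)
  obtain ⟨D', hD', -⟩ := hD x' hx'0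
  obtain ⟨L, hL, hL1, hL2⟩ := cb_part h hr hν hT hp hy hB hD'.eff
  obtain ⟨R', hR'⟩ : ∃ R', R' = (L.map Prod.snd).prod := ⟨_, rfl⟩
  have hR'e : Effective R' := by
    rw [hR']
    exact cb_eff fun x hx => (hL x hx).1
  rw [← hR'] at hL1 hL2
  obtain ⟨μ', hμ', hv'⟩ := cb_mu h hν hy ha hoa hR'e (hL1.trans (kA x' D' hD'))
  obtain ⟨B, hBd⟩ : ∃ B, B = G * x' - (K₁ / a + 1) := ⟨_, rfl⟩
  have hBμ : B ≤ μ' := by
    rw [hBd, hG]
    refine le_trans (le_of_eq ?_) hμ'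
    rw [sub_div]
    ring
  have hBG : lam * Z₀ < G * B * e := by
    rw [hBd]
    linarith
  have hB0 : 0 < B := by
    by_contra h1
    push Not at h1
    have h2 : G * B * e ≤ 0 := by
      have h4 : G * e * B ≤ 0 := mul_nonpos_of_nonneg_of_nonpos (by positivity) h1
      linarith
    have h4 : 0 ≤ lam * Z₀ := by positivity
    linarith
  -- the functionals
  obtain ⟨φ, hφ⟩ : ∃ φ : (Fin r → ℝ) →ₗ[ℝ] ℝ, φ = (TR (cR ν (F 0))).flip (cR ν R') := ⟨_, rfl⟩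
  have hφa : ∀ u, φ u = TR (cR ν (F 0)) u (cR ν R') := fun u => by
    rw [hφ]
    rfl
  obtain ⟨N₃, hN₃0, hN₃⟩ := lin_bd φ
  obtain ⟨M₁, hM₁0, hM₁⟩ := cb_K h.var hν (dR hν h.var y) L hL
  obtain ⟨M₂, hM₂0, hM₂⟩ := cb_K h.var hν φ L hL
  obtain ⟨K₄, hK₄⟩ : ∃ K₄, K₄ = (K₁ + M₁ * Z₀) / a + 1 := ⟨_, rfl⟩
  obtain ⟨x₂, hx₂⟩ := Pool.Agent.H24.ZL.lin_ev (show 0 < G * B * e - lam * Z₀ by linarith)
    (K₄ * B * e + N₃ * |C| + M₂ * Z₀)
  obtain ⟨x₃, hx₃⟩ := Pool.Agent.H24.ZL.lin_ev hG0 K₄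
  obtain ⟨x, hx⟩ : ∃ x, x = max (max x₀ 0) (max x₂ x₃) := ⟨_, rfl⟩
  have hxa : x₀ ≤ x := by rw [hx]; exact (le_max_left _ _).trans (le_max_left _ _)
  have hxb : 0 ≤ x := by rw [hx]; exact (le_max_right _ _).trans (le_max_left _ _)
  have hxc := hx₂ x (by rw [hx]; exact (le_max_left _ _).trans (le_max_right _ _))
  have hxd := hx₃ x (by rw [hx]; exact (le_max_right _ _).trans (le_max_right _ _))
  obtain ⟨D, hDx, -⟩ := hD x hxa
  obtain ⟨A₁, R, hAR, hRe, hCop, hzA, hbd⟩ := cb_dec h hr hν hT hp hDx.eff L hL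
  rw [← hR'] at hCop
  have hzA2 := hzA.trans (kB x D hDx)
  have b1 := hbd _ M₁ hM₁0 hM₁
  have b2 := hbd _ M₂ hM₂0 hM₂
  have b1' := b1.trans (mul_le_mul_of_nonneg_left hzA2 hM₁0)
  have b2' := b2.trans (mul_le_mul_of_nonneg_left hzA2 hM₂0)
  have hdR : dR hν h.var y (cR ν R) ≤ -(c₁ * x - K₁ - M₁ * Z₀) := by
    have h1 := kA x D hDx
    rw [hAR, map_add] at h1
    have h2 := (abs_le.1 b1').1
    linarith
  obtain ⟨μ, hμ, hv⟩ := cb_mu h hν hy ha hoa hRe hdR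
  have hμG : G * x - K₄ ≤ μ := by
    rw [hK₄, hG]
    refine le_trans (le_of_eq ?_) hμ
    rw [sub_div, sub_div, add_div]
    ring
  have hcnt := cb_cnt h hr hν hT hy hJ hE hRe hR'e hCop hv hv' hFC
  rw [← hee, ← hφa] at hcnt
  have hφR : φ (cR ν R) ≤ x * (lam * Z₀) + N₃ * |C| + M₂ * Z₀ := by
    have h1 : φ (cR ν D) ≤ x * (lam * Z₀) + N₃ * |C| := by
      obtain ⟨-, W, i, -, hW, hi, hDW⟩ := hDx
      have h1 : cR ν D = (cR ν W - x • p) + x • p - (i : ℝ) • cR ν (F 0) := by rw [hDW]; abel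
      have h2 : φ (cR ν (F 0)) = 0 := by rw [hφa, h0]
      have h4 : φ p = lam * TR p p (cR ν R') := by rw [hφa, hs12, hlm]
      rw [h1, map_sub, map_add, map_smul, map_smul, smul_eq_mul, smul_eq_mul, h2, h4]
      have h5 := (le_abs_self _).trans (hN₃ (cR ν W - x • p))
      have h6 : N₃ * ‖cR ν W - x • p‖ ≤ N₃ * |C| := mul_le_mul_of_nonneg_left (hW.trans (le_abs_self C)) hN₃0
      have h7 : x * (lam * TR p p (cR ν R')) ≤ x * (lam * Z₀) :=
        mul_le_mul_of_nonneg_left (mul_le_mul_of_nonneg_left (hL2.trans (kB x' D' hD')) hlam.le) hxb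
      linarith
    rw [hAR, map_add] at h1
    have h2 := (abs_le.1 b2').1
    linarith
  have h5 : (G * x - K₄) * B * e ≤ μ * μ' * e := by
    have h6 : (G * x - K₄) * B ≤ μ * μ' := mul_le_mul hμG hBμ hB0.le (Nat.cast_nonneg _)
    exact mul_le_mul_of_nonneg_right h6 he.le
  have h6 := (h5.trans hcnt).trans hφR
  have h7 : (G * x - K₄) * B * e = (G * B * e - lam * Z₀) * x + x * (lam * Z₀) - K₄ * B * e := by ring
  rw [h7] at h6
  linarith

end Pool.Agent.H89.RS
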