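import Pool.Agent.H20.TU.SmP
import Pool.Agent.H20.TP.Cur
import Pool.Agent.H89.RT.Main

/-!
# [H89 RS Def] THEOREM R* (MP_e49dc9_ag): definitions

`y` is a point of `X`, the generic point of a curve.  `d 0`, `d 1` are commuting derivations of `K` over `k` which map the local
ring at `y` to itself, `t 0`, `t 1` are elements of its maximal ideal with `d i (t j) = δ_ij` (`Jet`).

* `Vn X y d n f`: all the derivatives of `f` by `d 0`, `d 1` of order `< n` are zero at `y`.
* `secV hJ N n`: the sections `s` of `N` with `Vn X y d n (s * N.eq y)`.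
* `Bd y d E`: `E.eq x * d i` maps the local ring at `x` to itself for all `x` on the curve.
* `Cop R R'`: no common component.
* `Fm ν TR p F P`: the family `F i` of prime divisors of `(b)`.
* `Dx ν p G η K x D`: `D` is effective, of the class `W - i G` with `W` integral in `Vp p`, `‖W - x p‖ ≤ K`, `η x ≤ i`.
-/

set_option autoImplicit false

namespace Pool.Agent.H89.RS

open Pool.Agent.H54.RV Pool.Agent.H83.TU Pool.Agent.H83.TK Pool.Agent.H20.TD Pool.Agent.H20.TP Pool.Agent.H20.RT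

variable {k K : Type} [Field k] [Field K] [Algebra k K] {X : Mod k K} {r : ℕ}
  {ν : Cart X →* Multiplicative (Fin r → ℤ)}

/-- commuting derivations at `y` and functions which vanish at `y` -/
structure Jet (X : Mod k K) (y : X.P) (d : Fin 2 → Derivation k K K) (t : Fin 2 → K) : Prop where
  st : ∀ i, ∀ f ∈ X.O y, d i f ∈ X.O y
  cm : ∀ f, d 0 (d 1 f) = d 1 (d 0 f)
  mem : ∀ i, t i ∈ X.O y
  zero : ∀ i, X.rs y (t i) = 0
  dual : ∀ i j, d i (t j) = if i = j then 1 else 0

/-- the derivative `d 0 ^ a d 1 ^ b` -/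
def wd (d : Fin 2 → Derivation k K K) (a b : ℕ) (f : K) : K := (⇑(d 0))^[a] ((⇑(d 1))^[b] f)

/-- the derivatives of order `< n` vanish at `y` -/
def Vn (X : Mod k K) (y : X.P) (d : Fin 2 → Derivation k K K) (n : ℕ) (f : K) : Prop :=
  f ∈ X.O y ∧ ∀ a b, a + b < n → X.rs y (wd d a b f) = 0

theorem wd_add (d : Fin 2 → Derivation k K K) (a b : ℕ) (f g : K) : wd d a b (f + g) = wd d a b f + wd d a b g := by
  unfold wd
  rw [iterate_map_add, iterate_map_add]

theorem wd_smul (d : Fin 2 → Derivation k K K) (a b : ℕ) (c : k) (f : K) : wd d a b (c • f) = c • wd d a b f := by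
  have h : ∀ (δ : Derivation k K K) (n : ℕ) (f : K), (⇑δ)^[n] (c • f) = c • (⇑δ)^[n] f := by
    intro δ n
    induction n with
    | zero => intro f; rfl
    | succ n ih =>
      intro f
      rw [Function.iterate_succ_apply, Function.iterate_succ_apply, Derivation.map_smul, ih]
  unfold wd
  rw [h, h]

theorem wd_mem {y : X.P} {d : Fin 2 → Derivation k K K} {t : Fin 2 → K} (hJ : Jet X y d t) (a b : ℕ) {f : K}
    (hf : f ∈ X.O y) : wd d a b f ∈ X.O y := by
  have h : ∀ (i : Fin 2) (n : ℕ) (f : K), f ∈ X.O y → (⇑(d i))^[n] f ∈ X.O y := by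
    intro i n
    induction n with
    | zero => intro f hf; exact hf
    | succ n ih =>
      intro f hf
      rw [Function.iterate_succ_apply]
      exact ih _ (hJ.st i f hf)
  exact h 0 a _ (h 1 b _ hf)

/-- the sections of `N` whose derivatives of order `< n` vanish at `y` -/
def secV {y : X.P} {d : Fin 2 → Derivation k K K} {t : Fin 2 → K} (hJ : Jet X y d t) (N : Cart X) (n : ℕ) :
    Submodule k K where
  carrier := {s | Sec N 1 s ∧ Vn X y d n (s * N.eq y)}
  zero_mem' := by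
    refine ⟨(secL N 1).zero_mem, ?_⟩
    rw [zero_mul]
    refine ⟨zero_mem _, fun a b _ => ?_⟩
    have h1 := wd_smul d a b (0 : k) (0 : K)
    rw [zero_smul, zero_smul] at h1
    rw [h1, rs_zero]
  add_mem' := fun {s s'} hs hs' => by
    refine ⟨(secL N 1).add_mem hs.1 hs'.1, ?_⟩
    rw [add_mul]
    refine ⟨add_mem hs.2.1 hs'.2.1, fun a b hab => ?_⟩
    rw [wd_add, rs_add y (wd_mem hJ a b hs.2.1) (wd_mem hJ a b hs'.2.1), hs.2.2 a b hab, hs'.2.2 a b hab, add_zero]
  smul_mem' := fun c s hs => by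
    refine ⟨(secL N 1).smul_mem c hs.1, ?_⟩
    rw [Algebra.smul_mul_assoc]
    refine ⟨(X.O y).smul_mem hs.2.1 c, fun a b hab => ?_⟩
    rw [wd_smul, Algebra.smul_def, rs_mul y ((X.O y).algebraMap_mem c) (wd_mem hJ a b hs.2.1), hs.2.2 a b hab, mul_zero]

theorem mem_secV {y : X.P} {d : Fin 2 → Derivation k K K} {t : Fin 2 → K} (hJ : Jet X y d t) (N : Cart X) (n : ℕ)
    (s : K) : s ∈ secV hJ N n ↔ Sec N 1 s ∧ Vn X y d n (s * N.eq y) := Iff.rfl

/-- a bound for the poles of the derivations on the curve `y` -/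
structure Bd (y : X.P) (d : Fin 2 → Derivation k K K) (E : Cart X) : Prop where
  eff : Effective E
  un : Un (X.O y) (E.eq y)
  st : ∀ x, y ⤳ x → ∀ i, ∀ f ∈ X.O x, E.eq x * d i f ∈ X.O x

/-- no common component -/
def Cop (R R' : Cart X) : Prop := ∀ P : PDiv X, Un (X.O P.η) (R.eq P.η) ∨ Un (X.O P.η) (R'.eq P.η)

variable (ν) in
/-- the family `(b)` -/
structure Fm (TR : Tri3 r) (p : Fin r → ℝ) (F : ℕ → Cart X) (P : ℕ → PDiv X) : Prop where
  inj : ∀ i j, (P i).η = (P j).η → i = j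
  spr : ∀ i, SPr X (P i).η (F i)
  num : ∀ i u v, TR (cR ν (F i)) u v = TR (cR ν (F 0)) u v
  ppF : TR p p (cR ν (F 0)) = 0
  pFF : TR p (cR ν (F 0)) (cR ν (F 0)) = 0

variable (ν) in
/-- effective divisors near `x (p - η G)`, `G` the family -/
structure Dx (p : Fin r → ℝ) (G : Cart X) (η C x : ℝ) (D : Cart X) : Prop where
  eff : Effective D
  cls : ∃ (W : Cart X) (i : ℕ), cR ν W ∈ Vp p ∧ ‖cR ν W - x • p‖ ≤ C ∧ η * x ≤ i ∧ cR ν D = cR ν W - (i : ℝ) • cR ν G

end Pool.Agent.H89.RS
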