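import Pool.Agent.H89.RS.Fam0
import Pool.Agent.H89.ZN.Red
import Pool.Agent.H24.ZL.LowZ
import Pool.Agent.H41.RT.WW

/-!
# [H89 RS Eff] THEOREM R* (MP_e49dc9_ag): effective divisors of the classes `W - i F 0`, `W` near `x p`

PROOF.  (1) `u` integral in `Vp p` with `T(p,p,u) > 0` (`vp_sum`).  `G i`, `q i` from `red_lin` (see the frame translation in H36/RZ/Sq: `p = ∑ q i G i`,
the `q i` linearly independent over `ℚ`); the `G i` span `Vp p`.  For `x` large there is `W = ∏ G i ^ n i` with `‖W - x p‖ ≤ C`, `T(p,p,W) ≥ 1` (a near point plus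
`N u`).  `low_z'` (H24/ZL/LowZ): `h0 W ≥ chi W - C ≥ x ^ 2 / 2 - C x` (`T(W,W,W) = 3 x ^ 2 T(p,p,W) + O(x)`, `l W = O(x)`).
(2) On `z = (P 0).η`: `hz z (W * (F 0 ^ j)⁻¹) ≤ C₂ x` for all `j`: `crv_z` of H89/RT/Tz: `J` steps `hz V ≤ hz (V * (A ^ m)⁻¹) + h0 (φ V)`; after `J` steps
`T(p,V,F 0) = lam T(p,p,W) - J m lam T(p,p,A) < 0`, so `hz z V = 0` (`T(p,V,F 0) ≥ 0` if `V` has a section on `z`: `p` nef); the degrees of `φ V` are
`m T(V,A,F 0) ≤ m T(W,A,F 0) = O(x)` (`ff_nn`), `h0 (φ V) ≤ max(degree, 0) + const` (`h0_le_dg`, `h0_neg`).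
(3) `h0 (W * (F 0 ^ i)⁻¹) ≥ h0 W - ∑_(j < i) hz z (W * (F 0 ^ j)⁻¹) > 0` for `i = ⌈η x⌉`, `η = 1 / (4 C₂)`.
(4) Take out `F 0` from the effective divisor as often as possible (`T(A,A,.)` decreases): this only increases `i`.
-/

set_option autoImplicit false

namespace Pool.Agent.H89.RS

open Pool.Agent.H54.RV Pool.Agent.H83.TU Pool.Agent.H83.TK Pool.Agent.H20.TD Pool.Agent.H20.TP Pool.Agent.H20.RT
open Pool.Agent.H24.VP (RR)

variable {k K : Type} [Field k] [Field K] [Algebra k K] {X : Mod k K} {r : ℕ}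
  {ν : Cart X →* Multiplicative (Fin r → ℤ)} {T : Cart X → Cart X → Cart X → ℝ} {l₀ : Cart X → ℝ} {c : ℝ} {TR : Tri3 r}
  {p : Fin r → ℝ} {A : Cart X} {F : ℕ → Cart X} {P : ℕ → PDiv X}

private theorem ed_inv (U : Cart X) : cR ν U⁻¹ = - cR ν U := by
  have h1 : cR ν (U * U⁻¹) = 0 := by rw [mul_inv_cancel, cR_one]
  rw [cR_mul] at h1
  exact eq_neg_of_add_eq_zero_right h1

private theorem ed_pow (U : Cart X) (n : ℕ) : cR ν (U ^ n) = (n : ℝ) • cR ν U := by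
  change rv (ci ν (U ^ n)) = _
  rw [ci_pow, rv_smul]
  push_cast
  rfl

/-- the integral classes of `Vp p` near `x p` with `T(p,p,.) ≥ 1`: many sections -/
private theorem ed_low [CharZero k] [IsAlgClosed k] [T0Space X.P] (h : Hyp X) (hr : RR T l₀ c) (hν : NumR ν)
    (hT : ∀ U V W, TR (cR ν U) (cR ν V) (cR ν W) = T U V W) {l : (Fin r → ℝ) →ₗ[ℝ] ℝ} (hl : ∀ D, l (cR ν D) = l₀ D)
    (hA : Ample A) (hp : p ∈ closure (CC ν)) (h3 : TR p p p = 0) (hz : ∃ w ∈ Vp p, TR p p w ≠ 0)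
    (hpA : 0 < TR p p (cR ν A)) :
    ∃ C₀ C₁ x₀ : ℝ, ∀ x, x₀ ≤ x → ∃ W : Cart X, cR ν W ∈ Vp p ∧ ‖cR ν W - x • p‖ ≤ C₀ ∧
      x ^ 2 / 2 - C₁ * x ≤ h0 W 1 := by
  classical
  have s1 := tr_s12 hr hν hT
  have s2 := tr_s23 hr hν hT
  have hβ0 : 0 < TR p (cR ν A) (cR ν A) := paa_pos h hr hν hT hA hp hpA
  obtain ⟨s, q, cc, hlin, hpq⟩ := Pool.Agent.H89.ZN.red_lin p
  choose G hG using fun i : Fin s => ci_surj hν (fun j => cc j i)
  obtain ⟨hgV, hspan⟩ := Pool.Agent.H41.RT.frm (p := p) hlin hpq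
  have hcG : ∀ i, cR ν (G i) = rv (fun j => cc j i) := fun i => by
    change rv (ci ν (G i)) = _
    rw [hG]
  have hlin' : ∀ z : Fin s → ℤ, ∑ i, q i * z i = 0 → z = 0 := fun z hz => hlin z (by
    rw [← hz]
    exact Finset.sum_congr rfl fun i _ => mul_comm _ _)
  have hpG : p = ∑ i, q i • cR ν (G i) := by
    funext j
    rw [Finset.sum_apply, hpq]
    refine Finset.sum_congr rfl fun i _ => ?_
    rw [Pi.smul_apply, smul_eq_mul, mul_comm, hcG]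
    rfl
  have hGV : ∀ i, cR ν (G i) ∈ Vp p := fun i => by
    rw [hcG]
    exact hgV i
  have ht1 : ∀ U V, Pool.Agent.H24.ZL.t1 T G q U V = TR p (cR ν U) (cR ν V) := by
    intro U V
    unfold Pool.Agent.H24.ZL.t1
    conv_rhs => rw [hpG]
    simp only [map_sum, map_smul, LinearMap.sum_apply, LinearMap.smul_apply, smul_eq_mul]
    exact Finset.sum_congr rfl fun i _ => by rw [← hT]
  have hbf : Pool.Agent.H24.ZL.bf T A G q q = TR p p (cR ν A) := by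
    rw [Pool.Agent.H36.RZ.bf_t1 hr.tri]
    have e1 : TR p p (cR ν A) = TR p (∑ i, q i • cR ν (G i)) (cR ν A) := by rw [← hpG]
    rw [e1]
    simp only [map_sum, map_smul, LinearMap.sum_apply, LinearMap.smul_apply, smul_eq_mul]
    exact Finset.sum_congr rfl fun i _ => by rw [ht1]
  have hnef : ∀ E B : Cart X, Ample B → (∀ W, Ample W → 0 < T W E B) → 0 ≤ Pool.Agent.H24.ZL.t1 T G q E B := by
    intro E B _ hE
    rw [ht1]
    rw [← cl_eq h.var hν] at hp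
    have h2 : ∀ x ∈ AmpR ν, 0 ≤ TR x (cR ν E) (cR ν B) := by
      rintro x ⟨m₁, c₁, D₁, a1, a2, rfl⟩
      simp only [map_sum, map_smul, LinearMap.sum_apply, LinearMap.smul_apply, smul_eq_mul]
      refine Finset.sum_nonneg fun i _ => mul_nonneg (a1 i).le ?_
      have := hT (D₁ i) E B
      rw [this]
      exact (hE _ (a2 i)).le
    exact closure_minimal h2 (isClosed_le continuous_const (cont3' TR continuous_id continuous_const continuous_const)) hp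
  -- the direction in which `T(p,p,.)` is positive
  obtain ⟨i₀, hi₀⟩ : ∃ i, TR p p (cR ν (G i)) ≠ 0 := by
    by_contra hcon
    push Not at hcon
    obtain ⟨w, hw, hw0⟩ := hz
    obtain ⟨t, rfl⟩ := hspan w hw
    apply hw0
    rw [map_sum]
    refine Finset.sum_eq_zero fun i _ => ?_
    rw [map_smul, ← hcG, hcon, smul_zero]
  obtain ⟨Sb, hSb⟩ : ∃ Sb : ℝ, Sb = ∑ i, |TR p p (cR ν (G i))| := ⟨_, rfl⟩
  obtain ⟨σ, hσ⟩ : ∃ σ : ℤ, 1 + Sb ≤ σ * TR p p (cR ν (G i₀)) := by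
    rcases lt_or_gt_of_ne hi₀ with h4 | h4
    · obtain ⟨N, hN⟩ := exists_nat_ge ((1 + Sb) / (- TR p p (cR ν (G i₀))))
      rw [div_le_iff₀ (by linarith)] at hN
      refine ⟨-N, ?_⟩
      push_cast
      linarith
    · obtain ⟨N, hN⟩ := exists_nat_ge ((1 + Sb) / TR p p (cR ν (G i₀)))
      rw [div_le_iff₀ h4] at hN
      exact ⟨N, by exact_mod_cast hN⟩
  obtain ⟨R, hR⟩ : ∃ R : ℝ, R = 1 + |(σ : ℝ)| := ⟨_, rfl⟩
  have hR0 : 0 ≤ R := by
    rw [hR]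
    positivity
  obtain ⟨C', x₁, hlow⟩ := Pool.Agent.H24.ZL.low_z' (p := q) (G := G) h hr hA hlin' hnef (by rw [ht1]; exact hβ0)
    (by rw [hbf]; exact hpA) R
  obtain ⟨C₀, hC₀⟩ : ∃ C₀ : ℝ, C₀ = ∑ i, R * ‖cR ν (G i)‖ := ⟨_, rfl⟩
  have hC₀0 : 0 ≤ C₀ := by
    rw [hC₀]
    exact Finset.sum_nonneg fun i _ => mul_nonneg hR0 (norm_nonneg _)
  obtain ⟨M, hM0, hM⟩ := tri_bd TR
  obtain ⟨L, hL0, hL⟩ := lin_bd l
  obtain ⟨C₁, hC₁⟩ : ∃ C₁ : ℝ, C₁ = M * ‖p‖ * C₀ * C₀ / 2 + |l p| + (M * C₀ * C₀ * C₀ / 6 + L * C₀ + |c| + |C'|) :=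
    ⟨_, rfl⟩
  refine ⟨C₀, C₁, max 1 x₁, fun x hx => ?_⟩
  have hx1 : 1 ≤ x := (le_max_left _ _).trans hx
  have hx2 : x₁ ≤ x := (le_max_right _ _).trans hx
  obtain ⟨n, hn⟩ : ∃ n : Fin s → ℤ, ∀ i, n i = ⌊x * q i⌋ + Pi.single (M := fun _ => ℤ) i₀ σ i := ⟨_, fun _ => rfl⟩
  obtain ⟨e, he⟩ : ∃ e : Fin s → ℝ, ∀ i, e i = (⌊x * q i⌋ : ℝ) - x * q i := ⟨_, fun _ => rfl⟩
  have heb : ∀ i, |e i| ≤ 1 := by
    intro i
    rw [he, abs_le]
    have h4 := Int.floor_le (x * q i)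
    have h5 := Int.lt_floor_add_one (x * q i)
    constructor <;> linarith
  have hne : ∀ i, (n i : ℝ) - x * q i = e i + (Pi.single (M := fun _ => ℤ) i₀ σ i : ℤ) := by
    intro i
    rw [hn, he]
    push_cast
    ring
  have hnb : ∀ i, |(n i : ℝ) - x * q i| ≤ R := by
    intro i
    rw [hne, hR]
    refine (abs_add_le _ _).trans (add_le_add (heb i) ?_)
    by_cases hi : i = i₀
    · rw [hi, Pi.single_eq_same]
    · rw [Pi.single_eq_of_ne hi, Int.cast_zero, abs_zero]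
      exact abs_nonneg _
  have hh := hlow n x hx2 hnb
  obtain ⟨W, hW⟩ : ∃ W, W = ∏ i, G i ^ n i := ⟨_, rfl⟩
  rw [← hW] at hh
  have hcW : cR ν W = ∑ i, (n i : ℝ) • cR ν (G i) := by
    have e1 : ci ν W = ∑ i, n i • ci ν (G i) := by
      rw [hW]
      unfold ci
      rw [map_prod, toAdd_prod]
      exact Finset.sum_congr rfl fun i _ => by rw [map_zpow, toAdd_zpow]
    change rv (ci ν W) = _
    rw [e1]
    funext j
    simp [rv, Finset.sum_apply]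
  have hWV : cR ν W ∈ Vp p := by
    rw [hcW]
    exact Submodule.sum_mem _ fun i _ => Submodule.smul_mem _ _ (hGV i)
  obtain ⟨v, hv⟩ : ∃ v, v = cR ν W - x • p := ⟨_, rfl⟩
  have hvs : v = ∑ i, ((n i : ℝ) - x * q i) • cR ν (G i) := by
    rw [hv, hcW]
    conv_lhs => rw [hpG]
    rw [Finset.smul_sum, ← Finset.sum_sub_distrib]
    exact Finset.sum_congr rfl fun i _ => by rw [smul_smul, ← sub_smul]
  have hvn : ‖v‖ ≤ C₀ := by
    rw [hvs, hC₀]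
    refine (norm_sum_le _ _).trans (Finset.sum_le_sum fun i _ => ?_)
    rw [norm_smul, Real.norm_eq_abs]
    exact mul_le_mul_of_nonneg_right (hnb i) (norm_nonneg _)
  have hpv : 1 ≤ TR p p v := by
    have e1 : TR p p v = ∑ i, e i * TR p p (cR ν (G i)) + σ * TR p p (cR ν (G i₀)) := by
      rw [hvs, map_sum]
      have e2 : ∀ i, TR p p (((n i : ℝ) - x * q i) • cR ν (G i)) = e i * TR p p (cR ν (G i)) +
          ((Pi.single (M := fun _ => ℤ) i₀ σ i : ℤ) : ℝ) * TR p p (cR ν (G i)) := by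
        intro i
        rw [map_smul, hne, smul_eq_mul, add_mul]
      rw [Finset.sum_congr rfl fun i _ => e2 i, Finset.sum_add_distrib]
      congr 1
      rw [Finset.sum_eq_single i₀]
      · rw [Pi.single_eq_same]
      · intro i _ hi
        rw [Pi.single_eq_of_ne hi, Int.cast_zero, zero_mul]
      · intro hi
        exact absurd (Finset.mem_univ _) hi
    have e3 : |∑ i, e i * TR p p (cR ν (G i))| ≤ Sb := by
      rw [hSb]
      refine (Finset.abs_sum_le_sum_abs _ _).trans (Finset.sum_le_sum fun i _ => ?_)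
      rw [abs_mul]
      exact mul_le_of_le_one_left (abs_nonneg _) (heb i)
    rw [e1]
    linarith [(abs_le.1 e3).1]
  have hWv : cR ν W = x • p + v := by
    rw [hv]
    abel
  refine ⟨W, hWV, by rw [← hv]; exact hvn, ?_⟩
  have hx0 : 0 ≤ x := by linarith
  have b1 : |TR p v v| ≤ M * ‖p‖ * C₀ * C₀ := (hM p v v).trans (by gcongr)
  have b2 : |TR v v v| ≤ M * C₀ * C₀ * C₀ := (hM v v v).trans (by gcongr)
  have b3 : |l v| ≤ L * C₀ := (hL v).trans (by gcongr)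
  have e1 : T W W W = 3 * x ^ 2 * TR p p v + 3 * x * TR p v v + TR v v v := by
    rw [← hT, hWv]
    simp only [map_add, map_smul, LinearMap.add_apply, LinearMap.smul_apply, smul_eq_mul]
    rw [h3, s1 v p p, s2 p v p, s2 v v p, s1 v p v]
    ring
  have e2 : l₀ W = x * l p + l v := by
    rw [← hl, hWv, map_add, map_smul, smul_eq_mul]
  unfold Pool.Agent.H24.VP.chi at hh
  rw [e1, e2] at hh
  have c1 : x * (-(M * ‖p‖ * C₀ * C₀)) ≤ x * TR p v v := mul_le_mul_of_nonneg_left (abs_le.1 b1).1 hx0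
  have c2 := (abs_le.1 b2).1
  have c3 := (abs_le.1 b3).1
  have c4 : x * (-|l p|) ≤ x * l p := mul_le_mul_of_nonneg_left (neg_abs_le _) hx0
  have c5 := neg_abs_le c
  have c6 := le_abs_self C'
  have c7 : x ^ 2 * 1 ≤ x ^ 2 * TR p p v := mul_le_mul_of_nonneg_left hpv (by positivity)
  obtain ⟨Z, hZ⟩ : ∃ Z : ℝ, Z = M * C₀ * C₀ * C₀ / 6 + L * C₀ + |c| + |C'| := ⟨_, rfl⟩
  have hZ0 : 0 ≤ Z := by
    rw [hZ]
    positivity
  have c8 : Z ≤ Z * x := le_mul_of_one_le_right hZ0 hx1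
  rw [hC₁, ← hZ]
  have c9 : (M * ‖p‖ * C₀ * C₀ / 2 + |l p| + Z) * x =
      x * (M * ‖p‖ * C₀ * C₀) / 2 + x * |l p| + Z * x := by ring
  rw [c9]
  linarith

/-- the number of sections on the surface -/
private theorem ed_hz [CharZero k] [IsAlgClosed k] [T0Space X.P] (h : Hyp X) (hr : RR T l₀ c) (hν : NumR ν)
    (hT : ∀ U V W, TR (cR ν U) (cR ν V) (cR ν W) = T U V W) (hA : Ample A) (hp : p ∈ closure (CC ν))
    (h3 : TR p p p = 0) (hpA : 0 < TR p p (cR ν A)) {lam : ℝ} (hlam : 0 < lam)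
    (hlm : ∀ u, TR p (cR ν (F 0)) u = lam * TR p p u) (hF : Fm ν TR p F P) (C₀ : ℝ) :
    ∃ C₂ : ℝ, 0 < C₂ ∧ ∀ (x : ℝ) (W : Cart X), 1 ≤ x → ‖cR ν W - x • p‖ ≤ C₀ → ∀ j : ℕ,
      (hz h.var (P 0).η (W * (F 0 ^ j)⁻¹) : ℝ) ≤ C₂ * x := by
  have s1 := tr_s12 hr hν hT
  have s2 := tr_s23 hr hν hT
  have htr := trdeg_pdiv h (P 0)
  have hS := hF.spr 0
  obtain ⟨m, k₂, K₂, i1, i2, i3, i4, C, φ, hm, hC, hφ, hle, hdg, -⟩ := Pool.Agent.H89.RT.crv_z h hr htr hS hA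
  have hm1 : (1 : ℝ) ≤ m := by exact_mod_cast hm
  have hms := ms_nef h hr hν hT htr hS hp
  have hff := ff_nn h hr hν hT hF hA
  have hTA : 0 < T A A (F 0) := pos_srf h hr htr hS hA hA
  obtain ⟨N₁, hN₁0, hN₁⟩ := lin_bd (TR p p)
  obtain ⟨M, hM0, hM⟩ := tri_bd TR
  obtain ⟨J, hJ⟩ := exists_nat_gt (N₁ * |C₀| / TR p p (cR ν A))
  rw [div_lt_iff₀ hpA] at hJ
  obtain ⟨B, hB⟩ : ∃ B : ℝ, B = |TR p (cR ν A) (cR ν (F 0))| + M * |C₀| * ‖cR ν A‖ * ‖cR ν (F 0)‖ := ⟨_, rfl⟩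
  have hB0 : 0 ≤ B := by
    rw [hB]
    positivity
  obtain ⟨D, hD⟩ : ∃ D : ℝ, D = m * B + h0 (1 : Cart C) 1 := ⟨_, rfl⟩
  have hD0 : 0 ≤ D := by
    rw [hD]
    positivity
  refine ⟨J * D + 1, by positivity, fun x W hx hW j => ?_⟩
  have hx0 : 0 ≤ x := by linarith
  obtain ⟨v, hv⟩ : ∃ v, v = cR ν W - x • p := ⟨_, rfl⟩
  have hWv : cR ν W = x • p + v := by
    rw [hv]
    abel
  rw [← hv] at hW
  have hvn : ‖v‖ ≤ |C₀| := hW.trans (le_abs_self _)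
  have hTW : T W A (F 0) ≤ B * x := by
    have b1 : |TR v (cR ν A) (cR ν (F 0))| ≤ M * |C₀| * ‖cR ν A‖ * ‖cR ν (F 0)‖ := (hM _ _ _).trans (by gcongr)
    have b2 := (abs_le.1 b1).2
    have b3 : x * TR p (cR ν A) (cR ν (F 0)) ≤ x * |TR p (cR ν A) (cR ν (F 0))| :=
      mul_le_mul_of_nonneg_left (le_abs_self _) hx0
    have b4 : 0 ≤ M * |C₀| * ‖cR ν A‖ * ‖cR ν (F 0)‖ := by positivity
    have b5 := le_mul_of_one_le_right b4 hx
    rw [← hT, hWv, hB]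
    simp only [map_add, map_smul, LinearMap.add_apply, LinearMap.smul_apply, smul_eq_mul]
    rw [add_mul]
    linarith
  obtain ⟨V, hV⟩ : ∃ V : ℕ → Cart X, ∀ i, V i = W * (F 0 ^ j)⁻¹ * (A ^ (m * i))⁻¹ := ⟨_, fun _ => rfl⟩
  have hFA : 0 ≤ T (F 0) A (F 0) := by
    rw [hr.tri.s12, ← hT]
    exact hff
  have hcur : ∀ i : ℕ, (h0 (φ (V i)) 1 : ℝ) ≤ D * x := by
    intro i
    have h1 := hdg (V i)
    rw [hV, hr.tri.add, hr.tri.add, hr.tri.inv, hr.tri.inv, hr.tri.pow, hr.tri.pow, ← hV] at h1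
    push_cast at h1
    have h2 : (m : ℝ) * (T W A (F 0) + -(j * T (F 0) A (F 0)) + -(m * i * T A A (F 0))) ≤ m * (B * x) := by
      refine mul_le_mul_of_nonneg_left ?_ (by linarith)
      have h5 : 0 ≤ (m : ℝ) * i * T A A (F 0) := by positivity
      have h6 : 0 ≤ (j : ℝ) * T (F 0) A (F 0) := by positivity
      linarith
    have h8 : (0 : ℝ) ≤ h0 (1 : Cart C) 1 := Nat.cast_nonneg _
    have h9 := le_mul_of_one_le_right h8 hx
    have h10 : 0 ≤ (m : ℝ) * (B * x) := by positivity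
    have h11 : D * x = m * (B * x) + h0 (1 : Cart C) 1 * x := by
      rw [hD]
      ring
    rcases lt_or_ge (Pool.Agent.H41.TK.dg (φ (V i))) 0 with h4 | h4
    · rw [Pool.Agent.H41.TK.h0_neg hC _ h4, Nat.cast_zero]
      positivity
    · have h5 := Pool.Agent.H41.TK.h0_le_dg hC _ h4
      have h6 : (h0 (φ (V i)) 1 : ℝ) ≤ (Pool.Agent.H41.TK.dg (φ (V i)) : ℝ) + h0 (1 : Cart C) 1 := by
        exact_mod_cast h5
      rw [h1] at h6
      linarith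
  have hstep : ∀ i : ℕ, (hz h.var (P 0).η (V 0) : ℝ) ≤ hz h.var (P 0).η (V i) + i * (D * x) := by
    intro i
    induction i with
    | zero => simp
    | succ i ih =>
      have h1 := hle (V i)
      have h2 : V i * (A ^ m)⁻¹ = V (i + 1) := by
        rw [hV, hV, mul_assoc, ← mul_inv, ← pow_add]
        rfl
      rw [h2] at h1
      have h4 : (hz h.var (P 0).η (V i) : ℝ) ≤ hz h.var (P 0).η (V (i + 1)) + h0 (φ (V i)) 1 := by exact_mod_cast h1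
      have h5 := hcur i
      push_cast
      linarith
  have hV0 : V 0 = W * (F 0 ^ j)⁻¹ := by
    rw [hV, mul_zero, pow_zero, inv_one, mul_one]
  have h1 := hstep J
  have h2 : hz h.var (P 0).η (V J) = 0 := by
    by_contra h4
    have h5 := hms.eff _ (Nat.pos_of_ne_zero h4)
    have e1 : cR ν (V J) = cR ν W - (j : ℝ) • cR ν (F 0) - ((m * J : ℕ) : ℝ) • cR ν A := by
      rw [hV, cR_mul, cR_mul, ed_inv, ed_inv, ed_pow, ed_pow]
      abel
    have e2 : TR p (cR ν (V J)) (cR ν (F 0)) = lam * (TR p p v - m * J * TR p p (cR ν A)) := by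
      rw [e1]
      simp only [map_sub, map_smul, LinearMap.sub_apply, LinearMap.smul_apply, smul_eq_mul]
      rw [hF.pFF, s2 p (cR ν W), s2 p (cR ν A), hlm, hlm, hWv, map_add, map_smul, smul_eq_mul, h3]
      push_cast
      ring
    rw [e2] at h5
    have h6 : TR p p v ≤ N₁ * |C₀| :=
      ((le_abs_self _).trans (hN₁ v)).trans (mul_le_mul_of_nonneg_left hvn hN₁0)
    have h7 : (J : ℝ) * TR p p (cR ν A) ≤ m * J * TR p p (cR ν A) := by
      have : 0 ≤ (J : ℝ) * TR p p (cR ν A) := by positivity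
      nlinarith
    have h8 : TR p p v - m * J * TR p p (cR ν A) < 0 := by linarith
    exact absurd h5 (not_le.2 (mul_neg_of_pos_of_neg hlam h8))
  rw [h2, Nat.cast_zero, zero_add, hV0] at h1
  have h4 : (J * D + 1) * x = J * (D * x) + x := by ring
  rw [h4]
  linarith

/-- take out the surface as often as possible -/
private theorem ed_out [CharZero k] [IsAlgClosed k] [T0Space X.P] (h : Hyp X) (hr : RR T l₀ c) (hν : NumR ν)
    {z : X.P} {S : Cart X} (htr : Algebra.trdeg k (X.kap z) = 2) (hS : SPr X z S) {W : Cart X} {i : ℕ}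
    (hi : 0 < h0 (W * (S ^ i)⁻¹) 1) :
    ∃ (i' : ℕ) (D : Cart X), i ≤ i' ∧ Effective D ∧ Un (X.O z) (D.eq z) ∧ cR ν D = cR ν W - (i' : ℝ) • cR ν S := by
  obtain ⟨A, hA⟩ := h.amp
  have hTA : 0 < T A A S := pos_srf h hr htr hS hA hA
  have hbd : ∀ j : ℕ, 0 < h0 (W * (S ^ j)⁻¹) 1 → (j : ℝ) * T A A S ≤ T W A A := by
    intro j hj
    have h1 := Pool.Agent.H20.TQ.eff_nn h hr hj hA
    rw [hr.tri.add, hr.tri.inv, hr.tri.pow] at h1
    rw [hr.tri.s23 A A S, hr.tri.s12 A S A]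
    linarith
  obtain ⟨i', hii, hi', hi''⟩ : ∃ i' : ℕ, i ≤ i' ∧ 0 < h0 (W * (S ^ i')⁻¹) 1 ∧ ¬ 0 < h0 (W * (S ^ (i' + 1))⁻¹) 1 := by
    by_contra hcon
    push Not at hcon
    have h1 : ∀ j : ℕ, 0 < h0 (W * (S ^ (i + j))⁻¹) 1 := by
      intro j
      induction j with
      | zero => exact hi
      | succ j ih => exact hcon (i + j) (Nat.le_add_right _ _) ih
    obtain ⟨n, hn⟩ := exists_nat_gt (T W A A / T A A S)
    rw [div_lt_iff₀ hTA] at hn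
    have h2 := hbd _ (h1 n)
    push_cast at h2
    have h4 : 0 ≤ (i : ℝ) * T A A S := by positivity
    rw [add_mul] at h2
    linarith
  obtain ⟨s, hs0, hs⟩ := ex_sec hi'
  refine ⟨i', prin X s hs0 * (W * (S ^ i')⁻¹), hii, fun x => ?_, ?_, ?_⟩
  · have h2 := hs x
    rw [pow_one] at h2
    rw [mul_eq]
    exact h2
  · by_contra hcon
    apply hi''
    rw [mul_eq] at hcon
    have h2 : s ∈ secL ((W * (S ^ i')⁻¹) ^ 1 * S⁻¹) 1 := (ex_mem h.var hS _ 1 s).2 ⟨hs, by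
      rw [pow_one]
      exact hcon⟩
    have e : (W * (S ^ i')⁻¹) ^ 1 * S⁻¹ = W * (S ^ (i' + 1))⁻¹ := by
      rw [pow_one, mul_assoc, ← mul_inv, pow_succ]
    rw [e] at h2
    exact Pool.Agent.H32.TK.pos_of_sec _ (Pool.Agent.H24.TK.fd h.var h.gen hA _) h2 hs0
  · have hpr : cR ν (prin X s hs0) = 0 := by
      have h2 := (hν.ker _).2 (numz_prin (X := X) s hs0)
      change rv (ci ν (prin X s hs0)) = 0
      unfold ci
      rw [h2, toAdd_one]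
      funext j
      simp [rv]
    rw [cR_mul, hpr, zero_add, cR_mul, ed_inv, ed_pow]
    abel

theorem ex_dx [CharZero k] [IsAlgClosed k] [T0Space X.P] (h : Hyp X) (hr : RR T l₀ c) (hν : NumR ν)
    (hT : ∀ U V W, TR (cR ν U) (cR ν V) (cR ν W) = T U V W) {l : (Fin r → ℝ) →ₗ[ℝ] ℝ} (hl : ∀ D, l (cR ν D) = l₀ D)
    (hp : p ∈ closure (CC ν)) (h3 : TR p p p = 0) (hz : ∃ w ∈ Vp p, TR p p w ≠ 0) (hF : Fm ν TR p F P) :
    ∃ η C x₀ : ℝ, 0 < η ∧ 0 ≤ C ∧ ∀ x, x₀ ≤ x → ∃ D, Dx ν p (F 0) η C x D ∧ Un (X.O (P 0).η) (D.eq (P 0).η) := by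
  have hzw := hz
  clear hz
  obtain ⟨A, hA⟩ := h.amp
  have hpp : TR p p ≠ 0 := by
    obtain ⟨w, -, hw⟩ := hzw
    intro h1
    exact hw (by rw [h1, LinearMap.zero_apply])
  have hpA : 0 < TR p p (cR ν A) := pp_pos h hr hν hT hA hp hpp
  obtain ⟨lam, hlam, hlm⟩ := fam_lam h hr hν hT hp h3 hpp hF
  obtain ⟨C₀, C₁, x₁, hlow⟩ := ed_low h hr hν hT hl hA hp h3 hzw hpA
  obtain ⟨C₂, hC₂, hhz⟩ := ed_hz h hr hν hT hA hp h3 hpA hlam hlm hF C₀
  refine ⟨1 / (4 * C₂), |C₀|, max 1 (max x₁ (4 * (C₁ + C₂) + 1)), by positivity, abs_nonneg _, fun x hx => ?_⟩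
  have hx1 : 1 ≤ x := (le_max_left _ _).trans hx
  have hx2 : x₁ ≤ x := (le_max_left _ _).trans ((le_max_right _ _).trans hx)
  have hx3 : 4 * (C₁ + C₂) + 1 ≤ x := (le_max_right _ _).trans ((le_max_right _ _).trans hx)
  have hx0 : 0 < x := by linarith
  obtain ⟨W, hWV, hWn, hW0⟩ := hlow x hx2
  have hsum : ∀ i : ℕ, (h0 W 1 : ℝ) ≤ h0 (W * (F 0 ^ i)⁻¹) 1 + i * (C₂ * x) := by
    intro i
    induction i with
    | zero => simp
    | succ i ih =>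
      have h1 : h0 (W * (F 0 ^ i)⁻¹) 1 ≤ h0 (W * (F 0 ^ (i + 1))⁻¹) 1 + Pool.Agent.H20.TP.hz h.var (P 0).η (W * (F 0 ^ i)⁻¹) := by
        have := Pool.Agent.H24.TK.fd h.var h.gen hA (W * (F 0 ^ i)⁻¹)
        have := fd_sub h.var hA (P 0).η (resD h.var (P 0).η (W * (F 0 ^ i)⁻¹))
        have h1 := ex_le h.var (hF.spr 0) (W * (F 0 ^ i)⁻¹) 1
        have e : (W * (F 0 ^ i)⁻¹) ^ 1 * (F 0)⁻¹ = W * (F 0 ^ (i + 1))⁻¹ := by
          rw [pow_one, mul_assoc, ← mul_inv, pow_succ]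
        rw [e] at h1
        exact h1
      have h2 : (h0 (W * (F 0 ^ i)⁻¹) 1 : ℝ) ≤ h0 (W * (F 0 ^ (i + 1))⁻¹) 1 +
          Pool.Agent.H20.TP.hz h.var (P 0).η (W * (F 0 ^ i)⁻¹) := by exact_mod_cast h1
      have h4 := hhz x W hx1 hWn i
      push_cast
      linarith
  obtain ⟨i, hi⟩ : ∃ i : ℕ, i = ⌈1 / (4 * C₂) * x⌉₊ := ⟨_, rfl⟩
  have hi1 : 1 / (4 * C₂) * x ≤ i := by
    rw [hi]
    exact Nat.le_ceil _
  have hi2 : (i : ℝ) < 1 / (4 * C₂) * x + 1 := by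
    rw [hi]
    exact Nat.ceil_lt_add_one (by positivity)
  have hpos : 0 < h0 (W * (F 0 ^ i)⁻¹) 1 := by
    have h1 := hsum i
    have h2 : (i : ℝ) * (C₂ * x) ≤ (1 / (4 * C₂) * x + 1) * (C₂ * x) :=
      mul_le_mul_of_nonneg_right hi2.le (by positivity)
    have h4 : (1 / (4 * C₂) * x + 1) * (C₂ * x) = x ^ 2 / 4 + C₂ * x := by
      field_simp
    rw [h4] at h2
    have h5 : 0 < x * (x - 4 * (C₁ + C₂)) := mul_pos hx0 (by linarith)
    have h6 : (0 : ℝ) < h0 (W * (F 0 ^ i)⁻¹) 1 := by nlinarith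
    exact_mod_cast h6
  obtain ⟨i', D, hii, hD, hun, hcl⟩ := ed_out (ν := ν) h hr hν (trdeg_pdiv h (P 0)) (hF.spr 0) hpos
  refine ⟨D, ⟨hD, W, i', hWV, hWn.trans (le_abs_self _), hi1.trans (by exact_mod_cast hii), hcl⟩, hun⟩

end Pool.Agent.H89.RS
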