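import Pool.Agent.H89.RS.Eff
import Pool.Agent.H89.RS.CaseA
import Pool.Agent.H89.RS.CaseB

/-!
# [H89 RS Sup] THEOREM R* (MP_e49dc9_ag): the supremum

`mc`: `ex_dx`, `q_zero`, `q_crv`, `case_a`, `case_b`, `klm`: `p - η F 0` is nef for some `η > 0` (for `dR y (F 0) = 0` clear).
`sup`: `s` = the maximum of the `s` with `p - s F 0` nef (`s ≤ T(A,A,p) / T(A,A,F 0)`, closed), `q = p - s F 0`: `T(q,q,.) = (1 - 2 lam s) z` (`fam_lam`, `q_zero`).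
`1 - 2 lam s ≥ 0` (`T(q,q,A) ≥ 0`).  If `> 0`: the hypotheses of `mc` hold for `q` (`Vp p ≤ Vp q + ℝ F 0`, see `vp_line`; `z(F 0) = 0`), and `q - η F 0` is nef: against the choice
of `s`.  So `T(q,q,.) = 0` and `s = 1 / (2 lam) > 0`.
`vp_line`: `w ∈ Vp p`, `p = q + s g`, `g` integral: `w = w' + a g` with `w' ∈ Vp q`.  If `g ∈ Vp q`: clear.  Else an integral `φ₀` with `φ₀ q = 0`, `φ₀ g ≠ 0`, `a = φ₀ w / φ₀ g`;
for integral `φ` with `φ q = 0`: `φ₀(g) φ - φ(g) φ₀` kills `q`, `g`, `p`, `w`.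
`q_l`: if `l q > 0`: `sq_theta`, `ray_of'` (as in `thmR` of H89/RT/Main): `Vp q = ℝ q`, so `z = 0` on `Vp p`: a contradiction.  (`q ≠ 0`, else `z = 0`.)
-/

set_option autoImplicit false

namespace Pool.Agent.H89.RS

open Pool.Agent.H54.RV Pool.Agent.H83.TU Pool.Agent.H83.TK Pool.Agent.H20.TD Pool.Agent.H20.TP Pool.Agent.H20.RT
open Pool.Agent.H24.VP (RR)

variable {k K : Type} [Field k] [Field K] [Algebra k K] {X : Mod k K} {r : ℕ}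
  {ν : Cart X →* Multiplicative (Fin r → ℤ)} {T : Cart X → Cart X → Cart X → ℝ} {l₀ : Cart X → ℝ} {c : ℝ} {TR : Tri3 r}
  {p : Fin r → ℝ} {A : Cart X} {F : ℕ → Cart X} {P : ℕ → PDiv X}

theorem mc [CharZero k] [IsAlgClosed k] [T0Space X.P] (hSm : Pool.Agent.H20.TU.SmP X) (h : Hyp X) (hr : RR T l₀ c)
    (hν : NumR ν) (hT : ∀ U V W, TR (cR ν U) (cR ν V) (cR ν W) = T U V W)
    {l : (Fin r → ℝ) →ₗ[ℝ] ℝ} (hl : ∀ D, l (cR ν D) = l₀ D)
    (hp : p ∈ closure (CC ν)) (h3 : TR p p p = 0) (hz : ∃ w ∈ Vp p, TR p p w ≠ 0) (hF : Fm ν TR p F P) :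
    (∀ u, TR (cR ν (F 0)) (cR ν (F 0)) u = 0) ∧ cR ν (F 0) ∈ closure (CC ν) ∧
      ∃ η : ℝ, 0 < η ∧ p - η • cR ν (F 0) ∈ closure (CC ν) := by
  obtain ⟨η, C, x₀, hη, hC, hD⟩ := ex_dx h hr hν hT hl hp h3 hz hF
  have h0 := q_zero h hr hν hT hp h3 hz hF hη hD
  obtain ⟨A, hA⟩ := h.amp
  refine ⟨h0, klm h hr hν hT fun y hy => q_crv h hr hν hT hF h0 hy, η, hη, klm h hr hν hT fun y hy => ?_⟩
  have h1 : 0 ≤ dR hν h.var y (cR ν (F 0)) := q_crv h hr hν hT hF h0 hy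
  have h2 : 0 ≤ dR hν h.var y p := dR_nef hν h.var hA hy hp
  rw [map_sub, map_smul, smul_eq_mul, sub_nonneg]
  rcases h1.eq_or_lt with h4 | h4
  · rw [← h4, mul_zero]
    exact h2
  · by_cases hB : ∀ (Q : PDiv X) (S : Cart X), SPr X Q.η S → Q.η ⤳ y → TR p p (cR ν S) ≠ 0
    · exact case_b hSm h hr hν hT hp h3 hz hF h0 hη hD hy hB h4
    · push Not at hB
      obtain ⟨Q, S, hS, hQy, hzS⟩ := hB
      exact case_a h hr hν hT hp h3 hz hF h0 hη hD Q hS hzS ⟨hQy, hy⟩ h4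

theorem vp_line {q w : Fin r → ℝ} {g : Fin r → ℤ} {s : ℝ} (hp : p = q + s • rv g) (hw : w ∈ Vp p) :
    ∃ (w' : Fin r → ℝ) (a : ℝ), w' ∈ Vp q ∧ w = w' + a • rv g := by
  by_cases hg : rv g ∈ Vp q
  · refine ⟨w, 0, fun φ hφ => hw φ ?_, by rw [zero_smul, add_zero]⟩
    rw [hp, dotProduct_add, dotProduct_smul, hφ, hg φ hφ, smul_zero, add_zero]
  · have h1 : ∃ φ₀ : Fin r → ℤ, rv φ₀ ⬝ᵥ q = 0 ∧ rv φ₀ ⬝ᵥ rv g ≠ 0 := by
      by_contra hcon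
      push Not at hcon
      exact hg fun φ hφ => hcon φ hφ
    obtain ⟨φ₀, h2, h3⟩ := h1
    have hint : ∀ φ : Fin r → ℤ, rv φ ⬝ᵥ rv g = ((φ ⬝ᵥ g : ℤ) : ℝ) := by
      intro φ
      simp only [dotProduct, rv]
      push_cast
      rfl
    refine ⟨w - ((rv φ₀ ⬝ᵥ w) / (rv φ₀ ⬝ᵥ rv g)) • rv g, (rv φ₀ ⬝ᵥ w) / (rv φ₀ ⬝ᵥ rv g), fun φ hφ => ?_,
      (sub_add_cancel _ _).symm⟩
    have e1 : rv ((φ₀ ⬝ᵥ g) • φ - (φ ⬝ᵥ g) • φ₀) = (rv φ₀ ⬝ᵥ rv g) • rv φ - (rv φ ⬝ᵥ rv g) • rv φ₀ := by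
      rw [sub_eq_add_neg, rv_add, rv_neg, rv_smul, rv_smul, hint, hint, ← sub_eq_add_neg]
    have e2 : rv ((φ₀ ⬝ᵥ g) • φ - (φ ⬝ᵥ g) • φ₀) ⬝ᵥ p = 0 := by
      rw [e1, sub_dotProduct, smul_dotProduct, smul_dotProduct, hp, dotProduct_add, dotProduct_add, hφ, h2,
        dotProduct_smul, dotProduct_smul]
      simp only [smul_eq_mul]
      ring
    have e3 := hw _ e2
    rw [e1, sub_dotProduct, smul_dotProduct, smul_dotProduct, smul_eq_mul, smul_eq_mul] at e3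
    rw [dotProduct_sub, dotProduct_smul, smul_eq_mul]
    have e4 : (rv φ₀ ⬝ᵥ rv g) * (rv φ ⬝ᵥ w - (rv φ₀ ⬝ᵥ w) / (rv φ₀ ⬝ᵥ rv g) * (rv φ ⬝ᵥ rv g)) = 0 := by
      rw [mul_sub]
      have e5 : (rv φ₀ ⬝ᵥ rv g) * ((rv φ₀ ⬝ᵥ w) / (rv φ₀ ⬝ᵥ rv g) * (rv φ ⬝ᵥ rv g)) =
          (rv φ ⬝ᵥ rv g) * (rv φ₀ ⬝ᵥ w) := by
        field_simp
      rw [e5]
      exact e3
    exact (mul_eq_zero.1 e4).resolve_left h3

theorem sup [CharZero k] [IsAlgClosed k] [T0Space X.P] (hSm : Pool.Agent.H20.TU.SmP X) (h : Hyp X) (hr : RR T l₀ c)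
    (hν : NumR ν) (hT : ∀ U V W, TR (cR ν U) (cR ν V) (cR ν W) = T U V W)
    {l : (Fin r → ℝ) →ₗ[ℝ] ℝ} (hl : ∀ D, l (cR ν D) = l₀ D)
    (hp : p ∈ closure (CC ν)) (h3 : TR p p p = 0) (hz : ∃ w ∈ Vp p, TR p p w ≠ 0) (hF : Fm ν TR p F P) :
    ∃ (s : ℝ) (q : Fin r → ℝ), 0 < s ∧ q ∈ closure (CC ν) ∧ q ≠ 0 ∧ p = q + s • cR ν (F 0) ∧ TR q q = 0 ∧ l q ≤ 0 := by
  obtain ⟨A, hA⟩ := h.amp
  have hAC : cR ν A ∈ closure (CC ν) := subset_closure (cc_amp h.var hν hA)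
  have s12 := tr_s12 hr hν hT
  have s23 := tr_s23 hr hν hT
  have hpp : TR p p ≠ 0 := by
    obtain ⟨w, _, hw⟩ := hz
    intro h4
    rw [h4, LinearMap.zero_apply] at hw
    exact hw rfl
  have hA0 : 0 < TR p p (cR ν A) := pp_pos h hr hν hT hA hp hpp
  obtain ⟨lam, hlam, hlam2⟩ := fam_lam h hr hν hT hp h3 hpp hF
  obtain ⟨hFF, hFn, η, hη, hηc⟩ := mc hSm h hr hν hT hl hp h3 hz hF
  -- the square of `p - s F 0`
  have hsq : ∀ (s : ℝ) (u : Fin r → ℝ), TR (p - s • cR ν (F 0)) (p - s • cR ν (F 0)) u =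
      (1 - 2 * lam * s) * TR p p u := by
    intro s u
    simp only [map_sub, LinearMap.sub_apply, map_smul, LinearMap.smul_apply, smul_eq_mul]
    rw [s12 (cR ν (F 0)) p u, hlam2, hFF]
    ring
  obtain ⟨SS, hSS⟩ : ∃ SS : Set ℝ, SS = {s : ℝ | 0 ≤ s ∧ p - s • cR ν (F 0) ∈ closure (CC ν)} := ⟨_, rfl⟩
  have hcl : IsClosed SS := by
    rw [hSS]
    have h4 : Continuous fun s : ℝ => p - s • cR ν (F 0) :=
      continuous_const.sub (continuous_id.smul continuous_const)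
    exact (isClosed_le continuous_const continuous_id).inter (isClosed_closure.preimage h4)
  have hbd : ∀ s ∈ SS, s ≤ 1 / lam := by
    intro s hs
    rw [hSS] at hs
    have h4 := tr_nn h hr hν hT hp hs.2 hAC
    rw [map_sub, LinearMap.sub_apply, map_smul, LinearMap.smul_apply, smul_eq_mul, hlam2] at h4
    rw [le_div_iff₀ hlam]
    by_contra hcon
    push Not at hcon
    nlinarith
  have hne : SS.Nonempty := ⟨η, by rw [hSS]; exact ⟨hη.le, hηc⟩⟩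
  have hba : BddAbove SS := ⟨1 / lam, hbd⟩
  obtain ⟨s, hsdef⟩ : ∃ s : ℝ, s = sSup SS := ⟨_, rfl⟩
  have hsm : s ∈ SS := hsdef ▸ hcl.csSup_mem hne hba
  have hsup : ∀ t ∈ SS, t ≤ s := fun t ht => hsdef ▸ le_csSup hba ht
  have hs0 : 0 < s := hη.trans_le (hsup η (by rw [hSS]; exact ⟨hη.le, hηc⟩))
  obtain ⟨q, hq⟩ : ∃ q : Fin r → ℝ, q = p - s • cR ν (F 0) := ⟨_, rfl⟩
  have hqC : q ∈ closure (CC ν) := by
    rw [hSS] at hsm
    rw [hq]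
    exact hsm.2
  have hpq : p = q + s • cR ν (F 0) := by rw [hq, sub_add_cancel]
  have hqq : ∀ u, TR q q u = (1 - 2 * lam * s) * TR p p u := fun u => by
    rw [hq]
    exact hsq s u
  have hlams : 0 ≤ 1 - 2 * lam * s := by
    have h4 := tr_nn h hr hν hT hqC hqC hAC
    rw [hqq] at h4
    exact nonneg_of_mul_nonneg_left h4 hA0
  -- elements of `Vp q` on which `z` is not zero
  have hVq : ∃ w ∈ Vp q, TR p p w ≠ 0 := by
    obtain ⟨w, hw, hw2⟩ := hz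
    obtain ⟨w', a, hw', rfl⟩ := vp_line hpq hw
    refine ⟨w', hw', fun h4 => hw2 ?_⟩
    rw [map_add, h4, map_smul, hF.ppF, smul_zero, add_zero]
  have hlams0 : 1 - 2 * lam * s = 0 := by
    by_contra hcon
    have h4 : 0 < 1 - 2 * lam * s := lt_of_le_of_ne hlams (Ne.symm hcon)
    have h5 : TR q q q = 0 := by
      rw [hqq, hq, map_sub, h3, map_smul, hF.ppF, smul_zero, sub_zero, mul_zero]
    have h6 : ∃ w ∈ Vp q, TR q q w ≠ 0 := by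
      obtain ⟨w, hw, hw2⟩ := hVq
      refine ⟨w, hw, ?_⟩
      rw [hqq]
      exact mul_ne_zero hcon hw2
    have h7 : Fm ν TR q F P := by
      refine ⟨hF.inj, hF.spr, hF.num, ?_, ?_⟩
      · rw [hqq, hF.ppF, mul_zero]
      · rw [hq, map_sub, LinearMap.sub_apply, LinearMap.sub_apply, hF.pFF, map_smul, LinearMap.smul_apply,
          LinearMap.smul_apply, hFF, smul_zero, sub_zero]
    obtain ⟨-, -, η', hη', hη'c⟩ := mc hSm h hr hν hT hl hqC h5 h6 h7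
    have h8 : s + η' ∈ SS := by
      rw [hSS]
      refine ⟨by linarith, ?_⟩
      have e : p - (s + η') • cR ν (F 0) = q - η' • cR ν (F 0) := by
        rw [hq, add_smul]
        abel
      rw [e]
      exact hη'c
    linarith [hsup _ h8]
  have hqq0 : TR q q = 0 := by
    refine LinearMap.ext fun u => ?_
    rw [hqq, hlams0, zero_mul, LinearMap.zero_apply]
  have hq0 : q ≠ 0 := by
    intro h4
    obtain ⟨w, _, hw⟩ := hz
    apply hw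
    rw [hpq, h4, zero_add]
    simp only [map_smul, LinearMap.smul_apply, smul_eq_mul]
    rw [hFF, mul_zero, mul_zero]
  refine ⟨s, q, hs0, hqC, hq0, hpq, hqq0, ?_⟩
  by_contra hcon
  push Not at hcon
  have h1 : 0 < TR q (cR ν A) (cR ν A) := by
    rcases (tr_nn h hr hν hT hqC hAC hAC).eq_or_lt with h1 | h1
    · have h2 := pq_zero h hr hν hT hA hqC hAC h1.symm
      exact (hq0 (Pool.Agent.H83.RT.num_zero h hr hν hT fun x hx => curves_zero h hr hν hT hA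
        (fun u => by rw [h2, LinearMap.zero_apply]) (by rw [hqq0, LinearMap.zero_apply]) hx)).elim
    · exact h1
  have h2 := Pool.Agent.H36.RZ.sq_theta h hr hν hT hl hA hqC hcon hqq0
  obtain ⟨w, hw, hw2⟩ := hVq
  obtain ⟨a, rfl⟩ := ray_of' h hr hν hT (fun v hv => Pool.Agent.H83.RT.num_zero h hr hν hT hv) hA h1 h2 hw
  apply hw2
  rw [map_smul, hq, map_sub, h3, map_smul, hF.ppF, smul_zero, sub_zero, smul_zero]

end Pool.Agent.H89.RS
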