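import Pool.Agent.H89.RS.Wrd

/-!
# [H89 RS UpJ] THEOREM R* (MP_e49dc9_ag): the sections which vanish to order `n` along the curve: upper bound

`upj`: the maps `s ↦ rs y (E.eq y ^ n * wd a b (s * N.eq y))`, `a + b = n`, from `secV hJ N n` to the sections of `N * E ^ n` on the curve (`wrd_sec`) are
linear, with common kernel `secV hJ N (n + 1)`.
`ord_a`: if the degree of `N * E ^ j` on the curve is `< 0` for all `j ≤ n`, then `secV hJ N (j + 1) = secV hJ N j` for `j ≤ n` (no nonzero sections: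
`dz_nn`).
-/

set_option autoImplicit false

namespace Pool.Agent.H89.RS

open Pool.Agent.H54.RV Pool.Agent.H83.TU Pool.Agent.H83.TK Pool.Agent.H20.TD Pool.Agent.H20.TP Pool.Agent.H20.RT
open Pool.Agent.H24.VP (RR)

variable {k K : Type} [Field k] [Field K] [Algebra k K] {X : Mod k K} {r : ℕ}
  {ν : Cart X →* Multiplicative (Fin r → ℤ)} {T : Cart X → Cart X → Cart X → ℝ} {l₀ : Cart X → ℝ} {c : ℝ} {TR : Tri3 r}
  {p : Fin r → ℝ} {A : Cart X}

private theorem rsE {y : X.P} {E : Cart X} (hE : Un (X.O y) (E.eq y)) (n : ℕ) {w : K} (hw : w ∈ X.O y) :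
    X.rs y (E.eq y ^ n * w) = X.rs y (E.eq y) ^ n * X.rs y w := by
  rw [rs_mul y ((X.O y).pow_mem hE.2.1 n) hw, rs_pow y hE.2.1]

private theorem rsE_zero {y : X.P} {E : Cart X} (hE : Un (X.O y) (E.eq y)) (n : ℕ) {w : K} (hw : w ∈ X.O y)
    (h : X.rs y (E.eq y ^ n * w) = 0) : X.rs y w = 0 := by
  rw [rsE hE n hw] at h
  rcases mul_eq_zero.1 h with h1 | h1
  · exact absurd h1 (pow_ne_zero _ ((rs_ne y hE.2.1).2 hE))
  · exact h1

private theorem ld_sec (hX : IsVar X) {y : X.P} {d : Fin 2 → Derivation k K K} {t : Fin 2 → K} (hJ : Jet X y d t)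
    {E : Cart X} (hE : Bd y d E) {N : Cart X} {s : K} (hs : Sec N 1 s) {n a b : ℕ} (hab : a + b = n)
    (hv : Vn X y d n (s * N.eq y)) :
    Sec (resD hX y (N * E ^ n)) 1 (X.rs y (E.eq y ^ n * wd d a b (s * N.eq y))) := by
  subst hab
  exact wrd_sec hX hJ hE hs hv

/-- the leading derivative as a linear map -/
private noncomputable def ldL (hX : IsVar X) {y : X.P} {d : Fin 2 → Derivation k K K} {t : Fin 2 → K}
    (hJ : Jet X y d t) {E : Cart X} (hE : Bd y d E) (N : Cart X) {n a b : ℕ} (hab : a + b = n) :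
    secV hJ N n →ₗ[k] secL (resD hX y (N * E ^ n)) 1 where
  toFun s := ⟨X.rs y (E.eq y ^ n * wd d a b (s.1 * N.eq y)), ld_sec hX hJ hE s.2.1 hab s.2.2⟩
  map_add' s s' := Subtype.ext (by
    change X.rs y (E.eq y ^ n * wd d a b ((s.1 + s'.1) * N.eq y)) =
      X.rs y (E.eq y ^ n * wd d a b (s.1 * N.eq y)) + X.rs y (E.eq y ^ n * wd d a b (s'.1 * N.eq y))
    have h1 := wd_mem hJ a b s.2.2.1
    have h2 := wd_mem hJ a b s'.2.2.1
    rw [rsE hE.un n h1, rsE hE.un n h2, add_mul, wd_add, rsE hE.un n (add_mem h1 h2), rs_add y h1 h2, mul_add])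
  map_smul' c s := Subtype.ext (by
    change X.rs y (E.eq y ^ n * wd d a b ((c • s.1) * N.eq y)) =
      c • X.rs y (E.eq y ^ n * wd d a b (s.1 * N.eq y))
    have h1 := wd_mem hJ a b s.2.2.1
    rw [rsE hE.un n h1, Algebra.smul_mul_assoc, wd_smul, rsE hE.un n ((X.O y).smul_mem h1 c), Algebra.smul_def,
      rs_mul y ((X.O y).algebraMap_mem c) h1, rs_alg, Algebra.smul_def]
    ring)

private theorem secV_le {y : X.P} {d : Fin 2 → Derivation k K K} {t : Fin 2 → K} (hJ : Jet X y d t) (N : Cart X)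
    (n : ℕ) : secV hJ N (n + 1) ≤ secV hJ N n :=
  fun _ hs => ⟨hs.1, hs.2.1, fun a b hab => hs.2.2 a b (Nat.lt_succ_of_lt hab)⟩

theorem upj [CharZero k] (h : Hyp X) {y : X.P} (hy : Algebra.trdeg k (X.kap y) = 1) {d : Fin 2 → Derivation k K K}
    {t : Fin 2 → K} (hJ : Jet X y d t) {E : Cart X} (hE : Bd y d E) (N : Cart X) (n : ℕ) :
    Module.finrank k (secV hJ N n) ≤ Module.finrank k (secV hJ N (n + 1)) + (n + 1) * hz h.var y (N * E ^ n) := by
  obtain ⟨A, hA⟩ := h.amp
  have hfd : FiniteDimensional k (secL N 1) := Pool.Agent.H24.TK.fd h.var h.gen hA N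
  have hfV : FiniteDimensional k (secV hJ N n) :=
    Submodule.finiteDimensional_of_le (S₂ := secL N 1) fun s hs => hs.1
  have hfR : FiniteDimensional k (secL (resD h.var y (N * E ^ n)) 1) := fd_sub h.var hA y _
  have hab : ∀ i : Fin (n + 1), (i : ℕ) + (n - i) = n := fun i => Nat.add_sub_cancel' (Nat.le_of_lt_succ i.2)
  set φ : secV hJ N n →ₗ[k] (Fin (n + 1) → secL (resD h.var y (N * E ^ n)) 1) :=
    LinearMap.pi fun i => ldL h.var hJ hE N (hab i) with hφ
  have h1 := LinearMap.finrank_range_add_finrank_ker φ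
  have h2 : Module.finrank k (LinearMap.range φ) ≤ (n + 1) * hz h.var y (N * E ^ n) := by
    refine (Submodule.finrank_le _).trans (le_of_eq ?_)
    rw [Module.finrank_pi_fintype, Finset.sum_const, Finset.card_univ, Fintype.card_fin, smul_eq_mul]
    rfl
  have h3 : Module.finrank k (LinearMap.ker φ) = Module.finrank k (secV hJ N (n + 1)) := by
    apply LinearEquiv.finrank_eq
    refine LinearEquiv.ofBijective
      ({ toFun := fun f => ⟨f.1.1, f.1.2.1, f.1.2.2.1, fun a b hlt => by
            rcases Nat.lt_or_ge (a + b) n with h4 | h4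
            · exact f.1.2.2.2 a b h4
            · have h5 : a + b = n := le_antisymm (Nat.le_of_lt_succ hlt) h4
              have h6 : φ f.1 = 0 := f.2
              have h7 := congrFun h6 ⟨a, by omega⟩
              have h8 : X.rs y (E.eq y ^ n * wd d a (n - a) (f.1.1 * N.eq y)) = 0 :=
                congrArg (fun t : secL (resD h.var y (N * E ^ n)) 1 => (t : X.kap y)) h7
              have h9 : n - a = b := by omega
              rw [h9] at h8
              exact rsE_zero hE.un n (wd_mem hJ a b f.1.2.2.1) h8⟩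
         map_add' := fun _ _ => rfl
         map_smul' := fun _ _ => rfl } : LinearMap.ker φ →ₗ[k] secV hJ N (n + 1)) ⟨?_, ?_⟩
    · intro f g hfg
      have h6 : (f.1.1 : K) = g.1.1 := congrArg (fun t : secV hJ N (n + 1) => (t : K)) hfg
      exact Subtype.ext (Subtype.ext h6)
    · rintro ⟨f, hf⟩
      refine ⟨⟨⟨f, secV_le hJ N n hf⟩, ?_⟩, rfl⟩
      rw [LinearMap.mem_ker]
      funext i
      refine Subtype.ext ?_
      change X.rs y (E.eq y ^ n * wd d i (n - i) (f * N.eq y)) = 0
      have h4 := wd_mem hJ i (n - i) hf.2.1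
      rw [rsE hE.un n h4, hf.2.2 i (n - i) (by have := hab i; omega), mul_zero]
  rw [h3] at h1
  omega

theorem ord_a [CharZero k] (h : Hyp X) {y : X.P} (hy : Algebra.trdeg k (X.kap y) = 1) {d : Fin 2 → Derivation k K K}
    {t : Fin 2 → K} (hJ : Jet X y d t) {E : Cart X} (hE : Bd y d E) :
    ∃ a : ℕ, 1 ≤ a ∧ ∀ (N : Cart X) (s : K) (n : ℕ), Sec N 1 s → dz h.var y N + n * a < 0 →
      Vn X y d (n + 1) (s * N.eq y) := by
  refine ⟨(dz h.var y E).toNat + 1, Nat.le_add_left 1 _, fun N s n hs hn => ?_⟩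
  have key : ∀ j : ℕ, j ≤ n + 1 → Vn X y d j (s * N.eq y) := by
    intro j
    induction j with
    | zero =>
      intro _
      refine ⟨?_, fun a b hab => absurd hab (Nat.not_lt_zero _)⟩
      have h1 := hs y
      rwa [pow_one] at h1
    | succ j ih =>
      intro hj
      have h1 := ih (by omega)
      refine ⟨h1.1, fun a b hab => ?_⟩
      rcases Nat.lt_or_ge (a + b) j with h4 | h4
      · exact h1.2 a b h4
      · have h5 : a + b = j := le_antisymm (Nat.le_of_lt_succ hab) h4
        have h6 := ld_sec h.var hJ hE hs h5 h1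
        by_contra h7
        have h8 : X.rs y (E.eq y ^ j * wd d a b (s * N.eq y)) ≠ 0 := fun h9 =>
          h7 (rsE_zero hE.un j (wd_mem hJ a b h1.1) h9)
        have h9 := dz_nn h.var h.amp hy h6 h8
        rw [dz_mul h.var h.amp hy, dz_pow h.var h.amp hy] at h9
        have h10 : (j : ℤ) * dz h.var y E ≤ n * (((dz h.var y E).toNat + 1 : ℕ) : ℤ) := by
          have h11 : dz h.var y E ≤ (((dz h.var y E).toNat + 1 : ℕ) : ℤ) := by
            push_cast
            have := Int.self_le_toNat (dz h.var y E)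
            omega
          calc (j : ℤ) * dz h.var y E ≤ j * (((dz h.var y E).toNat + 1 : ℕ) : ℤ) :=
                mul_le_mul_of_nonneg_left h11 (by positivity)
            _ ≤ _ := mul_le_mul_of_nonneg_right (by exact_mod_cast (by omega : j ≤ n)) (by positivity)
        omega
  exact key (n + 1) le_rfl

end Pool.Agent.H89.RS
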